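import Pool.Agent.Q72.TR.App

/-!
Applications of the truncated inequality: subvarieties of general type and morphisms from the
multiplicative group.
-/

set_option autoImplicit false

namespace Pool.Agent.Q72.TR

open Filter Metric Real Set Topology
open MvPolynomial MeasureTheory
open Pool.Agent.TH143.GT Pool.Agent.W602.GT Pool.Agent.TH143
open Pool.Agent.Q72.SH (coord_diff eval_diff Weighted WtOn LeD leD_of_homog allFlat_of InD GmMor
  GmNC GmIn GmPointed GmBounded NoTor PolyCurve GmCurve eval_scale SpRat SpTor ZCl)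
open Pool.Agent.Q72.GH (pm pull eval_pull pull_hom lin_sum)
open Pool.Agent.W603.BPR (EntireCurve)
open Pool.Agent.W603.GR (SubVarP OffQ)

variable {n d : ℕ} {E : Set (MvPolynomial (Fin (n + 1)) ℂ)} {Q : MvPolynomial (Fin (n + 1)) ℂ}
  {J : Set (MvPolynomial (Fin (n + 1)) ℂ)} {f : ℂ → Fin (n + 1) → ℂ}

theorem Mono.gm {B : ℕ} {S : (Fin (n + 1) → ℂ) →ₗ[ℂ] (Fin (n + 1) → ℂ)} {x : Fin (n + 1) → ℂ}
    {k : Fin (n + 1) → ℕ} (h : Mono B E Q S x k) : GmMor E Q (mon S x k) ∧ GmNC (mon S x k) := by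
  obtain ⟨h1, -⟩ := h.entire
  refine Pool.Agent.Q72.SH.GmCurve.mor h1 fun z l => ?_
  exact (congrFun (mon_eval S x k (Complex.exp z)) l).symm

/-- morphisms from the multiplicative group -/
theorem monIn_of_gm (h : GmIn E Q J) (B : ℕ) : MonIn B E Q J := by
  intro S x k hM t ht
  obtain ⟨h1, h2⟩ := hM.gm
  have h3 := h _ h1 h2 t ht
  rwa [mon_eval] at h3

/-- subvarieties of general type -/
theorem monIn_of_sub {q : ℕ} (hE : ∀ F ∈ E, IsForm F) (hQ : Q.IsHomogeneous q)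
    (hJ : ∀ H ∈ J, IsForm H)
    (h : ∀ (K : Type) [Field K] [Algebra ℂ K] (w : ℕ) (y : Fin (n + 1) → K),
      SubVarP (Ideal.span E) Q K w y → 0 < w → (∃ H ∈ J, W602.GT.val y H ≠ 0) →
        LogGeneralType ℂ K w (OffQ Q q y) ∨ Q = 1 ∧ GeneralType ℂ K w) (B : ℕ) :
    MonIn B E Q J := by
  intro S x k hM t ht
  by_contra hcon
  unfold InD at hcon
  push Not at hcon
  obtain ⟨H, hH, hHt⟩ := hcon
  obtain ⟨h1, -⟩ := hM.entire
  obtain ⟨hT, hN⟩ := hM.gm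
  obtain ⟨K, i1, i2, w, y, h2, h3, h4, h5⟩ := Pool.Agent.Q72.SH.exists_sub_curve hE hQ
    (hT.entire hN)
  have e : ∀ z : ℂ, (fun j => (mon S x k j).eval (Complex.exp z)) =
      S fun j => x j * Complex.exp z ^ k j := fun z => mon_eval S x k (Complex.exp z)
  have hval : W602.GT.val y H ≠ 0 := by
    intro h0
    have h6 := (h5 H (hJ H hH)).1 h0 (Complex.log t)
    rw [e, Complex.exp_log ht] at h6
    exact hHt h6
  obtain ⟨r, hr⟩ := Pool.Agent.Q72.SH.not_allFlat hQ hT hN h5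
  apply hr
  rcases h K w y h2 h4 ⟨H, hH, hval⟩ with h6 | ⟨rfl, h6⟩
  · exact Pool.Agent.TH143.DE.flat_gt h3 hQ h6 r
  · exact allFlat_of h3 (Or.inr (Or.inr h6)) r

/-- monomial curves lie in the set given by the rational curves -/
theorem monSet_sub_spRat (hE : ∀ F ∈ E, IsForm F) (B : ℕ) : MonSet B E 1 ⊆ SpRat E := by
  rintro x ⟨hx, h⟩
  refine ⟨hx, fun G hG h0 => h G hG ?_⟩
  rintro u ⟨S, x, k, hM, t, ht, rfl⟩
  obtain ⟨h1, h2⟩ := hM.entire
  obtain ⟨g, hg1, hg2, hg3⟩ := poly_of_gm' hE h1 h2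
  obtain ⟨c, hc⟩ := hg3 (Complex.log t)
  simp only [Complex.exp_log ht] at hc
  obtain ⟨e, he⟩ := hG
  rw [hc]
  have h3 : (c • g t) = fun j => c * g t j := rfl
  rw [h3, eval_scale he, h0 g ⟨hg1, hg2⟩ t, mul_zero]

/-- the closure of the union of the subvarieties of positive dimension which are not of general
type, without the origin -/
def SpAlg (E : Set (MvPolynomial (Fin (n + 1)) ℂ)) : Set (Fin (n + 1) → ℂ) :=
  {x | x ≠ 0 ∧ ∀ G : MvPolynomial (Fin (n + 1)) ℂ, IsForm G →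
    (∀ (K : Type) [Field K] [Algebra ℂ K] (w : ℕ) (y : Fin (n + 1) → K),
      SubVarP (Ideal.span E) 1 K w y → 0 < w → ¬ GeneralType ℂ K w → W602.GT.val y G = 0) →
    eval x G = 0}

theorem monSet_sub_spAlg (hE : ∀ F ∈ E, IsForm F) (B : ℕ) : MonSet B E 1 ⊆ SpAlg E := by
  rintro x ⟨hx, h⟩
  refine ⟨hx, fun G hG h0 => h G hG ?_⟩
  rintro u ⟨S, x, k, hM, t, ht, rfl⟩
  by_contra hcon
  have h1 : MonIn B E 1 {G} := by
    refine monIn_of_sub (q := 0) hE (isHomogeneous_one _ _) (fun H hH => by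
      rw [Set.mem_singleton_iff.1 hH]; exact hG) (fun K _ _ w y h2 h3 h4 => ?_) B
    right
    refine ⟨rfl, ?_⟩
    by_contra h5
    obtain ⟨H, hH, hHy⟩ := h4
    rw [Set.mem_singleton_iff.1 hH] at hHy
    exact hHy (h0 K w y h2 h3 h5)
  exact hcon (h1 S x k hM t ht G rfl)

/-- dense special sets -/
theorem few_of_flat {p : Ideal (MvPolynomial (Fin (n + 1)) ℂ)} {ε : ℝ}
    {G : MvPolynomial (Fin (n + 1)) ℂ} (hG : IsForm G)
    (h : ∀ ℓ S, Inv ℓ S → ∀ f, Cur E Q f → (∃ z, eval (f z) G ≠ 0) → Trunc ε ℓ Q f)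
    {x : Fin (n + 1) → ℂ} (hx : x ∈ FewSet ε E Q) : eval x G = 0 := by
  refine hx.2 G hG ?_
  rintro u ⟨f, ℓ, S, hℓ, hf, hT, z, rfl⟩
  by_contra hz
  exact hT (h ℓ S hℓ f hf ⟨z, hz⟩)

end Pool.Agent.Q72.TR
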