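import Pool.Agent.Q72.TR.Lin

/-!
The truncated inequality: final statements.
-/

set_option autoImplicit false

namespace Pool.Agent.Q72.TR

open Filter Metric Real Set Topology Pool.Agent.H159R3.NV Pool.Agent.W602.NC MeromorphicOn
open MvPolynomial MeasureTheory
open Pool.Agent.TH143.GT Pool.Agent.W602.GT Pool.Agent.TH143
open Pool.Agent.Q72.SH (coord_diff eval_diff Weighted WtOn LeD leD_of_homog)
open Pool.Agent.Q72.GH (pm pull eval_pull pull_hom lin_sum)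
open Pool.Agent.W603.BPR (EntireCurve)

variable {n d : ℕ}

/-- The characteristic function (Cartan) of the curve with the homogeneous coordinates `f`: the mean
of `log |f|` on the circle of radius `r`, minus `log |f(0)|`. -/
noncomputable def CharT (f : ℂ → Fin (n + 1) → ℂ) (r : ℝ) : ℝ :=
  Real.circleAverage (fun z => Real.log ‖f z‖) 0 r - Real.log ‖f 0‖

/-- The points of `ℂ` that `f` maps to one of the hyperplanes `ℓ i = 0` which do not contain the
curve, or to the hypersurface `Q = 0`. -/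
def Pts (ℓ : (Fin (n + 1) → ℂ) →ₗ[ℂ] (Fin (n + 1) → ℂ)) (Q : MvPolynomial (Fin (n + 1)) ℂ)
    (f : ℂ → Fin (n + 1) → ℂ) : Set ℂ :=
  {x | (∃ i, (∃ y, ℓ (f y) i ≠ 0) ∧ ℓ (f x) i = 0) ∨ eval (f x) Q = 0}

/-- The counting function of these points, each point counted once: the sum of `log (r / |x|)` over
the points `x` with `|x| ≤ r` (of `log r` if `x = 0`). -/
noncomputable def CountN (ℓ : (Fin (n + 1) → ℂ) →ₗ[ℂ] (Fin (n + 1) → ℂ))
    (Q : MvPolynomial (Fin (n + 1)) ℂ) (f : ℂ → Fin (n + 1) → ℂ) (r : ℝ) : ℝ :=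
  ∑ᶠ (x : ℂ) (_ : x ∈ Pts ℓ Q f), wgt r x

/-- The inequality `ε T(r) ≤ N(r)` for all `r` outside of a set of finite Lebesgue measure. -/
def Trunc (ε : ℝ) (ℓ : (Fin (n + 1) → ℂ) →ₗ[ℂ] (Fin (n + 1) → ℂ))
    (Q : MvPolynomial (Fin (n + 1)) ℂ) (f : ℂ → Fin (n + 1) → ℂ) : Prop :=
  ∃ X : Set ℝ, volume X < ⊤ ∧ ∀ r, 0 < r → r ∉ X → ε * CharT f r ≤ CountN ℓ Q f r

/-- All intersections of `f` with the hyperplanes `ℓ i = 0` which do not contain it, and with
`Q = 0`, have at least the multiplicity `m`. -/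
def MultGe (m : ℕ) (ℓ : (Fin (n + 1) → ℂ) →ₗ[ℂ] (Fin (n + 1) → ℂ))
    (Q : MvPolynomial (Fin (n + 1)) ℂ) (f : ℂ → Fin (n + 1) → ℂ) : Prop :=
  (∀ i x, (∃ y, ℓ (f y) i ≠ 0) → ℓ (f x) i = 0 →
    (m : ℕ∞) ≤ analyticOrderAt (fun z => ℓ (f z) i) x) ∧
  ∀ x, eval (f x) Q = 0 → (m : ℕ∞) ≤ analyticOrderAt (fun z => eval (f z) Q) x

theorem Trunc.mono {ε ε' : ℝ} {ℓ : (Fin (n + 1) → ℂ) →ₗ[ℂ] (Fin (n + 1) → ℂ)}
    {Q : MvPolynomial (Fin (n + 1)) ℂ} {f : ℂ → Fin (n + 1) → ℂ} (h : Trunc ε ℓ Q f)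
    (he : ε' ≤ ε) (hT : ∃ R0 : ℝ, ∀ r, R0 ≤ r → 0 ≤ CharT f r) : Trunc ε' ℓ Q f := by
  obtain ⟨X, hX, h⟩ := h
  obtain ⟨R0, hR0⟩ := hT
  refine ⟨X ∪ Set.Icc 0 R0, ?_, fun r hr hrX => ?_⟩
  · refine lt_of_le_of_lt (measure_union_le X (Set.Icc 0 R0)) ?_
    rw [Real.volume_Icc]
    exact ENNReal.add_lt_top.2 ⟨hX, ENNReal.ofReal_lt_top⟩
  · have h1 : r ∉ X := fun h => hrX (Or.inl h)
    have h2 : R0 ≤ r := by
      by_contra h3
      push Not at h3
      exact hrX (Or.inr ⟨hr.le, h3.le⟩)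
    exact (mul_le_mul_of_nonneg_right he (hR0 r h2)).trans (h r hr h1)

theorem countN_eq {ℓ S : (Fin (n + 1) → ℂ) →ₗ[ℂ] (Fin (n + 1) → ℂ)} (hS : ∀ x, S (ℓ x) = x)
    (Q : MvPolynomial (Fin (n + 1)) ℂ) (f : ℂ → Fin (n + 1) → ℂ) (r : ℝ) :
    Nb (fun z => ℓ (f z)) (pull S Q) r = CountN ℓ Q f r := by
  have h1 : zs (fun z => ℓ (f z)) (pull S Q) = Pts ℓ Q f := by
    ext x
    unfold zs Pts
    simp only [Set.mem_ofPred_eq, eval_pull, hS]
  unfold Nb CountN
  rw [h1]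

/-- **The characteristic function of a nonconstant curve grows at least like the logarithm.** -/
theorem char_log {f : ℂ → Fin (n + 1) → ℂ} (hf : Differentiable ℂ f) (h0 : ∀ z, f z ≠ 0)
    (hnc : ∃ z w, ∀ c : ℂ, f z ≠ c • f w) :
    ∃ c : ℝ, ∀ r, 1 ≤ r → Real.log r ≤ CharT f r + c := by
  obtain ⟨z, w, hzw⟩ := hnc
  obtain ⟨i, hi⟩ : ∃ i, f w i ≠ 0 := Function.ne_iff.1 (h0 w)
  obtain ⟨j, hj⟩ : ∃ j, f z j ≠ ((f z i / f w i) • f w) j := Function.ne_iff.1 (hzw _)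
  set h : ℂ → ℂ := fun u => f w i * f u j - f w j * f u i with hh
  have hd : Differentiable ℂ h :=
    ((coord_diff hf j).const_mul _).sub ((coord_diff hf i).const_mul _)
  have hw : h w = 0 := by
    change f w i * f w j - f w j * f w i = 0
    ring
  have hz : h z ≠ 0 := by
    change f w i * f z j - f w j * f z i ≠ 0
    intro h1
    apply hj
    rw [Pi.smul_apply, smul_eq_mul]
    field_simp
    linear_combination h1
  have hfw : 0 < ‖f w‖ := norm_pos_iff.2 (h0 w)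
  have hb : ∀ u, ‖h u‖ ≤ 2 * ‖f w‖ * ‖f u‖ ^ 1 := by
    intro u
    rw [pow_one]
    have h1 : ‖f w i * f u j‖ ≤ ‖f w‖ * ‖f u‖ := by
      rw [norm_mul]
      exact mul_le_mul (norm_le_pi_norm _ _) (norm_le_pi_norm _ _) (norm_nonneg _) (norm_nonneg _)
    have h2 : ‖f w j * f u i‖ ≤ ‖f w‖ * ‖f u‖ := by
      rw [norm_mul]
      exact mul_le_mul (norm_le_pi_norm _ _) (norm_le_pi_norm _ _) (norm_nonneg _) (norm_nonneg _)
    calc ‖h u‖ ≤ ‖f w i * f u j‖ + ‖f w j * f u i‖ := norm_sub_le _ _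
      _ ≤ 2 * ‖f w‖ * ‖f u‖ := by linarith
  refine ⟨Real.log (2 * ‖f w‖) + Real.log ‖f 0‖ + |Real.log ‖w‖| + |tc h|, fun r hr => ?_⟩
  have hr0 : 0 < r := by linarith
  have h1 := L_le_Tm hf h0 hd ⟨z, hz⟩ (by positivity : 0 < 2 * ‖f w‖) hb hr0.ne'
  rw [Nat.cast_one, one_mul] at h1
  have hfin := fin_zeros hd ⟨z, hz⟩ r
  have h2 := jen hd ⟨z, hz⟩ hr0 hfin.toFinset
    (fun x hx hx0 => hfin.mem_toFinset.2 ⟨hx, hx0⟩) (fun x hx => (hfin.mem_toFinset.1 hx).1)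
  have h3 : Real.log r - |Real.log ‖w‖| ≤ ∑ x ∈ hfin.toFinset, (oo h x : ℝ) * wgt r x := by
    have hnn : ∀ x ∈ hfin.toFinset, 0 ≤ (oo h x : ℝ) * wgt r x := fun x _ =>
      mul_nonneg (Nat.cast_nonneg _) (wgt_nonneg hr x)
    by_cases hwr : ‖w‖ ≤ r
    · have h4 : (oo h w : ℝ) * wgt r w ≤ ∑ x ∈ hfin.toFinset, (oo h x : ℝ) * wgt r x :=
        Finset.single_le_sum (f := fun x => (oo h x : ℝ) * wgt r x) hnn
          (hfin.mem_toFinset.2 ⟨hwr, hw⟩)
      have h5 : (1 : ℝ) ≤ oo h w := by exact_mod_cast one_le_oo hd ⟨z, hz⟩ hw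
      have h6 : wgt r w ≤ (oo h w : ℝ) * wgt r w :=
        le_mul_of_one_le_left (wgt_nonneg hr w) h5
      have h7 : Real.log r - |Real.log ‖w‖| ≤ wgt r w := by
        by_cases hw0 : w = 0
        · have : wgt r w = Real.log r := by unfold wgt; rw [if_pos hw0]
          have := abs_nonneg (Real.log ‖w‖)
          linarith
        · have : wgt r w = Real.log r - Real.log ‖w‖ := by
            unfold wgt
            rw [if_neg hw0, if_pos hwr, Real.log_div hr0.ne' (norm_ne_zero_iff.2 hw0)]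
          have := le_abs_self (Real.log ‖w‖)
          linarith
      linarith
    · push Not at hwr
      have h4 := Real.log_le_log hr0 hwr.le
      have h5 := le_abs_self (Real.log ‖w‖)
      have h6 := Finset.sum_nonneg hnn
      linarith
  have h4 := neg_abs_le (tc h)
  unfold CharT
  change Real.log r ≤ Tm f r - Real.log ‖f 0‖ + _
  linarith

theorem Tm_lin {ℓ S : (Fin (n + 1) → ℂ) →ₗ[ℂ] (Fin (n + 1) → ℂ)} (hS : ∀ x, S (ℓ x) = x)
    {f : ℂ → Fin (n + 1) → ℂ} (hf : Differentiable ℂ f) (h0 : ∀ z, f z ≠ 0) :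
    ∃ c : ℝ, ∀ r, Tm f r ≤ Tm (fun z => ℓ (f z)) r + c := by
  have hd : Differentiable ℂ fun z => ℓ (f z) :=
    (LinearMap.toContinuousLinearMap ℓ).differentiable.comp hf
  have h0' : ∀ z, ℓ (f z) ≠ 0 := by
    intro z h
    apply h0 z
    have h1 := congrArg S h
    rwa [hS, map_zero] at h1
  set A := ‖LinearMap.toContinuousLinearMap S‖ + 1 with hA
  have hA0 : 0 < A := by positivity
  refine ⟨Real.log A, fun r => ?_⟩
  have i1 := Tm_int hf h0 r
  have i2 := Tm_int hd h0' r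
  have e1 : Tm (fun z => ℓ (f z)) r + Real.log A =
      Real.circleAverage (fun z => Real.log ‖ℓ (f z)‖ + Real.log A) 0 r := by
    rw [Real.circleAverage_fun_add i2 (circleIntegrable_const _ _ _), Real.circleAverage_const]
    rfl
  rw [e1]
  apply Real.circleAverage_mono i1 (i2.add (circleIntegrable_const _ _ _))
  intro z _
  have h1 : ‖f z‖ ≤ A * ‖ℓ (f z)‖ := by
    have h2 := (LinearMap.toContinuousLinearMap S).le_opNorm (ℓ (f z))
    have h3 : (LinearMap.toContinuousLinearMap S) (ℓ (f z)) = f z := hS (f z)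
    rw [h3] at h2
    have h4 : 0 ≤ ‖ℓ (f z)‖ := norm_nonneg _
    rw [hA]
    nlinarith
  have h2 : 0 < ‖f z‖ := norm_pos_iff.2 (h0 z)
  have h3 : 0 < ‖ℓ (f z)‖ := norm_pos_iff.2 (h0' z)
  change Real.log ‖f z‖ ≤ Real.log ‖ℓ (f z)‖ + Real.log A
  have h5 : Real.log ‖ℓ (f z)‖ + Real.log A = Real.log (A * ‖ℓ (f z)‖) := by
    rw [Real.log_mul hA0.ne' h3.ne', add_comm (Real.log A)]
  rw [h5]
  exact Real.log_le_log h2 h1

/-- **The inequality or weights, for all systems of hyperplanes.** -/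
theorem trunc_or (n d : ℕ) : ∃ ε : ℝ, 0 < ε ∧ ∀ (E : Set (MvPolynomial (Fin (n + 1)) ℂ)),
    (∀ F ∈ E, ∃ e ≤ d, F.IsHomogeneous e) → ∀ (Q : MvPolynomial (Fin (n + 1)) ℂ) (q : ℕ), q ≤ d →
    Q.IsHomogeneous q → ∀ ℓ S : (Fin (n + 1) → ℂ) →ₗ[ℂ] (Fin (n + 1) → ℂ), (∀ x, S (ℓ x) = x) →
    ∀ f : ℂ → Fin (n + 1) → ℂ, Cur E Q f →
      Weighted (d + 1) (pull S '' E) (pull S Q) (fun z => ℓ (f z)) ∨ Trunc ε ℓ Q f := by
  obtain ⟨C, hC, h⟩ := trunc n d
  refine ⟨1 / (2 * C), by positivity, ?_⟩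
  intro E hE Q q hq hQ ℓ S hS f hf
  have hlift := hf.lift hS
  rcases h (pull S '' E) (by
      rintro _ ⟨F, hF, rfl⟩
      obtain ⟨e, he, hFe⟩ := hE F hF
      exact ⟨e, he, pull_hom S hFe⟩) (pull S Q) q hq (pull_hom S hQ) _ hlift with h1 | h1
  · exact Or.inl h1
  · right
    obtain ⟨X, hX, hXr⟩ := h1
    obtain ⟨c1, hc1⟩ := Tm_lin hS hf.df hf.ne
    obtain ⟨c2, hc2⟩ := char_log hlift.df hlift.ne hlift.nc
    set c3 : ℝ := |c1 + Real.log ‖ℓ (f 0)‖ - Real.log ‖f 0‖| with hc3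
    set R0 : ℝ := max 1 (Real.exp (c3 + c2)) with hR0
    refine ⟨X ∪ Set.Icc 0 R0, ?_, fun r hr hrX => ?_⟩
    · refine lt_of_le_of_lt (measure_union_le X (Set.Icc 0 R0)) ?_
      rw [Real.volume_Icc]
      exact ENNReal.add_lt_top.2 ⟨hX, ENNReal.ofReal_lt_top⟩
    · have hrX1 : r ∉ X := fun h => hrX (Or.inl h)
      have hrR : R0 < r := by
        by_contra h
        push Not at h
        exact hrX (Or.inr ⟨hr.le, h⟩)
      have hr1 : 1 ≤ r := (le_max_left _ _).trans hrR.le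
      have hr2 : Real.exp (c3 + c2) ≤ r := (le_max_right _ _).trans hrR.le
      have h2 := hXr r hr hrX1
      rw [countN_eq hS] at h2
      have h3 := hc2 r hr1
      have h4 : c3 + c2 ≤ Real.log r := by
        rw [Real.le_log_iff_exp_le (by linarith)]
        exact hr2
      have h5 := hc1 r
      have h6 := le_abs_self (c1 + Real.log ‖ℓ (f 0)‖ - Real.log ‖f 0‖)
      have h7 : CharT f r = Tm f r - Real.log ‖f 0‖ := rfl
      have h8 : CharT (fun z => ℓ (f z)) r = Tm (fun z => ℓ (f z)) r - Real.log ‖ℓ (f 0)‖ := rfl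
      rw [h8] at h3
      have h9 : CharT f r ≤ 2 * (C * CountN ℓ Q f r) := by
        rw [h7]
        linarith
      rw [one_div, inv_mul_le_iff₀ (by positivity)]
      linarith

/-- multiplicities and the counting function -/
theorem Nb_le_mult {f : ℂ → Fin (n + 1) → ℂ} {Q : MvPolynomial (Fin (n + 1)) ℂ} {q : ℕ}
    (hQh : Q.IsHomogeneous q) (hf : Differentiable ℂ f) (h0 : ∀ z, f z ≠ 0)
    (hQ : ∃ y, eval (f y) Q ≠ 0) {m : ℕ}
    (hm : ∀ p, (∃ y, FF f Q p y ≠ 0) → ∀ x, FF f Q p x = 0 → m ≤ oo (FF f Q p) x) :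
    ∃ c : ℝ, 0 ≤ c ∧ ∀ R, 1 ≤ R →
    0 ≤ Tm f R + c ∧ m * Nb f Q R ≤ (n + 2 + q) * (Tm f R + c) := by
  classical
  obtain ⟨cQ, hcQ1, hcQ⟩ := eval_bound hQh
  set g : Option (Fin (n + 1)) → ℂ → ℂ := FF f Q with hg
  have hgd := FF_diff hf Q
  set c : ℝ := ∑ p, |tc (g p)| + Real.log cQ with hc
  have hlcQ : 0 ≤ Real.log cQ := Real.log_nonneg hcQ1
  have hct : ∀ p, |tc (g p)| + Real.log cQ ≤ c := fun p => by
    have := Finset.single_le_sum (f := fun p => |tc (g p)|) (fun p _ => abs_nonneg _)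
      (Finset.mem_univ p)
    rw [hc]
    linarith
  have hc0 : 0 ≤ c := add_nonneg (Finset.sum_nonneg fun p _ => abs_nonneg _) hlcQ
  refine ⟨2 * c, by linarith, fun R hR => ?_⟩
  have hR0 : 0 < R := by linarith
  obtain ⟨l0, hl0⟩ : ∃ l, f 0 l ≠ 0 := Function.ne_iff.1 (h0 0)
  -- the degrees
  set dg' : Option (Fin (n + 1)) → ℕ := fun p => match p with
    | some _ => 1
    | none => q with hdg
  have hgb : ∀ p z, ‖g p z‖ ≤ cQ * ‖f z‖ ^ dg' p := by
    intro p z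
    cases p with
    | none => exact hcQ _
    | some l =>
      change ‖f z l‖ ≤ cQ * ‖f z‖ ^ 1
      rw [pow_one]
      have h1 := norm_le_coord (f := f) z l
      nlinarith [norm_nonneg (f z)]
  have hTm0 : 0 ≤ Tm f R + c := by
    have h1 := L_le_Tm hf h0 (g := g (some l0)) (hgd _) ⟨0, hl0⟩ (by linarith : 0 < cQ)
      (hgb (some l0)) hR0.ne'
    have h2 := tc_le (hgd (some l0)) ⟨0, hl0⟩ hR
    have h3 := neg_abs_le (tc (g (some l0)))
    have h4 := hct (some l0)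
    have h5 : ((dg' (some l0) : ℕ) : ℝ) = 1 := by simp [hdg]
    rw [h5] at h1
    linarith
  have hTm2 : 0 ≤ Tm f R + 2 * c := by linarith
  refine ⟨hTm2, ?_⟩
  rw [Nb_eq hf hQ hR0.le]
  set T : Finset (Option (Fin (n + 1))) := Finset.univ.filter fun p => ∃ y, g p y ≠ 0 with hT
  have h1 : m * ∑ x ∈ zz hf hQ R, wgt R x ≤
      ∑ p ∈ T, ∑ x ∈ zz hf hQ R, (oo (g p) x : ℝ) * wgt R x := by
    rw [Finset.sum_comm, Finset.mul_sum]
    refine Finset.sum_le_sum fun x hx => ?_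
    have hex : ∃ p ∈ T, g p x = 0 := by
      rcases ((mem_zz hf hQ).1 hx).2 with ⟨l, hl, hlx⟩ | h
      · exact ⟨some l, by rw [hT, Finset.mem_filter]; exact ⟨Finset.mem_univ _, hl⟩, hlx⟩
      · exact ⟨none, by rw [hT, Finset.mem_filter]; exact ⟨Finset.mem_univ _, hQ⟩, h⟩
    obtain ⟨p, hp, hpx⟩ := hex
    have h2 := hm p (Finset.mem_filter.1 hp).2 x hpx
    have h2' : (m : ℝ) ≤ oo (g p) x := by exact_mod_cast h2
    calc (m : ℝ) * wgt R x ≤ (oo (g p) x : ℝ) * wgt R x :=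
          mul_le_mul_of_nonneg_right h2' (wgt_nonneg hR x)
      _ ≤ _ := Finset.single_le_sum (f := fun p => (oo (g p) x : ℝ) * wgt R x)
          (fun p _ => mul_nonneg (Nat.cast_nonneg _) (wgt_nonneg hR x)) hp
  have h3 : ∀ p ∈ T, ∑ x ∈ zz hf hQ R, (oo (g p) x : ℝ) * wgt R x ≤
      (dg' p + if p = none then 1 else 0) * (Tm f R + 2 * c) := by
    intro p hp
    have hp' := (Finset.mem_filter.1 hp).2
    have h4 := jen (hgd p) hp' hR0 (zz hf hQ R)
      (fun x hx hx0 => (mem_zz hf hQ).2 ⟨hx, by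
        cases p with
        | none => exact Or.inr hx0
        | some l => exact Or.inl ⟨l, hp', hx0⟩⟩) (fun x hx => ((mem_zz hf hQ).1 hx).1)
    have h5 := L_le_Tm hf h0 (hgd p) hp' (by linarith : 0 < cQ) (hgb p) hR0.ne'
    have h6 := hct p
    have h7 := neg_abs_le (tc (g p))
    cases p with
    | none =>
      rw [if_pos rfl]
      have h9 : (0 : ℝ) ≤ dg' none * c := mul_nonneg (Nat.cast_nonneg _) hc0
      have h10 : (0 : ℝ) ≤ Tm f R + c := hTm0
      have h11 : L (g none) R ≥ tc (g none) := tc_le (hgd none) hp' hR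
      have h12 : ((dg' none : ℕ) : ℝ) * Tm f R + c ≤ (dg' none + 1) * (Tm f R + 2 * c) := by
        have h13 : ((dg' none : ℕ) + 1) * (Tm f R + 2 * c) =
          ((dg' none : ℕ) : ℝ) * Tm f R + 2 * (dg' none * c) + (Tm f R + c) + c := by ring
        rw [h13]
        linarith
      linarith
    | some l =>
      rw [if_neg (by simp)]
      have h5' : ((dg' (some l) : ℕ) : ℝ) = 1 := by simp [hdg]
      rw [h5'] at h5 ⊢
      linarith
  have h8 : ∑ p ∈ T, ((dg' p : ℝ) + if p = none then 1 else 0) * (Tm f R + 2 * c) ≤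
      (n + 2 + q) * (Tm f R + 2 * c) := by
    rw [← Finset.sum_mul]
    refine mul_le_mul_of_nonneg_right ?_ hTm2
    calc ∑ p ∈ T, ((dg' p : ℝ) + if p = none then 1 else 0) ≤
        ∑ p, ((dg' p : ℝ) + if p = none then 1 else 0) := by
          apply Finset.sum_le_sum_of_subset_of_nonneg (Finset.subset_univ _)
          intro p _ _
          positivity
      _ = n + 2 + q := by
          rw [Fintype.sum_option]
          simp [hdg]
          ring
  exact h1.trans ((Finset.sum_le_sum h3).trans h8)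

theorem not_finite_Ici {X : Set ℝ} (hX : volume X < ⊤) (R : ℝ) : ∃ r, R ≤ r ∧ r ∉ X := by
  by_contra h
  push Not at h
  have h1 : Set.Ici R ⊆ X := fun r hr => h r hr
  have h2 := measure_mono (μ := volume) h1
  rw [Real.volume_Ici] at h2
  exact absurd hX (not_lt.2 h2)

/-- **Multiplicities.** -/
theorem no_mult {E : Set (MvPolynomial (Fin (n + 1)) ℂ)} {Q : MvPolynomial (Fin (n + 1)) ℂ} {q : ℕ}
    (hq : q ≤ d) (hQ : Q.IsHomogeneous q) {ℓ S : (Fin (n + 1) → ℂ) →ₗ[ℂ] (Fin (n + 1) → ℂ)}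
    (hS : ∀ x, S (ℓ x) = x) (hS' : ∀ x, ℓ (S x) = x) {f : ℂ → Fin (n + 1) → ℂ} (hf : Cur E Q f)
    {ε : ℝ} (hε : 0 < ε) (hT : Trunc ε ℓ Q f) {m : ℕ} (hm : n + 2 + d < ε * m) :
    ¬ MultGe m ℓ Q f := by
  intro hmult
  have hlift := hf.lift hS
  have hm0 : ∀ p, (∃ y, FF (fun z => ℓ (f z)) (pull S Q) p y ≠ 0) → ∀ x,
      FF (fun z => ℓ (f z)) (pull S Q) p x = 0 → m ≤ oo (FF (fun z => ℓ (f z)) (pull S Q) p) x := by
    intro p hp x hx
    have h1 := oo_cast (FF_diff hlift.df (pull S Q) p) hp x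
    have h2 : (m : ℕ∞) ≤ analyticOrderAt (FF (fun z => ℓ (f z)) (pull S Q) p) x := by
      cases p with
      | none =>
        have h3 : FF (fun z => ℓ (f z)) (pull S Q) none = fun z => eval (f z) Q := by
          funext z
          change eval (ℓ (f z)) (pull S Q) = _
          rw [eval_pull, hS]
        rw [h3] at hx ⊢
        exact hmult.2 x hx
      | some l => exact hmult.1 l x hp hx
    rw [← h1] at h2
    exact_mod_cast h2
  obtain ⟨c1, hc1, hle⟩ := Nb_le_mult (pull_hom S hQ) hlift.df hlift.ne hlift.off hm0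
  obtain ⟨c2, hc2⟩ := char_log hf.df hf.ne hf.nc
  -- the characteristic functions
  obtain ⟨c3, hc3⟩ := Tm_lin (ℓ := S) (S := ℓ) hS' hlift.df hlift.ne
  obtain ⟨X, hX, hXr⟩ := hT
  have hm1 : 0 < (m : ℝ) := by
    by_contra h
    push Not at h
    have h1 : ε * m ≤ 0 := mul_nonpos_of_nonneg_of_nonpos hε.le h
    have h2 : (0 : ℝ) ≤ n + 2 + d := by positivity
    linarith
  have hq' : (q : ℝ) ≤ d := by exact_mod_cast hq
  set A : ℝ := n + 2 + d with hA
  have hA0 : 0 < A := by positivity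
  -- contradiction for large r
  set c4 : ℝ := A * |c3 + c1 + Real.log ‖f 0‖| with hc4
  set δ : ℝ := ε * m - A with hδ
  have hδ0 : 0 < δ := by linarith
  obtain ⟨r, hr, hrX⟩ := not_finite_Ici hX (max 1 (Real.exp ((c4 + 1) / δ + c2)))
  have hr1 : 1 ≤ r := (le_max_left _ _).trans hr
  have hr2 : Real.exp ((c4 + 1) / δ + c2) ≤ r := (le_max_right _ _).trans hr
  have h1 := hXr r (by linarith) hrX
  obtain ⟨h2, h3⟩ := hle r hr1
  rw [countN_eq hS] at h3
  have h4 := hc2 r hr1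
  have h5 : (c4 + 1) / δ + c2 ≤ Real.log r := by
    rw [Real.le_log_iff_exp_le (by linarith)]
    exact hr2
  have h6 : (c4 + 1) / δ ≤ CharT f r := by linarith
  have h7 := hc3 r
  have h8 : (fun z => S (ℓ (f z))) = f := by
    funext z
    exact hS (f z)
  rw [h8] at h7
  have h9 : CharT f r = Tm f r - Real.log ‖f 0‖ := rfl
  have h10 : (n + 2 + q) * (Tm (fun z => ℓ (f z)) r + c1) ≤ A * (CharT f r) + c4 := by
    have e1 : (n + 2 + (q : ℝ)) * (Tm (fun z => ℓ (f z)) r + c1) ≤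
        A * (Tm (fun z => ℓ (f z)) r + c1) := by
      apply mul_le_mul_of_nonneg_right _ h2
      linarith
    have e2 : Tm (fun z => ℓ (f z)) r + c1 ≤ CharT f r + |c3 + c1 + Real.log ‖f 0‖| := by
      have := le_abs_self (c3 + c1 + Real.log ‖f 0‖)
      rw [h9]
      linarith
    have e3 := mul_le_mul_of_nonneg_left e2 hA0.le
    rw [hc4]
    linarith
  have h11 : m * (ε * CharT f r) ≤ m * CountN ℓ Q f r := mul_le_mul_of_nonneg_left h1 hm1.le
  have h12 : (ε * m) * CharT f r ≤ A * CharT f r + c4 := by linarith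
  have h13 : δ * CharT f r ≤ c4 := by
    rw [hδ]
    linarith
  have h14 : c4 + 1 ≤ δ * CharT f r := by
    rw [div_le_iff₀ hδ0] at h6
    linarith
  linarith

end Pool.Agent.Q72.TR
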