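import Pool.Agent.Q72.TR.Grow

/-!
The truncated inequality for entire curves which do not come from weights.
-/

set_option autoImplicit false

namespace Pool.Agent.Q72.TR

open Filter Metric Real Set Topology Pool.Agent.H159R3.NV Pool.Agent.W602.NC MeromorphicOn
open MvPolynomial MeasureTheory
open Pool.Agent.Q72.SH (coord_diff eval_diff Ex exf ex' fs LeD wt comp Weighted leD_of_homog Dl
  aeval_sum aeval_comp homog_sum comp_mem wt_some wt_none ei)
open Pool.Agent.W603.BPR (EntireCurve)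

variable {n : ℕ} {f : ℂ → Fin (n + 1) → ℂ}

theorem gg_bound {d q : ℕ} (hq : q ≤ d) {Q : MvPolynomial (Fin (n + 1)) ℂ}
    (hQ : Q.IsHomogeneous q) (j : Fin (n + 1)) : ∃ c : ℝ, 1 ≤ c ∧
    ∀ (f : ℂ → Fin (n + 1) → ℂ) (a : Option (Ex (Fin (n + 1)) (d + 1))) (z : ℂ),
      ‖gg (FF f Q) (xx q j) a z‖ ≤ c * ‖f z‖ ^ KK n d := by
  obtain ⟨c, hc1, hc⟩ := eval_bound hQ
  refine ⟨c, hc1, fun f a z => ?_⟩
  have hx : ∀ l, ‖f z l‖ ≤ ‖f z‖ := fun l => norm_le_pi_norm (f z) l
  have hK := dg_le hq a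
  cases a with
  | none =>
    rw [gg_none, norm_mul, norm_pow]
    have h1 : ‖f z‖ ^ KK n d = ‖f z‖ ^ q * ‖f z‖ ^ (KK n d - q) := by
      rw [← pow_add]
      congr 1
      have : q ≤ KK n d := hK
      omega
    rw [h1, ← mul_assoc]
    exact mul_le_mul (hc _) (pow_le_pow_left₀ (norm_nonneg _) (hx j) _) (by positivity)
      (by positivity)
  | some α =>
    rw [gg_some, norm_mul, norm_pow, norm_prod]
    have hK' : ∑ l, (α l : ℕ) ≤ KK n d := hK
    have h1 : ‖f z‖ ^ KK n d = ‖f z‖ ^ (∑ l, (α l : ℕ)) * ‖f z‖ ^ (KK n d - ∑ l, (α l : ℕ)) := by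
      rw [← pow_add]
      congr 1
      omega
    have h2 : ∏ l, ‖f z l ^ (α l : ℕ)‖ ≤ ‖f z‖ ^ (∑ l, (α l : ℕ)) := by
      rw [← Finset.prod_pow_eq_pow_sum]
      refine Finset.prod_le_prod (fun i _ => norm_nonneg _) fun i _ => ?_
      rw [norm_pow]
      exact pow_le_pow_left₀ (norm_nonneg _) (hx i) _
    have h3 : 0 ≤ ‖f z‖ ^ KK n d := by positivity
    calc (∏ l, ‖f z l ^ (α l : ℕ)‖) * ‖f z j‖ ^ (KK n d - ∑ l, (α l : ℕ)) ≤
          ‖f z‖ ^ (∑ l, (α l : ℕ)) * ‖f z‖ ^ (KK n d - ∑ l, (α l : ℕ)) :=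
          mul_le_mul h2 (pow_le_pow_left₀ (norm_nonneg _) (hx j) _)
            (by positivity) (by positivity)
      _ = ‖f z‖ ^ KK n d := h1.symm
      _ ≤ _ := le_mul_of_one_le_left h3 hc1

/-- good circles for the monomials -/
theorem good_gg {d q : ℕ} (hq : q ≤ d) {Q : MvPolynomial (Fin (n + 1)) ℂ}
    (hQ : Q.IsHomogeneous q) (hf : Differentiable ℂ f) (h0 : ∀ z, f z ≠ 0) {j : Fin (n + 1)}
    (hj : ∃ y, f y j ≠ 0) : ∃ B c : ℝ, 1 ≤ B ∧ 1 ≤ c ∧ ∀ r δ M : ℝ, 1 ≤ r → 0 < δ → δ ≤ 1 →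
      Tm f (r + 4 * δ) ≤ M → 1 ≤ M → ∃ s ε : ℝ, r ≤ s ∧ s ≤ r + δ ∧
      1 / ε ≤ c * (r ^ 3 * M ^ 2 / δ ^ 4) ∧ GoodC (FF f Q) (xx (d := d) q j) B s ε := by
  classical
  obtain ⟨c1, hc1, hgb⟩ := gg_bound hq hQ j
  have hgb := hgb f
  have hd := gg_diff (FF_diff hf Q) (xx (d := d) q j)
  let A' := {a : Option (Ex (Fin (n + 1)) (d + 1)) // ∃ y, gg (FF f Q) (xx q j) a y ≠ 0}
  have hA' : Nonempty A' := by
    refine ⟨⟨some fun _ => 0, ?_⟩⟩
    obtain ⟨y, hy⟩ := hj
    refine ⟨y, ?_⟩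
    rw [gg_some]
    simp [hy]
  obtain ⟨p, hp⟩ : ∃ p, Fintype.card A' = p + 1 :=
    ⟨Fintype.card A' - 1, by have := Fintype.card_pos (α := A'); omega⟩
  let e : A' ≃ Fin (p + 1) := Fintype.equivFinOfCardEq hp
  set g : Fin (p + 1) → ℂ → ℂ := fun i => gg (FF f Q) (xx q j) (e.symm i).1 with hg
  obtain ⟨Λ, B, hΛ, hB, hgood⟩ := good_family g (fun i => hd _) (fun i => (e.symm i).2)
  set κ : ℝ := (p + 1) * (KK n d + Real.log c1 + Λ) + 1 with hκ
  have hlc : 0 ≤ Real.log c1 := Real.log_nonneg hc1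
  have hκ1 : 1 ≤ κ := by
    have : 0 ≤ (p + 1) * (KK n d + Real.log c1 + Λ) := by positivity
    linarith
  refine ⟨B, 500000 * κ ^ 2, hB, ?_, ?_⟩
  · nlinarith [one_le_pow₀ hκ1 (n := 2)]
  intro r δ M hr hδ hδ1 hM hM1
  have hR0 : 0 < r + 4 * δ := by linarith
  have hM' : ∀ i, T2 (g 0) (g i) (r + 4 * δ) ≤ KK n d * M + Real.log c1 := by
    intro i
    have h1 := T2_le' hf h0 (hd (e.symm 0).1) (hd (e.symm i).1) (e.symm 0).2
      (by linarith : 0 < c1) (fun z => hgb _ z) (fun z => hgb _ z) hR0.ne'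
    have h2 : (KK n d : ℝ) * Tm f (r + 4 * δ) ≤ KK n d * M :=
      mul_le_mul_of_nonneg_left hM (Nat.cast_nonneg _)
    linarith
  obtain ⟨s, ε, hrs, hsδ, hε, hε1, hεX, h0', hb'⟩ := hgood r δ _ hr hδ hδ1 hM' (by positivity)
  refine ⟨s, ε, hrs, hsδ, hεX.trans ?_, hr.trans hrs, hε, hε1, ?_, ?_⟩
  · have h1 : (r + 4 * δ) ^ 3 ≤ (5 * r) ^ 3 := by
      apply pow_le_pow_left₀ hR0.le
      linarith
    have h2 : (p + 1) * (KK n d * M + Real.log c1 + Λ) + 1 ≤ κ * M := by
      rw [hκ]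
      have e1 : Real.log c1 ≤ Real.log c1 * M := le_mul_of_one_le_right hlc hM1
      have e2 : Λ ≤ Λ * M := le_mul_of_one_le_right hΛ hM1
      have e3 : (p + 1 : ℝ) * (KK n d * M + Real.log c1 + Λ) ≤
          (p + 1) * (KK n d * M + Real.log c1 * M + Λ * M) := by
        apply mul_le_mul_of_nonneg_left _ (by positivity)
        linarith
      nlinarith
    have h3 : ((p + 1) * (KK n d * M + Real.log c1 + Λ) + 1) ^ 2 ≤ (κ * M) ^ 2 :=
      pow_le_pow_left₀ (by positivity) h2 2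
    calc 4 * (1000 * (r + 4 * δ) ^ 3 * ((p + 1) * (KK n d * M + Real.log c1 + Λ) + 1) ^ 2 / δ ^ 4)
        ≤ 4 * (1000 * (5 * r) ^ 3 * (κ * M) ^ 2 / δ ^ 4) := by gcongr
      _ = 500000 * κ ^ 2 * (r ^ 3 * M ^ 2 / δ ^ 4) := by ring
  · intro z hz a ha w hw
    have h1 := h0' z hz (e ⟨a, ha⟩) w hw
    simpa [hg] using h1
  · intro z hz a b ha hb w hw
    have h1 := hb' z hz (e ⟨b, hb⟩) (e ⟨a, ha⟩) w hw
    simpa [hg] using h1

/-- **The inequality outside of a set of finite measure, with an error term.** -/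
theorem ineq_grow {C : ℝ} (hC : 0 ≤ C) {d q : ℕ} (hq : q ≤ d) {Q : MvPolynomial (Fin (n + 1)) ℂ}
    (hQ : Q.IsHomogeneous q) (hf : Differentiable ℂ f) (h0 : ∀ z, f z ≠ 0) {j : Fin (n + 1)}
    (hj : ∃ y, f y j ≠ 0) (hfQ : ∃ y, eval (f y) Q ≠ 0) (hin : ∀ B : ℝ, 1 ≤ B → ∃ C1 : ℝ, ∀ s ε : ℝ,
      GoodC (FF f Q) (xx (d := d) q j) B s ε → Tm f s ≤ C * (Real.log (1 / ε) + Nb f Q s) + C1) :
    ∃ (X : Set ℝ) (C2 : ℝ), volume X < ⊤ ∧ ∀ r, 1 ≤ r → r ∉ X →
      Tm f r ≤ 2 * ((n + 1) * C) * Nb f Q r + 6 * ((n + 1) * C) * Real.log r + C2 := by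
  obtain ⟨B, c, hB, hc, hgood⟩ := good_gg hq hQ hf h0 hj
  obtain ⟨C1, hC1⟩ := hin B hB
  obtain ⟨cN, hcN, hNle⟩ := Nb_le hQ hf h0 hfQ
  set t : ℝ := tc fun z => f z j with ht
  have hn : (0 : ℝ) ≤ n := Nat.cast_nonneg n
  -- the monotone function
  set cu : ℝ := 1 + (n + 1) * |t| with hcu
  set u : ℝ → ℝ := fun r => Sm f j r + cu with hu
  have hcu1 : 1 ≤ cu := by
    rw [hcu]
    have : 0 ≤ (n + 1) * |t| := by positivity
    linarith
  have hSle : ∀ r, r ≠ 0 → Sm f j r ≤ (n + 1) * Tm f r := fun r hr => Sm_le hf h0 hj hr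
  have hTle : ∀ r, 1 ≤ r → Tm f r ≤ u r := by
    intro r hr
    have h1 := Tm_le_Sm hf h0 hj hr
    have h2 := neg_abs_le t
    have h3 : -(n * t) ≤ n * |t| := by nlinarith
    rw [hu, hcu]
    have := abs_nonneg t
    nlinarith
  have hu1 : ∀ r, 1 ≤ r → 1 ≤ u r := by
    intro r hr
    have h1 : ∀ l, t ≤ T2 (fun z => f z j) (fun z => f z l) r := fun l =>
      (tc_le (coord_diff hf j) hj hr).trans (T2_ge_L0 _ _ r)
    have h2 : (n + 1) * t ≤ Sm f j r := by
      unfold Sm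
      calc (n + 1) * t = ∑ _l : Fin (n + 1), t := by simp
        _ ≤ _ := Finset.sum_le_sum fun l _ => h1 l
    have h3 := neg_abs_le t
    rw [hu, hcu]
    nlinarith
  have hum : ∀ r R, 1 ≤ r → r ≤ R → u r ≤ u R := by
    intro r R hr hrR
    have := Sm_mono hf hj (by linarith : 0 < r) hrR
    rw [hu]
    linarith
  have hX := borel u hu1 hum
  -- absorb the logarithm
  set β : ℝ := (n + 1) * C * 10 with hβ
  have hβ0 : 0 ≤ β := by positivity
  obtain ⟨c3, hc3⟩ : ∃ c3 : ℝ, ∀ x, 1 ≤ x → β * Real.log x ≤ 1 / (2 * (n + 1)) * x + c3 := by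
    set η : ℝ := 1 / (2 * (n + 1) * (β + 1)) with hη
    have hη0 : 0 < η := by positivity
    refine ⟨β * (Real.log (1 / η)), fun x hx => ?_⟩
    have h1 : Real.log x = Real.log (η * x) + Real.log (1 / η) := by
      rw [Real.log_mul hη0.ne' (by linarith), one_div, Real.log_inv]
      ring
    have h2 : Real.log (η * x) ≤ η * x := by
      have := Real.log_le_sub_one_of_pos (show 0 < η * x by positivity)
      linarith
    have h3 : β * (η * x) ≤ 1 / (2 * (n + 1)) * x := by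
      have h4 : β * η ≤ 1 / (2 * (n + 1)) := by
        rw [hη, mul_one_div, div_le_div_iff₀ (by positivity) (by positivity)]
        have : 0 ≤ 2 * ((n : ℝ) + 1) := by positivity
        nlinarith
      have := mul_le_mul_of_nonneg_right h4 (by linarith : (0 : ℝ) ≤ x)
      linarith
    rw [h1]
    nlinarith [mul_le_mul_of_nonneg_left h2 hβ0]
  refine ⟨_, 2 * ((n + 1) * C * ((n + 2 + q) * (2 + cN) + Real.log (c * 16384)) + (n + 1) * |C1| + cu +
    c3 + cu / (2 * (n + 1))), hX, ?_⟩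
  intro r hr hrX
  have hub : u (r + 1 / u r) ≤ 2 * u r := by
    by_contra h
    push Not at h
    exact hrX ⟨hr, h⟩
  set U : ℝ := u r with hU
  have hU1 : 1 ≤ U := hu1 r hr
  have hU0 : 0 < U := by linarith
  set δ : ℝ := 1 / (8 * U ^ 2) with hδ
  have hδ0 : 0 < δ := by positivity
  have hδU : δ * (8 * U ^ 2) = 1 := by rw [hδ]; field_simp
  have hδ8 : 8 * U * δ ≤ 1 / U := by
    rw [le_div_iff₀ hU0]
    nlinarith
  have hδ1 : δ ≤ 1 / 8 := by
    have hU2 : 1 ≤ U ^ 2 := one_le_pow₀ hU1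
    rw [hδ]
    exact one_div_le_one_div_of_le (by norm_num) (by linarith)
  set R : ℝ := r + 1 / U with hR
  have hUi : 1 / U ≤ 1 := by rw [div_le_one hU0]; exact hU1
  have hUi0 : 0 < 1 / U := by positivity
  have h8δ : 8 * δ ≤ 1 / U := by nlinarith
  have hrR : r + 4 * δ ≤ R := by rw [hR]; linarith
  have hr4 : 1 ≤ r + 4 * δ := by linarith
  have hTR : Tm f (r + 4 * δ) ≤ 2 * U := by
    have h1 := hTle _ hr4
    have h2 := hum _ _ hr4 hrR
    linarith
  obtain ⟨s, ε, hrs, hsδ, hεX, hG⟩ := hgood r δ (2 * U) hr hδ0 (by linarith) hTR (by linarith)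
  have h1 := hC1 s ε hG
  -- the error
  have hlogε : Real.log (1 / ε) ≤ Real.log (c * 16384) + 3 * Real.log r + 10 * Real.log U := by
    have hε0 := hG.e0
    have h2 : c * (r ^ 3 * (2 * U) ^ 2 / δ ^ 4) = c * 16384 * (r ^ 3 * U ^ 10) := by
      rw [hδ]
      field_simp
      ring
    rw [h2] at hεX
    have h3 := Real.log_le_log (by positivity) hεX
    have hr0 : 0 < r := by linarith
    rw [Real.log_mul (show c * 16384 ≠ 0 by positivity) (show r ^ 3 * U ^ 10 ≠ 0 by positivity),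
      Real.log_mul (show r ^ 3 ≠ 0 by positivity) (show U ^ 10 ≠ 0 by positivity),
      Real.log_pow, Real.log_pow] at h3
    push_cast at h3
    linarith
  -- the counting function
  have hsR : s < R := by
    rw [hR]
    linarith
  have hs1 : 1 ≤ s := hr.trans hrs
  have hR1 : 1 ≤ R := by linarith
  have hNb : Nb f Q s ≤ Nb f Q r + (n + 2 + q) * (2 + cN) := by
    have h2 := Nb_comp hf hfQ hr hrs hsR
    have h3 := (hNle R hR1).2
    have h4 := hTle R hR1
    have hNR : Nb f Q R ≤ (n + 2 + q) * (2 * U + cN) := by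
      refine h3.trans (mul_le_mul_of_nonneg_left ?_ (by positivity))
      linarith
    have hr0 : 0 < r := by linarith
    have hs0 : 0 < s := by linarith
    have hR0 : 0 < R := by linarith
    have h5 : Real.log (s / r) ≤ δ / r := by
      have h6 := Real.log_le_sub_one_of_pos (show 0 < s / r by positivity)
      have h7 : s / r - 1 = (s - r) / r := by field_simp
      rw [h7] at h6
      exact h6.trans (div_le_div_of_nonneg_right (by linarith) hr0.le)
    have h6 : 7 / 2 * (δ / r) * U ≤ Real.log (R / s) := by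
      have h7 := Real.one_sub_inv_le_log_of_pos (show 0 < R / s by positivity)
      rw [inv_div] at h7
      have h8 : 1 - s / R = (R - s) / R := by field_simp
      have h9 : 7 * δ * U ≤ R - s := by
        have h10 : 8 * U * δ = 1 / U := by
          rw [hδ]
          field_simp
        have h11 : δ ≤ U * δ := le_mul_of_one_le_left hδ0.le hU1
        rw [hR]
        linarith
      have h10 : R ≤ 2 * r := by rw [hR]; linarith
      have h11 : 7 / 2 * (δ / r) * U = (7 * δ * U) / (2 * r) := by field_simp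
      rw [h8] at h7
      refine le_trans ?_ h7
      rw [h11]
      exact div_le_div₀ (by linarith [mul_pos hδ0 hU0]) h9 hR0 h10
    have hlogpos : 0 < Real.log (R / s) := lt_of_lt_of_le (by positivity) h6
    have h7 : Real.log (s / r) / Real.log (R / s) ≤ 1 / U := by
      rw [div_le_iff₀ hlogpos]
      have h8 : 1 / U * (7 / 2 * (δ / r) * U) = 7 / 2 * (δ / r) := by field_simp
      have h9 := mul_le_mul_of_nonneg_left h6 hUi0.le
      rw [h8] at h9
      have h10 : 0 < δ / r := by positivity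
      linarith
    have h8 : Real.log (s / r) / Real.log (R / s) * Nb f Q R ≤ 1 / U * ((n + 2 + q) * (2 * U + cN)) :=
      mul_le_mul h7 hNR (Nb_nonneg hf hfQ hR1) hUi0.le
    have h9 : 1 / U * ((n + 2 + q) * (2 * U + cN)) ≤ (n + 2 + q) * (2 + cN) := by
      have h10 : 1 / U * ((n + 2 + q) * (2 * U + cN)) = (n + 2 + q) * (2 + cN * (1 / U)) := by
        field_simp
      rw [h10]
      apply mul_le_mul_of_nonneg_left _ (by positivity)
      have := mul_le_mul_of_nonneg_left hUi hcN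
      linarith
    linarith
  -- conclusion
  have h2 : Tm f r ≤ (n + 1) * Tm f s + cu := by
    have h3 := hTle r hr
    have h4 := hum r s hr hrs
    have h5 := hSle s (by linarith)
    have h6 : u s = Sm f j s + cu := rfl
    linarith
  have h3 := hc3 U hU1
  have h4 : U ≤ (n + 1) * Tm f r + cu := by
    have h5 := hSle r (by linarith)
    have h6 : U = Sm f j r + cu := rfl
    linarith
  have hlogr : 0 ≤ Real.log r := Real.log_nonneg hr
  have hA : (n + 1) * Tm f s ≤ (n + 1) * C * (Real.log (c * 16384) + 3 * Real.log r +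
      10 * Real.log U + Nb f Q r + (n + 2 + q) * (2 + cN)) + (n + 1) * |C1| := by
    have h5 : C * (Real.log (1 / ε) + Nb f Q s) ≤ C * (Real.log (c * 16384) + 3 * Real.log r +
      10 * Real.log U + Nb f Q r + (n + 2 + q) * (2 + cN)) := by
      apply mul_le_mul_of_nonneg_left _ hC
      linarith
    have h6 := le_abs_self C1
    have h7 : Tm f s ≤ C * (Real.log (c * 16384) + 3 * Real.log r +
      10 * Real.log U + Nb f Q r + (n + 2 + q) * (2 + cN)) + |C1| := by linarith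
    have h8 := mul_le_mul_of_nonneg_left h7 (show 0 ≤ (n : ℝ) + 1 by positivity)
    linarith
  have hB' : 1 / (2 * (n + 1)) * U ≤ 1 / 2 * Tm f r + cu / (2 * (n + 1)) := by
    have h5 := mul_le_mul_of_nonneg_left h4 (show 0 ≤ 1 / (2 * ((n : ℝ) + 1)) by positivity)
    refine h5.trans (le_of_eq ?_)
    field_simp
  have hβ' : β * Real.log U = (n + 1) * C * (10 * Real.log U) := by rw [hβ]; ring
  have hfin : Tm f r ≤ (n + 1) * C * (Real.log (c * 16384) + 3 * Real.log r + Nb f Q r +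
      (n + 2 + q) * (2 + cN)) + (n + 1) * |C1| + cu + (1 / 2 * Tm f r + cu / (2 * (n + 1)) + c3) := by
    have h5 : (n + 1) * C * (Real.log (c * 16384) + 3 * Real.log r +
      10 * Real.log U + Nb f Q r + (n + 2 + q) * (2 + cN)) =
      (n + 1) * C * (Real.log (c * 16384) + 3 * Real.log r + Nb f Q r +
      (n + 2 + q) * (2 + cN)) + β * Real.log U := by rw [hβ]; ring
    linarith
  have h5 : (n + 1) * C * (Real.log (c * 16384) + 3 * Real.log r + Nb f Q r +
      (n + 2 + q) * (2 + cN)) = (n + 1) * C * Nb f Q r + 3 * ((n + 1) * C) * Real.log r +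
      (n + 1) * C * ((n + 2 + q) * (2 + cN) + Real.log (c * 16384)) := by ring
  rw [h5] at hfin
  linarith

end Pool.Agent.Q72.TR
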