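import Pool.Agent.Q72.TR.Special
import Pool.Agent.Q72.SH.RigAlg
import Pool.Agent.Q72.SH.RigP

/-!
Applications of the truncated inequality.
-/

set_option autoImplicit false

namespace Pool.Agent.Q72.TR

open Filter Metric Real Set Topology Pool.Agent.H159R3.NV Pool.Agent.W602.NC MeromorphicOn
open MvPolynomial MeasureTheory
open Pool.Agent.TH143.GT Pool.Agent.W602.GT Pool.Agent.TH143
open Pool.Agent.Q72.SH (coord_diff eval_diff Weighted WtOn LeD leD_of_homog allFlat_of InD GmMor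
  GmNC NoTor PolyCurve GmCurve eval_scale)
open Pool.Agent.Q72.GH (pm pull eval_pull pull_hom lin_sum)
open Pool.Agent.W603.BPR (EntireCurve)
open Pool.Agent.W603.GR (SubVarP OffQ)

variable {n d : ℕ} {E : Set (MvPolynomial (Fin (n + 1)) ℂ)} {Q : MvPolynomial (Fin (n + 1)) ℂ}
  {f : ℂ → Fin (n + 1) → ℂ}

theorem exists_mult (n d : ℕ) {ε : ℝ} (hε : 0 < ε) : ∃ m : ℕ, (n : ℝ) + 2 + d < ε * m := by
  obtain ⟨m, hm⟩ := exists_nat_gt (((n : ℝ) + 2 + d) / ε)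
  refine ⟨m, ?_⟩
  rw [div_lt_iff₀ hε] at hm
  linarith

/-- **Varieties on which rational functions are constant along families of rational curves.** -/
theorem flat_main (n d : ℕ) : ∃ (ε : ℝ) (m : ℕ), 0 < ε ∧
    ∀ (p : Ideal (MvPolynomial (Fin (n + 1)) ℂ)) (E : Set (MvPolynomial (Fin (n + 1)) ℂ)),
    p = Ideal.span E → (∀ F ∈ E, ∃ e ≤ d, F.IsHomogeneous e) →
    ∀ (Q : MvPolynomial (Fin (n + 1)) ℂ) (q : ℕ), q ≤ d → Q.IsHomogeneous q →
    ∀ (K : Type) [Field K] [Algebra ℂ K] (w : ℕ) (y : Fin (n + 1) → K), FunField p Q K w y →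
    (∀ r : K, AllFlat Q y r) →
    ∃ G : MvPolynomial (Fin (n + 1)) ℂ, IsForm G ∧ G ∉ p ∧ ∀ ℓ S, Inv ℓ S → ∀ f, Cur E Q f →
      (∃ z, eval (f z) G ≠ 0) → Trunc ε ℓ Q f ∧ ¬ MultGe m ℓ Q f := by
  obtain ⟨ε, hε, h⟩ := trunc_or n d
  obtain ⟨m, hm⟩ := exists_mult n d hε
  refine ⟨ε, m, hε, ?_⟩
  intro p E hp hE Q q hq hQ K _ _ w y hy hno
  obtain ⟨G, hG1, hG2, hG3⟩ := exc_lin hq hQ hp hE hy hno
  refine ⟨G, hG1, hG2, ?_⟩
  rintro ℓ S ⟨hS, hS'⟩ f hf ⟨z, hz⟩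
  rcases h E hE Q q hq hQ ℓ S hS f hf with h1 | h1
  · exact absurd (hG3 ℓ S hS hS' f hf h1 z) hz
  · exact ⟨h1, no_mult hq hQ hS hS' hf hε h1 hm⟩

/-- All monomial curves of degree at most `B` lie in the closed subset given by `J`. -/
def MonIn (B : ℕ) (E : Set (MvPolynomial (Fin (n + 1)) ℂ)) (Q : MvPolynomial (Fin (n + 1)) ℂ)
    (J : Set (MvPolynomial (Fin (n + 1)) ℂ)) : Prop :=
  ∀ S x k, Mono B E Q S x k → ∀ t : ℂ, t ≠ 0 → InD J (S fun j => x j * t ^ k j)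

/-- **Equivalences.** -/
theorem tfae_main (n d : ℕ) : ∃ (ε : ℝ) (B m : ℕ), 0 < ε ∧
    ∀ (E : Set (MvPolynomial (Fin (n + 1)) ℂ)), (∀ F ∈ E, ∃ e ≤ d, F.IsHomogeneous e) →
    ∀ (Q : MvPolynomial (Fin (n + 1)) ℂ) (q : ℕ), q ≤ d → Q.IsHomogeneous q →
    ∀ J : Set (MvPolynomial (Fin (n + 1)) ℂ),
    List.TFAE [MonIn B E Q J,
      ∀ ℓ S, Inv ℓ S → ∀ f, Cur E Q f → (∃ z, ¬ InD J (f z)) → Trunc ε ℓ Q f,
      ∀ ℓ S, Inv ℓ S → ∀ f, Cur E Q f → (∃ z, ¬ InD J (f z)) → ¬ MultGe m ℓ Q f] := by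
  obtain ⟨ε, hε, h⟩ := trunc_or n d
  obtain ⟨B, hB⟩ := exists_bdw n d
  obtain ⟨m, hm⟩ := exists_mult n d hε
  refine ⟨ε, 2 * B, m, hε, ?_⟩
  intro E hE Q q hq hQ J
  tfae_have 1 → 2 := by
    rintro h1 ℓ S hℓ f hf ⟨z, hz⟩
    by_contra hT
    rcases h E hE Q q hq hQ ℓ S hℓ.1 f hf with hw | hw
    · obtain ⟨nn, hnn1, i, j, hi, hj, hnij, hmm⟩ := orb_data hq hQ hE hB hℓ.1 hw
      apply hz
      intro G hG
      refine zero_gen hℓ.1 hf hi hj (fun z hzi hzj hzQ => ?_) z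
      obtain ⟨h3, h2⟩ := hmm z
      obtain ⟨m, hm⟩ := h2 hzQ
      have hM : Mono (2 * B) E Q S (ℓ (f z)) nn := by
        refine ⟨⟨ℓ, hℓ⟩, hnn1, ⟨i, j, hzi, hzj, hnij⟩, fun t ht F hF => ?_,
          fun t ht => ?_⟩
        · rw [← mon_eval, ← eval_aeval_poly, h3 F hF, Polynomial.eval_zero]
        · rw [← mon_eval, ← eval_aeval_poly, hm]
          simp [hzQ, ht]
      have h4 := h1 S (ℓ (f z)) nn hM 1 one_ne_zero G hG
      simp only [one_pow, mul_one] at h4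
      rw [show (fun j => ℓ (f z) j) = ℓ (f z) from rfl, hℓ.1] at h4
      exact h4
    · exact hT hw
  tfae_have 2 → 3 := by
    intro h2 ℓ S hℓ f hf hz
    exact no_mult hq hQ hℓ.1 hℓ.2 hf hε (h2 ℓ S hℓ f hf hz) hm
  tfae_have 3 → 1 := by
    intro h3 S x k hM t ht
    by_contra hcon
    obtain ⟨ℓ, hℓ⟩ := hM.inv
    obtain ⟨h4, h5⟩ := hM.curve hℓ
    refine h3 ℓ S hℓ _ h4 ⟨Complex.log t, by simpa only [Complex.exp_log ht] using hcon⟩ ?_
    rw [Set.eq_empty_iff_forall_notMem] at h5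
    exact ⟨fun i x hy hx => absurd (Or.inl ⟨i, hy, hx⟩) (h5 x), fun x hx => absurd (Or.inr hx) (h5 x)⟩
  tfae_finish

/-- monomial curves as entire curves -/
theorem Mono.entire {B : ℕ} {S : (Fin (n + 1) → ℂ) →ₗ[ℂ] (Fin (n + 1) → ℂ)} {x : Fin (n + 1) → ℂ}
    {k : Fin (n + 1) → ℕ} (h : Mono B E Q S x k) :
    EntireCurve (Ideal.span E) Q (fun z => S fun j => x j * Complex.exp z ^ k j) ∧
      GmCurve (fun z => S fun j => x j * Complex.exp z ^ k j) := by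
  obtain ⟨ℓ, hℓ⟩ := h.inv
  obtain ⟨h1, -⟩ := h.curve hℓ
  refine ⟨h1.to fun z => h.off _ (Complex.exp_ne_zero z), mon S x k, fun z l => ?_⟩
  have h2 := congrFun (mon_eval S x k (Complex.exp z)) l
  exact h2.symm

/-- monomial curves and rational curves -/
theorem noMono_of_rat (hE : ∀ F ∈ E, IsForm F)
    (h : ∀ f, EntireCurve (Ideal.span E) 1 f → ¬ PolyCurve f) (B : ℕ) : MonIn B E 1 {1} := by
  intro S x k hM
  obtain ⟨h1, h2⟩ := hM.entire
  obtain ⟨g, hg1, hg2⟩ := Pool.Agent.Q72.SH.poly_of_gm hE h1 h2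
  exact absurd hg2 (h g hg1)

/-- The closure of the image of the multiplicative group is a rational curve. -/
theorem poly_of_gm' (hE : ∀ F ∈ E, IsForm F) (hf : EntireCurve (Ideal.span E) 1 f)
    (hG : GmCurve f) : ∃ h, EntireCurve (Ideal.span E) 1 h ∧ PolyCurve h ∧
      ∀ z, ∃ c : ℂ, f z = c • h (Complex.exp z) := by
  obtain ⟨P, hP⟩ := hG
  have hfP : ∀ z, f z = fun l => (P l).eval (Complex.exp z) := fun z => funext fun l => hP z l
  obtain ⟨m, P', hP', l1, hl1⟩ := Pool.Agent.Q72.SH.exists_red P (by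
    by_contra hcon
    push Not at hcon
    apply (hf.2.1 0).1
    funext l
    rw [hP, hcon, Polynomial.eval_zero, Pi.zero_apply])
  have hPP : ∀ z : ℂ, (fun l => (P l).eval z) = fun l => z ^ m * (P' l).eval z := by
    intro z
    funext l
    rw [hP', Polynomial.eval_mul, Polynomial.eval_pow, Polynomial.eval_X]
  have hlog : ∀ z : ℂ, z ≠ 0 → f (Complex.log z) = fun l => z ^ m * (P' l).eval z := by
    intro z hz
    rw [hfP, Complex.exp_log hz]
    exact hPP z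
  refine ⟨fun z l => (P' l).eval z, ⟨?_, fun z => ⟨?_, fun F hF => ?_, ?_⟩, ?_⟩,
    ⟨P', fun z l => rfl⟩, fun z => ⟨Complex.exp z ^ m, ?_⟩⟩
  · exact differentiable_pi.2 fun l => (P' l).differentiable
  · by_cases hz : z = 0
    · subst hz
      intro h0
      exact hl1 (congrFun h0 l1)
    · intro h0
      apply (hf.2.1 (Complex.log z)).1
      rw [hlog z hz]
      funext l
      have h1 := congrFun h0 l
      simp only [Pi.zero_apply] at h1 ⊢
      rw [h1, mul_zero]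
  · have h5 : Ideal.span E ≤ RingHom.ker (eval fun l => (P' l).eval z) := by
      rw [Ideal.span_le]
      intro G hG
      change eval (fun l => (P' l).eval z) G = 0
      refine Pool.Agent.Q72.SH.poly_zero_at (fun u hu => ?_) z
      obtain ⟨e, he⟩ := hE G hG
      have h1 := (hf.2.1 (Complex.log u)).2.1 G (Ideal.subset_span hG)
      rw [hlog u hu, eval_scale he] at h1
      exact (mul_eq_zero.1 h1).resolve_left (pow_ne_zero _ (pow_ne_zero _ hu))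
    exact h5 hF
  · rw [map_one]
    exact one_ne_zero
  · obtain ⟨z, w, hzw⟩ := hf.2.2
    refine ⟨Complex.exp z, Complex.exp w, fun c hc => hzw ((Complex.exp z) ^ m * c *
      ((Complex.exp w) ^ m)⁻¹) ?_⟩
    rw [hfP, hfP, hPP, hPP]
    funext l
    have h1 := congrFun hc l
    simp only [Pi.smul_apply, smul_eq_mul] at h1 ⊢
    rw [h1]
    have h2 : (Complex.exp w) ^ m ≠ 0 := pow_ne_zero _ (Complex.exp_ne_zero w)
    field_simp
  · rw [hfP, hPP]
    rfl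

/-- monomial curves and rational curves -/
theorem monIn_of_rat (hE : ∀ F ∈ E, IsForm F) {J : Set (MvPolynomial (Fin (n + 1)) ℂ)}
    (hJ : ∀ H ∈ J, IsForm H)
    (h : ∀ f, EntireCurve (Ideal.span E) 1 f → PolyCurve f → ∀ z, InD J (f z)) (B : ℕ) :
    MonIn B E 1 J := by
  intro S x k hM t ht
  obtain ⟨h1, h2⟩ := hM.entire
  obtain ⟨g, hg1, hg2, hg3⟩ := poly_of_gm' hE h1 h2
  obtain ⟨c, hc⟩ := hg3 (Complex.log t)
  simp only [Complex.exp_log ht] at hc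
  intro H hH
  obtain ⟨e, he⟩ := hJ H hH
  rw [hc]
  have h3 : (c • g t) = fun j => c * g t j := rfl
  rw [h3, eval_scale he, h g hg1 hg2 t H hH, mul_zero]

theorem not_inD_one (x : Fin (n + 1) → ℂ) :
    ¬ InD ({1} : Set (MvPolynomial (Fin (n + 1)) ℂ)) x := by
  intro h
  have h1 := h 1 rfl
  rw [map_one] at h1
  exact one_ne_zero h1

theorem Cur.ofEC (hf : EntireCurve (Ideal.span E) Q f) : Cur E Q f := Cur.of hf

end Pool.Agent.Q72.TR
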