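import Pool.Agent.Q72.TR.Pair
import Pool.Agent.Q72.SH.Set

/-!
The characteristic function of an entire curve.
-/

set_option autoImplicit false

namespace Pool.Agent.Q72.TR

open Filter Metric Real Set Topology Pool.Agent.H159R3.NV Pool.Agent.W602.NC MeromorphicOn
open MvPolynomial
open Pool.Agent.Q72.SH (coord_diff eval_diff)

variable {n : ℕ}

/-- mean of the logarithm of the norm -/
noncomputable def Tm (f : ℂ → Fin (n + 1) → ℂ) (r : ℝ) : ℝ :=
  Real.circleAverage (fun z => Real.log ‖f z‖) 0 r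

theorem Tm_int {f : ℂ → Fin (n + 1) → ℂ} (hf : Differentiable ℂ f) (h0 : ∀ z, f z ≠ 0) (r : ℝ) :
    CircleIntegrable (fun z => Real.log ‖f z‖) 0 r := by
  apply ContinuousOn.circleIntegrable'
  apply ContinuousOn.log hf.continuous.norm.continuousOn
  intro z _
  exact norm_ne_zero_iff.2 (h0 z)

/-- the points where a coordinate vanishes which does not vanish identically, or `Q` vanishes -/
def zs (f : ℂ → Fin (n + 1) → ℂ) (Q : MvPolynomial (Fin (n + 1)) ℂ) : Set ℂ :=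
  {x | (∃ l, (∃ y, f y l ≠ 0) ∧ f x l = 0) ∨ eval (f x) Q = 0}

theorem zs_fin {f : ℂ → Fin (n + 1) → ℂ} (hf : Differentiable ℂ f)
    {Q : MvPolynomial (Fin (n + 1)) ℂ} (hQ : ∃ y, eval (f y) Q ≠ 0) (s : ℝ) :
    ({x : ℂ | ‖x‖ ≤ s ∧ x ∈ zs f Q}).Finite := by
  classical
  have h1 : ∀ l, ({x : ℂ | ‖x‖ ≤ s ∧ (∃ y, f y l ≠ 0) ∧ f x l = 0}).Finite := by
    intro l
    by_cases h : ∃ y, f y l ≠ 0
    · exact (fin_zeros (coord_diff hf l) h s).subset fun x hx => ⟨hx.1, hx.2.2⟩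
    · convert Set.finite_empty
      rw [Set.eq_empty_iff_forall_notMem]
      exact fun x hx => h hx.2.1
  refine ((Set.finite_iUnion h1).union (fin_zeros (eval_diff hf Q) hQ s)).subset fun x hx => ?_
  rcases hx.2 with ⟨l, hl⟩ | h
  · exact Or.inl (Set.mem_iUnion.2 ⟨l, hx.1, hl⟩)
  · exact Or.inr ⟨hx.1, h⟩

/-- the points in a disc -/
noncomputable def zz {f : ℂ → Fin (n + 1) → ℂ} (hf : Differentiable ℂ f)
    {Q : MvPolynomial (Fin (n + 1)) ℂ} (hQ : ∃ y, eval (f y) Q ≠ 0) (s : ℝ) : Finset ℂ :=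
  (zs_fin hf hQ s).toFinset

theorem mem_zz {f : ℂ → Fin (n + 1) → ℂ} (hf : Differentiable ℂ f)
    {Q : MvPolynomial (Fin (n + 1)) ℂ} (hQ : ∃ y, eval (f y) Q ≠ 0) {s : ℝ} {x : ℂ} :
    x ∈ zz hf hQ s ↔ ‖x‖ ≤ s ∧ x ∈ zs f Q := by
  unfold zz
  rw [Set.Finite.mem_toFinset]
  rfl

/-- the counting function of the points, without multiplicities -/
noncomputable def Nb (f : ℂ → Fin (n + 1) → ℂ) (Q : MvPolynomial (Fin (n + 1)) ℂ) (s : ℝ) : ℝ :=
  ∑ᶠ (x : ℂ) (_ : x ∈ zs f Q), wgt s x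

theorem Nb_eq {f : ℂ → Fin (n + 1) → ℂ} (hf : Differentiable ℂ f)
    {Q : MvPolynomial (Fin (n + 1)) ℂ} (hQ : ∃ y, eval (f y) Q ≠ 0) {s : ℝ} (hs : 0 ≤ s) :
    Nb f Q s = ∑ x ∈ zz hf hQ s, wgt s x := by
  unfold Nb
  rw [finsum_mem_eq_sum_of_inter_support_eq]
  ext x
  simp only [Set.mem_inter_iff, Function.mem_support, Finset.mem_coe, mem_zz]
  constructor
  · rintro ⟨h1, h2⟩
    refine ⟨⟨?_, h1⟩, h2⟩
    by_contra h3
    apply h2
    unfold wgt
    rw [if_neg, if_neg h3]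
    rintro rfl
    rw [norm_zero] at h3
    exact h3 hs
  · rintro ⟨⟨_, h1⟩, h2⟩
    exact ⟨h1, h2⟩

theorem norm_le_coord {f : ℂ → Fin (n + 1) → ℂ} (z : ℂ) (l : Fin (n + 1)) : ‖f z l‖ ≤ ‖f z‖ :=
  norm_le_pi_norm (f z) l

theorem exists_coord (x : Fin (n + 1) → ℂ) : ∃ l, ‖x‖ = ‖x l‖ := by
  obtain ⟨l, -, hl⟩ := Finset.exists_mem_eq_sup' Finset.univ_nonempty (fun l => ‖x l‖)
  refine ⟨l, le_antisymm ?_ (norm_le_pi_norm x l)⟩
  rw [← hl]
  refine (pi_norm_le_iff_of_nonneg ?_).2 fun m => Finset.le_sup' (fun l => ‖x l‖)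
    (Finset.mem_univ m)
  rw [hl]
  exact norm_nonneg _

/-- the functions: the coordinates and `Q` -/
noncomputable def FF (f : ℂ → Fin (n + 1) → ℂ) (Q : MvPolynomial (Fin (n + 1)) ℂ) :
    Option (Fin (n + 1)) → ℂ → ℂ
  | some l => fun z => f z l
  | none => fun z => eval (f z) Q

theorem FF_diff {f : ℂ → Fin (n + 1) → ℂ} (hf : Differentiable ℂ f)
    (Q : MvPolynomial (Fin (n + 1)) ℂ) (p : Option (Fin (n + 1))) : Differentiable ℂ (FF f Q p) := by
  cases p with
  | none => exact eval_diff hf Q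
  | some l => exact coord_diff hf l

/-- the exponents of `x_i / x_j` -/
def dd (i j : Fin (n + 1)) (p : Option (Fin (n + 1))) : ℤ :=
  (if p = some i then 1 else 0) - (if p = some j then 1 else 0)

theorem dd_sum (i j : Fin (n + 1)) (u : Option (Fin (n + 1)) → ℝ) :
    ∑ p, (dd i j p : ℝ) * u p = u (some i) - u (some j) := by
  unfold dd
  have h1 : ∀ p, (((if p = some i then 1 else 0) - (if p = some j then 1 else 0) : ℤ) : ℝ) * u p =
      (if p = some i then u p else 0) - (if p = some j then u p else 0) := by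
    intro p
    push_cast
    split_ifs <;> ring
  simp only [h1]
  rw [Finset.sum_sub_distrib, Finset.sum_ite_eq' Finset.univ (some i) u,
    Finset.sum_ite_eq' Finset.univ (some j) u]
  simp

/-- **The characteristic is bounded by the sizes of the ratios of the coordinates.** -/
theorem Tm_le {f : ℂ → Fin (n + 1) → ℂ} (hf : Differentiable ℂ f) (h0 : ∀ z, f z ≠ 0)
    {Q : MvPolynomial (Fin (n + 1)) ℂ} (hQ : ∃ y, eval (f y) Q ≠ 0) {j : Fin (n + 1)}
    (hj : ∃ y, f y j ≠ 0) {s : ℝ} (hs : 1 ≤ s) (hne : ∀ z, ‖z‖ = s → ∀ l, (∃ y, f y l ≠ 0) → f z l ≠ 0) {M : ℝ} (hM0 : 0 ≤ M)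
    (hM : ∀ l, (∃ y, f y l ≠ 0) → Th (FF f Q) s (zz hf hQ s) (fun p => (dd l j p : ℝ)) ≤ M) :
    Tm f s ≤ (n + 1) * M + tc (fun z => f z j) := by
  classical
  have hs0 : 0 < s := by linarith
  have hTh : ∀ l, Th (FF f Q) s (zz hf hQ s) (fun p => (dd l j p : ℝ)) =
      Real.circleAverage (fun z => |Real.log ‖f z l‖ - Real.log ‖f z j‖|) 0 s +
      ∑ x ∈ zz hf hQ s, |(oo (fun z => f z l) x : ℝ) - oo (fun z => f z j) x| * wgt s x := by
    intro l
    unfold Th
    congr 1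
    · congr 1
      funext z
      rw [dd_sum l j fun p => Real.log ‖FF f Q p z‖]
      rfl
    · refine Finset.sum_congr rfl fun x _ => ?_
      rw [dd_sum l j fun p => (oo (FF f Q p) x : ℝ)]
      rfl
  set T : Finset (Fin (n + 1)) := Finset.univ.filter fun l => ∃ y, f y l ≠ 0 with hT
  have hcard : (T.card : ℝ) ≤ n + 1 := by
    have h1 : T.card ≤ n + 1 := by
      have := Finset.card_le_univ T
      rwa [Fintype.card_fin] at this
    exact_mod_cast h1
  have hint : ∀ l, CircleIntegrable (fun z => |Real.log ‖f z l‖ - Real.log ‖f z j‖|) 0 s :=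
    fun l => ci_abs ((ci_log (mero_of_diff (coord_diff hf l)) s).sub
      (ci_log (mero_of_diff (coord_diff hf j)) s))
  have hintj : CircleIntegrable (fun z => Real.log ‖f z j‖) 0 s :=
    ci_log (mero_of_diff (coord_diff hf j)) s
  have hints : CircleIntegrable
      (fun z => ∑ l ∈ T, |Real.log ‖f z l‖ - Real.log ‖f z j‖|) 0 s :=
    CircleIntegrable.fun_sum _ fun l _ => hint l
  -- the mean
  have h1 : Tm f s ≤ L (fun z => f z j) s +
      ∑ l ∈ T, Real.circleAverage (fun z => |Real.log ‖f z l‖ - Real.log ‖f z j‖|) 0 s := by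
    have e1 : L (fun z => f z j) s +
        ∑ l ∈ T, Real.circleAverage (fun z => |Real.log ‖f z l‖ - Real.log ‖f z j‖|) 0 s =
        Real.circleAverage (fun z => Real.log ‖f z j‖ +
          ∑ l ∈ T, |Real.log ‖f z l‖ - Real.log ‖f z j‖|) 0 s := by
      rw [Real.circleAverage_fun_add hintj hints, Real.circleAverage_fun_sum fun l _ => hint l]
      rfl
    rw [e1]
    apply Real.circleAverage_mono (Tm_int hf h0 s) (hintj.add hints)
    intro z hz
    have hz' := sph_norm hs0 hz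
    obtain ⟨l, hl⟩ := exists_coord (f z)
    have hlT : l ∈ T := by
      rw [hT, Finset.mem_filter]
      refine ⟨Finset.mem_univ _, z, fun h => h0 z ?_⟩
      rw [h, norm_zero] at hl
      exact norm_eq_zero.1 hl
    change Real.log ‖f z‖ ≤ Real.log ‖f z j‖ +
          ∑ l ∈ T, |Real.log ‖f z l‖ - Real.log ‖f z j‖|
    rw [hl]
    have h2 : |Real.log ‖f z l‖ - Real.log ‖f z j‖| ≤
        ∑ l ∈ T, |Real.log ‖f z l‖ - Real.log ‖f z j‖| :=
      Finset.single_le_sum (f := fun l => |Real.log ‖f z l‖ - Real.log ‖f z j‖|)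
        (fun l _ => abs_nonneg _) hlT
    have h3 := le_abs_self (Real.log ‖f z l‖ - Real.log ‖f z j‖)
    linarith
  -- the zeros
  have h2 : L (fun z => f z j) s = ∑ x ∈ zz hf hQ s, (oo (fun z => f z j) x : ℝ) * wgt s x +
      tc (fun z => f z j) := by
    apply jen (coord_diff hf j) hj hs0
    · intro x hx hx0
      exact (mem_zz hf hQ).2 ⟨hx, Or.inl ⟨j, hj, hx0⟩⟩
    · intro x hx
      exact ((mem_zz hf hQ).1 hx).1
  have h3 : ∑ x ∈ zz hf hQ s, (oo (fun z => f z j) x : ℝ) * wgt s x ≤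
      ∑ l ∈ T, ∑ x ∈ zz hf hQ s, |(oo (fun z => f z l) x : ℝ) - oo (fun z => f z j) x| * wgt s x := by
    rw [Finset.sum_comm]
    refine Finset.sum_le_sum fun x _ => ?_
    rw [← Finset.sum_mul]
    refine mul_le_mul_of_nonneg_right ?_ (wgt_nonneg hs x)
    obtain ⟨l, hl⟩ : ∃ l, f x l ≠ 0 := Function.ne_iff.1 (h0 x)
    have hlT : l ∈ T := by
      rw [hT, Finset.mem_filter]
      exact ⟨Finset.mem_univ _, x, hl⟩
    have h4 : |(oo (fun z => f z l) x : ℝ) - oo (fun z => f z j) x| ≤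
        ∑ l ∈ T, |(oo (fun z => f z l) x : ℝ) - oo (fun z => f z j) x| :=
      Finset.single_le_sum (f := fun l => |(oo (fun z => f z l) x : ℝ) - oo (fun z => f z j) x|)
        (fun l _ => abs_nonneg _) hlT
    have h5 : oo (fun z => f z l) x = 0 := oo_zero (coord_diff hf l) hl
    rw [h5, Nat.cast_zero, zero_sub, abs_neg, Nat.abs_cast] at h4
    rw [h5] at *
    exact h4
  have h6 : ∑ l ∈ T, (Real.circleAverage (fun z => |Real.log ‖f z l‖ - Real.log ‖f z j‖|) 0 s +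
      ∑ x ∈ zz hf hQ s, |(oo (fun z => f z l) x : ℝ) - oo (fun z => f z j) x| * wgt s x) ≤
      (n + 1) * M := by
    calc _ ≤ ∑ _l ∈ T, M := Finset.sum_le_sum fun l hl => by
          rw [← hTh l]
          exact hM l (Finset.mem_filter.1 hl).2
      _ = T.card * M := by rw [Finset.sum_const, nsmul_eq_mul]
      _ ≤ _ := mul_le_mul_of_nonneg_right hcard hM0
  rw [Finset.sum_add_distrib] at h6
  linarith

/-- the characteristic of a pair of monomials -/
theorem T2_le' {f : ℂ → Fin (n + 1) → ℂ} (hf : Differentiable ℂ f) (h0 : ∀ z, f z ≠ 0)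
    {g h : ℂ → ℂ} (hg : Differentiable ℂ g) (hh : Differentiable ℂ h) (hg0 : ∃ y, g y ≠ 0)
    {c : ℝ} (hc : 0 < c) {K : ℕ} (h1 : ∀ z, ‖g z‖ ≤ c * ‖f z‖ ^ K) (h2 : ∀ z, ‖h z‖ ≤ c * ‖f z‖ ^ K)
    {r : ℝ} (hr : r ≠ 0) : T2 g h r ≤ K * Tm f r + Real.log c := by
  have i1 : CircleIntegrable (fun z => Real.log ‖g z‖) 0 r := ci_log (mero_of_diff hg) r
  have i2 : CircleIntegrable (fun z => Real.posLog ‖h z / g z‖) 0 r :=
    ci_posLog (quot_mero hg hh) r
  have i3 : CircleIntegrable (fun z => (K : ℝ) * Real.log ‖f z‖) 0 r :=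
    (Tm_int hf h0 r).const_fun_smul (a := (K : ℝ))
  have i4 : CircleIntegrable (fun z => (K : ℝ) * Real.log ‖f z‖ + Real.log c) 0 r :=
    i3.add (circleIntegrable_const _ _ _)
  have e1 : K * Tm f r + Real.log c =
      Real.circleAverage (fun z => (K : ℝ) * Real.log ‖f z‖ + Real.log c) 0 r := by
    rw [Real.circleAverage_fun_add i3 (circleIntegrable_const _ _ _), Real.circleAverage_const]
    congr 1
    unfold Tm
    rw [← smul_eq_mul, ← Real.circleAverage_fun_smul]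
    rfl
  have e2 : T2 g h r = Real.circleAverage (fun z => Real.log ‖g z‖ + Real.posLog ‖h z / g z‖)
      0 r := by
    rw [Real.circleAverage_fun_add i1 i2]
    rfl
  rw [e1, e2]
  obtain ⟨y, hy⟩ := hg0
  apply avg_le_cod (i1.add i2) i4 hr
  filter_upwards [ne_cod hg hy r] with z hz
  have hgz : 0 < ‖g z‖ := norm_pos_iff.2 hz
  have hfz : 0 < ‖f z‖ := norm_pos_iff.2 (h0 z)
  have h3 : ∀ u : ℝ, 0 < u → u ≤ c * ‖f z‖ ^ K → Real.log u ≤ K * Real.log ‖f z‖ + Real.log c := by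
    intro u hu hu2
    have := Real.log_le_log hu hu2
    rw [Real.log_mul hc.ne' (by positivity), Real.log_pow] at this
    linarith
  change Real.log ‖g z‖ + Real.posLog ‖h z / g z‖ ≤ K * Real.log ‖f z‖ + Real.log c
  rw [Real.posLog_apply]
  rcases max_cases 0 (Real.log ‖h z / g z‖) with ⟨h4, -⟩ | ⟨h4, h5⟩
  · rw [h4, add_zero]
    exact h3 _ hgz (h1 z)
  · rw [h4]
    have hhz : h z ≠ 0 := by
      intro h6
      rw [h6, zero_div, norm_zero, Real.log_zero] at h5
      exact lt_irrefl _ h5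
    rw [norm_div, Real.log_div (norm_ne_zero_iff.2 hhz) hgz.ne']
    have := h3 _ (norm_pos_iff.2 hhz) (h2 z)
    linarith

/-- a monotone function comparable with the characteristic -/
noncomputable def Sm (f : ℂ → Fin (n + 1) → ℂ) (j : Fin (n + 1)) (r : ℝ) : ℝ :=
  ∑ l, T2 (fun z => f z j) (fun z => f z l) r

theorem Sm_mono {f : ℂ → Fin (n + 1) → ℂ} (hf : Differentiable ℂ f) {j : Fin (n + 1)}
    (hj : ∃ y, f y j ≠ 0) {r R : ℝ} (hr : 0 < r) (hrR : r ≤ R) : Sm f j r ≤ Sm f j R := by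
  obtain ⟨y, hy⟩ := hj
  exact Finset.sum_le_sum fun l _ => T2_mono (coord_diff hf j) hy (coord_diff hf l) hr hrR

theorem Sm_le {f : ℂ → Fin (n + 1) → ℂ} (hf : Differentiable ℂ f) (h0 : ∀ z, f z ≠ 0)
    {j : Fin (n + 1)} (hj : ∃ y, f y j ≠ 0) {r : ℝ} (hr : r ≠ 0) :
    Sm f j r ≤ (n + 1) * Tm f r := by
  unfold Sm
  calc ∑ l, T2 (fun z => f z j) (fun z => f z l) r ≤ ∑ _l : Fin (n + 1), Tm f r := by
        refine Finset.sum_le_sum fun l _ => ?_
        have h1 := T2_le' hf h0 (coord_diff hf j) (coord_diff hf l) hj one_pos (K := 1)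
          (fun z => by rw [one_mul, pow_one]; exact norm_le_coord z j)
          (fun z => by rw [one_mul, pow_one]; exact norm_le_coord z l) hr
        rw [Real.log_one, add_zero, Nat.cast_one, one_mul] at h1
        exact h1
    _ = (n + 1) * Tm f r := by simp

theorem Tm_le_Sm {f : ℂ → Fin (n + 1) → ℂ} (hf : Differentiable ℂ f) (h0 : ∀ z, f z ≠ 0)
    {j : Fin (n + 1)} (hj : ∃ y, f y j ≠ 0) {r : ℝ} (hr : 1 ≤ r) :
    Tm f r ≤ Sm f j r - n * tc (fun z => f z j) := by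
  have hr0 : r ≠ 0 := by linarith
  have i1 : CircleIntegrable (fun z => Real.log ‖f z j‖) 0 r :=
    ci_log (mero_of_diff (coord_diff hf j)) r
  have i2 : ∀ l, CircleIntegrable (fun z => Real.posLog ‖f z l / f z j‖) 0 r := fun l =>
    ci_posLog (quot_mero (coord_diff hf j) (coord_diff hf l)) r
  have i3 : CircleIntegrable (fun z => ∑ l, Real.posLog ‖f z l / f z j‖) 0 r :=
    CircleIntegrable.fun_sum _ fun l _ => i2 l
  have h1 : Tm f r ≤ L (fun z => f z j) r +
      ∑ l, Real.circleAverage (fun z => Real.posLog ‖f z l / f z j‖) 0 r := by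
    have e1 : L (fun z => f z j) r +
        ∑ l, Real.circleAverage (fun z => Real.posLog ‖f z l / f z j‖) 0 r =
        Real.circleAverage (fun z => Real.log ‖f z j‖ + ∑ l, Real.posLog ‖f z l / f z j‖) 0 r := by
      rw [Real.circleAverage_fun_add i1 i3, Real.circleAverage_fun_sum fun l _ => i2 l]
      rfl
    rw [e1]
    obtain ⟨y, hy⟩ := hj
    apply avg_le_cod (Tm_int hf h0 r) (i1.add i3) hr0
    filter_upwards [ne_cod (coord_diff hf j) hy r] with z hz
    obtain ⟨l, hl⟩ := exists_coord (f z)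
    have hfl : 0 < ‖f z l‖ := by rw [← hl]; exact norm_pos_iff.2 (h0 z)
    have hfj : 0 < ‖f z j‖ := norm_pos_iff.2 hz
    change Real.log ‖f z‖ ≤ Real.log ‖f z j‖ + ∑ l, Real.posLog ‖f z l / f z j‖
    have h2 : Real.posLog ‖f z l / f z j‖ ≤ ∑ l, Real.posLog ‖f z l / f z j‖ :=
      Finset.single_le_sum (f := fun l => Real.posLog ‖f z l / f z j‖)
        (fun l _ => Real.posLog_nonneg) (Finset.mem_univ l)
    have h3 : Real.log ‖f z l / f z j‖ ≤ Real.posLog ‖f z l / f z j‖ := by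
      rw [Real.posLog_apply]
      exact le_max_right _ _
    have h4 : Real.log ‖f z l / f z j‖ = Real.log ‖f z l‖ - Real.log ‖f z j‖ := by
      rw [norm_div, Real.log_div hfl.ne' hfj.ne']
    rw [hl]
    linarith
  have h2 := tc_le (coord_diff hf j) hj hr
  have h3 : Sm f j r = (n + 1) * L (fun z => f z j) r +
      ∑ l, Real.circleAverage (fun z => Real.posLog ‖f z l / f z j‖) 0 r := by
    unfold Sm T2
    rw [Finset.sum_add_distrib, Finset.sum_const, Finset.card_univ, Fintype.card_fin,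
      nsmul_eq_mul]
    push_cast
    rfl
  have hn : (0 : ℝ) ≤ n := Nat.cast_nonneg n
  nlinarith [mul_le_mul_of_nonneg_left h2 hn]

end Pool.Agent.Q72.TR
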