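import Pool.Agent.Q72.TR.Jen

/-!
The inequality for one circuit.
-/

set_option autoImplicit false

namespace Pool.Agent.Q72.TR

open Filter Metric Real Set Topology Pool.Agent.H159R3.NV Pool.Agent.W602.NC MeromorphicOn

/-- the error term -/
noncomputable def er (m : ℕ) (B ε : ℝ) : ℝ :=
  Real.log (Nat.factorial m) + m * (Real.log (Nat.factorial m) + Real.log B) +
    m ^ 2 * Real.log (1 / ε)

theorem upper' {m : ℕ} (v : Fin (m + 1) → ℂ → ℂ) (hv : ∀ j, Differentiable ℂ (v j))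
    (hs : ∀ z, ∑ j, v j z = 0) (hW : ∃ y, wr 1 v 0 y ≠ 0) {s ε B : ℝ} (hs0 : 0 < s)
    (hε : 0 < ε) (hε1 : ε ≤ 1) (hB : 1 ≤ B)
    (h0 : ∀ z, ‖z‖ = s → ∀ j, ∀ w ∈ closedBall z ε, v j w ≠ 0)
    (hb : ∀ z, ‖z‖ = s → ∀ j, ∀ w ∈ closedBall z ε, ‖v j w / v 0 w‖ ≤ B * ‖v j z / v 0 z‖) :
    L (wr 1 v 0) s ≤ er m B ε + ∑ j, L (v j) s - tau v s := by
  have hB0 : B ≠ 0 := by linarith
  have hne : ∀ z, ‖z‖ = s → ∀ j, v j z ≠ 0 :=
    fun z hz j => h0 z hz j z (mem_closedBall_self hε.le)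
  have hGint : CircleIntegrable (fun z => Real.log (sup v z)) 0 s :=
    tau_int hv hs0 fun z hz => ⟨0, hne z hz 0⟩
  have hsumint : CircleIntegrable (fun z => ∑ j, Real.log ‖v j z‖) 0 s :=
    CircleIntegrable.fun_sum _ (fun j _ => ci_log (mero_of_diff (hv j)) s)
  have i3 : CircleIntegrable (fun z => er m B ε + ∑ j, Real.log ‖v j z‖) 0 s :=
    (circleIntegrable_const _ _ _).add hsumint
  have e1 : er m B ε + ∑ j, L (v j) s - tau v s
      = Real.circleAverage (fun z => (er m B ε + ∑ j, Real.log ‖v j z‖) - Real.log (sup v z))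
        0 s := by
    rw [Real.circleAverage_fun_sub i3 hGint, Real.circleAverage_fun_add
      (circleIntegrable_const _ _ _) hsumint, Real.circleAverage_const,
      Real.circleAverage_fun_sum (fun j _ => ci_log (mero_of_diff (hv j)) s)]
    rfl
  rw [e1]
  obtain ⟨y, hy⟩ := hW
  apply avg_le_cod (ci_log (mero_of_diff (wr_diff 1 v hv 0)) s) (i3.sub hGint) hs0.ne'
  filter_upwards [ne_cod (wr_diff 1 v hv 0) hy s, self_mem_codiscreteWithin _] with z hz hzs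
  have hz' := sph_norm hs0 hzs
  obtain ⟨i, hi⟩ := sup_attained v z
  have hup := point_upper' v hv hε hε1 (h0 z hz' 0) (hb z hz') (by linarith) i
  obtain ⟨e, he, hee⟩ := wr_norm 1 v hv (by simpa using hs) i
  have hnorm : ‖wr 1 v i z‖ = ‖wr 1 v 0 z‖ := by
    rw [hee z, norm_mul]
    rcases he with rfl | rfl <;> simp
  rw [hnorm] at hup
  have hpos : 0 < ‖wr 1 v 0 z‖ := norm_pos_iff.mpr hz
  have h1 := Real.log_le_log hpos hup
  have hprod : (∏ b : Fin m, ‖v (i.succAbove b) z‖) ≠ 0 :=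
    Finset.prod_ne_zero_iff.mpr fun b _ => norm_ne_zero_iff.mpr (hne z hz' _)
  have hfac : ((Nat.factorial m : ℕ) : ℝ) ≠ 0 := by exact_mod_cast Nat.factorial_ne_zero m
  have hεp : (1 / ε) ^ m ≠ 0 := pow_ne_zero _ (by positivity)
  rw [Real.log_mul (mul_ne_zero hfac (pow_ne_zero _ (mul_ne_zero (mul_ne_zero hfac hB0) hεp)))
    hprod, Real.log_mul hfac (pow_ne_zero _ (mul_ne_zero (mul_ne_zero hfac hB0) hεp)),
    Real.log_pow, Real.log_mul (mul_ne_zero hfac hB0) hεp, Real.log_mul hfac hB0,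
    Real.log_pow] at h1
  rw [Real.log_prod (fun b _ => norm_ne_zero_iff.mpr (hne z hz' _))] at h1
  have h2 : ∑ j, Real.log ‖v j z‖ = Real.log ‖v i z‖
      + ∑ b : Fin m, Real.log ‖v (i.succAbove b) z‖ :=
    Fin.sum_univ_succAbove (fun j => Real.log ‖v j z‖) i
  change Real.log ‖wr 1 v 0 z‖ ≤ (er m B ε + ∑ j, Real.log ‖v j z‖) - Real.log (sup v z)
  rw [h2, hi, er]
  nlinarith [h1]

/-- the order of the Wronskian at a point -/
theorem wr_oo {m : ℕ} (v : Fin (m + 1) → ℂ → ℂ) (hv : ∀ j, Differentiable ℂ (v j))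
    (hv0 : ∀ j, ∃ y, v j y ≠ 0)
    (hs : ∀ z, ∑ j, v j z = 0) (hW : ∃ y, wr 1 v 0 y ≠ 0) (x : ℂ) (i : Fin (m + 1)) :
    ∑ j, oo (v j) x ≤ oo (wr 1 v 0) x + oo (v i) x + m * (m - 1) := by
  obtain ⟨ε, hε, hεe⟩ := wr_norm 1 v hv (by simpa using hs) i
  have hWd : Differentiable ℂ (wr 1 v 0) := wr_diff 1 v hv 0
  have hwi := wr_order v hv i x (fun b => oo (v (i.succAbove b)) x) (fun b => by
    rw [oo_cast (hv _) (hv0 _)])
  have hwe : analyticOrderAt (wr 1 v 0) x = analyticOrderAt (wr 1 v i) x := by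
    have e1 : wr 1 v i = (fun _ => ε) * wr 1 v 0 := by
      funext z
      rw [hεe z]
      rfl
    rw [e1, analyticOrderAt_mul analyticAt_const (hWd.analyticAt x)]
    have : analyticOrderAt (fun _ : ℂ => ε) x = 0 := by
      rw [analyticOrderAt_eq_zero]
      right
      rcases hε with rfl | rfl <;> simp
    rw [this, zero_add]
  rw [← hwe, ← oo_cast hWd hW x] at hwi
  have hwi' : ∑ b, (oo (v (i.succAbove b)) x - (m - 1)) ≤ oo (wr 1 v 0) x := by exact_mod_cast hwi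
  rw [Fin.sum_univ_succAbove (fun j => oo (v j) x) i]
  have h3 : ∑ b : Fin m, oo (v (i.succAbove b)) x ≤
      ∑ b : Fin m, ((oo (v (i.succAbove b)) x - (m - 1)) + (m - 1)) :=
    Finset.sum_le_sum fun b _ => by omega
  rw [Finset.sum_add_distrib, Finset.sum_const, Finset.card_univ, Fintype.card_fin,
    smul_eq_mul] at h3
  omega

open Classical in
/-- **The inequality for one circuit.** -/
theorem circ_ineq {m : ℕ} (v : Fin (m + 1) → ℂ → ℂ) (hv : ∀ j, Differentiable ℂ (v j))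
    (hv0 : ∀ j, ∃ y, v j y ≠ 0)
    (hs : ∀ z, ∑ j, v j z = 0) (hW : ∃ y, wr 1 v 0 y ≠ 0) {s ε B : ℝ} (hs1 : 1 ≤ s)
    (hε : 0 < ε) (hε1 : ε ≤ 1) (hB : 1 ≤ B)
    (h0 : ∀ z, ‖z‖ = s → ∀ j, ∀ w ∈ closedBall z ε, v j w ≠ 0)
    (hb : ∀ z, ‖z‖ = s → ∀ j, ∀ w ∈ closedBall z ε, ‖v j w / v 0 w‖ ≤ B * ‖v j z / v 0 z‖)
    (Z : Finset ℂ) (hZ : ∀ x, ‖x‖ ≤ s → (wr 1 v 0 x = 0 ∨ ∃ j, v j x = 0) → x ∈ Z)
    (hZs : ∀ x ∈ Z, ‖x‖ ≤ s) (i j : Fin (m + 1)) :
    Real.circleAverage (fun z => |Real.log ‖v i z‖ - Real.log ‖v j z‖|) 0 s +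
      ∑ x ∈ Z, |(oo (v i) x : ℝ) - oo (v j) x| * wgt s x ≤
    2 * (er m B ε + (m * (m - 1) : ℕ) * ∑ x ∈ Z with (∃ j, v j x = 0), wgt s x) +
      (2 * (∑ j, tc (v j) - tc (wr 1 v 0)) - tc (v i) - tc (v j)) := by
  have hs0 : 0 < s := by linarith
  have hWd : Differentiable ℂ (wr 1 v 0) := wr_diff 1 v hv 0
  have hne : ∀ z, ‖z‖ = s → ∀ j, v j z ≠ 0 :=
    fun z hz j => h0 z hz j z (mem_closedBall_self hε.le)
  have hup := upper' v hv hs hW hs0 hε hε1 hB h0 hb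
  have hJ : ∀ j, L (v j) s = ∑ x ∈ Z, (oo (v j) x : ℝ) * wgt s x + tc (v j) := fun j =>
    jen (hv j) (hv0 j) hs0 Z (fun x hx hx0 => hZ x hx (Or.inr ⟨j, hx0⟩)) hZs
  have hJW : L (wr 1 v 0) s = ∑ x ∈ Z, (oo (wr 1 v 0) x : ℝ) * wgt s x + tc (wr 1 v 0) :=
    jen hWd hW hs0 Z (fun x hx hx0 => hZ x hx (Or.inl hx0)) hZs
  -- the minimum
  have hmin : ∀ x, ∃ i, ∀ j, oo (v i) x ≤ oo (v j) x := fun x => by
    obtain ⟨i, -, hi⟩ := Finset.exists_min_image Finset.univ (fun j => oo (v j) x)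
      ⟨0, Finset.mem_univ _⟩
    exact ⟨i, fun j => hi j (Finset.mem_univ j)⟩
  choose μ hμ using hmin
  have hkey : ∑ j, ∑ x ∈ Z, (oo (v j) x : ℝ) * wgt s x ≤
      ∑ x ∈ Z, (oo (wr 1 v 0) x : ℝ) * wgt s x + ∑ x ∈ Z, (oo (v (μ x)) x : ℝ) * wgt s x +
      (m * (m - 1) : ℕ) * ∑ x ∈ Z with (∃ j, v j x = 0), wgt s x := by
    rw [Finset.sum_comm, Finset.sum_filter, Finset.mul_sum, ← Finset.sum_add_distrib,
      ← Finset.sum_add_distrib]
    refine Finset.sum_le_sum fun x _ => ?_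
    have hw := wgt_nonneg hs1 x
    rw [← Finset.sum_mul]
    by_cases hx : ∃ j, v j x = 0
    · rw [if_pos hx]
      have h1 := wr_oo v hv hv0 hs hW x (μ x)
      have h2 : (∑ j, (oo (v j) x : ℝ)) ≤ oo (wr 1 v 0) x + oo (v (μ x)) x +
          (m * (m - 1) : ℕ) := by exact_mod_cast h1
      nlinarith [mul_le_mul_of_nonneg_right h2 hw]
    · rw [if_neg hx]
      push Not at hx
      have h1 : ∑ j, (oo (v j) x : ℝ) = 0 := Finset.sum_eq_zero fun j _ => by
        rw [oo_zero (hv j) (hx j), Nat.cast_zero]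
      rw [h1, zero_mul]
      positivity
  -- comparison
  have htau : tau v s - ∑ x ∈ Z, (oo (v (μ x)) x : ℝ) * wgt s x ≤ er m B ε +
      (m * (m - 1) : ℕ) * ∑ x ∈ Z with (∃ j, v j x = 0), wgt s x +
      (∑ j, tc (v j) - tc (wr 1 v 0)) := by
    have h1 : ∑ j, L (v j) s = ∑ j, ∑ x ∈ Z, (oo (v j) x : ℝ) * wgt s x + ∑ j, tc (v j) := by
      rw [← Finset.sum_add_distrib]
      exact Finset.sum_congr rfl fun j _ => hJ j
    rw [hJW, h1] at hup
    linarith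
  have hint : ∀ j, CircleIntegrable (fun z => Real.log ‖v j z‖) 0 s := fun j =>
    ci_log (mero_of_diff (hv j)) s
  have hGint : CircleIntegrable (fun z => Real.log (sup v z)) 0 s :=
    tau_int hv hs0 fun z hz => ⟨0, hne z hz 0⟩
  have hav : Real.circleAverage (fun z => |Real.log ‖v i z‖ - Real.log ‖v j z‖|) 0 s ≤
      2 * tau v s - L (v i) s - L (v j) s := by
    have i1 : CircleIntegrable (fun z => |Real.log ‖v i z‖ - Real.log ‖v j z‖|) 0 s :=
      ci_abs ((hint i).sub (hint j))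
    have i2 : CircleIntegrable (fun z => 2 * Real.log (sup v z)) 0 s := by
      have := hGint.add hGint
      refine this.congr_codiscreteWithin ?_
      filter_upwards with z
      simp only [Pi.add_apply]
      ring
    have i4 : CircleIntegrable (fun z => 2 * Real.log (sup v z) - Real.log ‖v i z‖) 0 s :=
      i2.sub (hint i)
    have i5 : CircleIntegrable (fun z => 2 * Real.log (sup v z) - Real.log ‖v i z‖ -
      Real.log ‖v j z‖) 0 s := i4.sub (hint j)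
    have e2 : 2 * tau v s - L (v i) s - L (v j) s = Real.circleAverage
        (fun z => 2 * Real.log (sup v z) - Real.log ‖v i z‖ - Real.log ‖v j z‖) 0 s := by
      rw [Real.circleAverage_fun_sub i4 (hint j), Real.circleAverage_fun_sub i2 (hint i)]
      have : Real.circleAverage (fun z => 2 * Real.log (sup v z)) 0 s = 2 * tau v s := by
        unfold tau
        rw [← smul_eq_mul, ← Real.circleAverage_fun_smul]
        rfl
      rw [this]
      rfl
    rw [e2]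
    apply Real.circleAverage_mono i1 i5
    intro z hz
    have hz' := sph_norm hs0 hz
    have h1 : Real.log ‖v i z‖ ≤ Real.log (sup v z) :=
      Real.log_le_log (norm_pos_iff.2 (hne z hz' i)) (le_sup v z i)
    have h2 : Real.log ‖v j z‖ ≤ Real.log (sup v z) :=
      Real.log_le_log (norm_pos_iff.2 (hne z hz' j)) (le_sup v z j)
    change |Real.log ‖v i z‖ - Real.log ‖v j z‖| ≤ 2 * Real.log (sup v z) - Real.log ‖v i z‖ -
      Real.log ‖v j z‖
    rw [abs_le]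
    constructor <;> linarith
  have hor : ∑ x ∈ Z, |(oo (v i) x : ℝ) - oo (v j) x| * wgt s x ≤
      ∑ x ∈ Z, (oo (v i) x : ℝ) * wgt s x + ∑ x ∈ Z, (oo (v j) x : ℝ) * wgt s x -
      2 * ∑ x ∈ Z, (oo (v (μ x)) x : ℝ) * wgt s x := by
    rw [Finset.mul_sum, ← Finset.sum_add_distrib, ← Finset.sum_sub_distrib]
    refine Finset.sum_le_sum fun x _ => ?_
    have hw := wgt_nonneg hs1 x
    have h1 : (oo (v (μ x)) x : ℝ) ≤ oo (v i) x := by exact_mod_cast hμ x i
    have h2 : (oo (v (μ x)) x : ℝ) ≤ oo (v j) x := by exact_mod_cast hμ x j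
    have h3 : |(oo (v i) x : ℝ) - oo (v j) x| ≤ (oo (v i) x : ℝ) + oo (v j) x -
        2 * oo (v (μ x)) x := by
      rw [abs_le]
      constructor <;> linarith
    nlinarith [mul_le_mul_of_nonneg_right h3 hw]
  have hi := hJ i
  have hj := hJ j
  linarith

end Pool.Agent.Q72.TR
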