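import Pool.Agent.Q72.TR.Spec

/-!
The dichotomy: weights, or the inequality on good circles.
-/

set_option autoImplicit false

namespace Pool.Agent.Q72.TR

open Filter Metric Real Set Topology Pool.Agent.H159R3.NV Pool.Agent.W602.NC MeromorphicOn
open MvPolynomial
open Pool.Agent.Q72.SH (coord_diff eval_diff Ex exf ex' fs LeD wt comp Weighted leD_of_homog Dl
  aeval_sum aeval_comp homog_sum comp_mem wt_some wt_none ei)
open Pool.Agent.W603.BPR (EntireCurve)

variable {n : ℕ}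

/-- the differences of exponents -/
def rr' {d : ℕ} (q : ℕ) (j : Fin (n + 1))
    (i : Option (Ex (Fin (n + 1)) (d + 1)) × Option (Ex (Fin (n + 1)) (d + 1)))
    (p : Option (Fin (n + 1))) : ℤ := (xx q j i.1 p : ℤ) - xx q j i.2 p

/-- `f` is a vector of homogeneous coordinates without common zeros of a nonconstant entire curve in
the set `E = 0` that is not contained in `Q = 0` -/
structure Cur (E : Set (MvPolynomial (Fin (n + 1)) ℂ)) (Q : MvPolynomial (Fin (n + 1)) ℂ)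
    (f : ℂ → Fin (n + 1) → ℂ) : Prop where
  df : Differentiable ℂ f
  ne : ∀ z, f z ≠ 0
  mem : ∀ z, ∀ F ∈ E, eval (f z) F = 0
  off : ∃ z, eval (f z) Q ≠ 0
  nc : ∃ z w, ∀ c : ℂ, f z ≠ c • f w

theorem Cur.of {E : Set (MvPolynomial (Fin (n + 1)) ℂ)} {Q : MvPolynomial (Fin (n + 1)) ℂ}
    {f : ℂ → Fin (n + 1) → ℂ} (hf : EntireCurve (Ideal.span E) Q f) : Cur E Q f :=
  ⟨hf.1, fun z => (hf.2.1 z).1, fun z F hF => (hf.2.1 z).2.1 F (Ideal.subset_span hF),
    ⟨0, (hf.2.1 0).2.2⟩, hf.2.2⟩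

theorem Cur.span {E : Set (MvPolynomial (Fin (n + 1)) ℂ)} {Q : MvPolynomial (Fin (n + 1)) ℂ}
    {f : ℂ → Fin (n + 1) → ℂ} (hf : Cur E Q f) (z : ℂ) :
    ∀ F ∈ Ideal.span E, eval (f z) F = 0 := by
  intro F hF
  have h1 : Ideal.span E ≤ RingHom.ker (eval (f z)) := by
    rw [Ideal.span_le]
    exact fun F hF => hf.mem z F hF
  exact h1 hF

theorem Cur.to {E : Set (MvPolynomial (Fin (n + 1)) ℂ)} {Q : MvPolynomial (Fin (n + 1)) ℂ}
    {f : ℂ → Fin (n + 1) → ℂ} (hf : Cur E Q f) (hQ : ∀ z, eval (f z) Q ≠ 0) :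
    EntireCurve (Ideal.span E) Q f :=
  ⟨hf.df, fun z => ⟨hf.ne z, hf.span z, hQ z⟩, hf.nc⟩

open Classical in
/-- **The dichotomy on good circles.** -/
theorem dich (n d : ℕ) : ∃ C : ℝ, 0 ≤ C ∧ ∀ (E : Set (MvPolynomial (Fin (n + 1)) ℂ)),
    (∀ F ∈ E, ∃ e ≤ d, F.IsHomogeneous e) → ∀ (Q : MvPolynomial (Fin (n + 1)) ℂ) (q : ℕ), q ≤ d →
    Q.IsHomogeneous q → ∀ f : ℂ → Fin (n + 1) → ℂ, Cur E Q f →
    ∀ j, (∃ y, f y j ≠ 0) → Weighted (d + 1) E Q f ∨ ∀ B : ℝ, 1 ≤ B → ∃ C1 : ℝ, ∀ s ε : ℝ,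
      GoodC (FF f Q) (xx (d := d) q j) B s ε → Tm f s ≤ C * (Real.log (1 / ε) + Nb f Q s) + C1 := by
  have h1 : ∀ (q : Fin (d + 1)) (j l : Fin (n + 1)), _ := fun q j l =>
    alt (rr' (n := n) (d := d) q j) (dd l j)
  choose Cf hC0 hC using h1
  set CC : ℝ := ∑ q, ∑ j, ∑ l, Cf q j l with hCC
  have hCCle : ∀ q j l, Cf q j l ≤ CC := by
    intro q j l
    have e1 : Cf q j l ≤ ∑ l, Cf q j l :=
      Finset.single_le_sum (f := fun l => Cf q j l) (fun l _ => hC0 q j l) (Finset.mem_univ l)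
    have e2 : ∑ l, Cf q j l ≤ ∑ j, ∑ l, Cf q j l :=
      Finset.single_le_sum (f := fun j => ∑ l, Cf q j l)
        (fun j _ => Finset.sum_nonneg fun l _ => hC0 q j l) (Finset.mem_univ j)
    have e3 : ∑ j, ∑ l, Cf q j l ≤ CC :=
      Finset.single_le_sum (f := fun q => ∑ j, ∑ l, Cf q j l)
        (fun q _ => Finset.sum_nonneg fun j _ => Finset.sum_nonneg fun l _ => hC0 q j l)
        (Finset.mem_univ q)
    linarith
  have hCC0 : 0 ≤ CC := Finset.sum_nonneg fun q _ => Finset.sum_nonneg fun j _ =>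
    Finset.sum_nonneg fun l _ => hC0 q j l
  set cA : ℝ := (Fintype.card (Option (Ex (Fin (n + 1)) (d + 1))) : ℝ) ^ 2 with hcA
  have hcA0 : 0 ≤ cA := by positivity
  refine ⟨(n + 1) * (CC * (2 * cA)), by positivity, ?_⟩
  intro E hE Q q hq hQ f hf j hj
  have hfd := hf.df
  have hf0 := hf.ne
  have hfQ := hf.off
  have hFd := FF_diff hfd Q
  set S := Dl (RV (FF f Q) (xx (d := d) q j)) with hS
  by_cases hex : ∃ l, (∃ y, f y l ≠ 0) ∧ ∃ b : Option (Fin (n + 1)) → ℤ,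
      (∀ i ∈ S, ∑ p, b p * rr' q j i p = 0) ∧ ∑ p, b p * dd l j p ≠ 0
  · left
    obtain ⟨l, hl, b, hb1, hb2⟩ := hex
    have hb : ∀ p ∈ S, wt b (xx q j p.1) = wt b (xx q j p.2) := by
      intro p hp
      have h2 := hb1 p hp
      unfold rr' at h2
      unfold wt
      rw [← sub_eq_zero, ← Finset.sum_sub_distrib, ← h2]
      exact Finset.sum_congr rfl fun p _ => by ring
    obtain ⟨h3, h4⟩ := weighted_of hE hq hQ hfd hf.mem hj hb
    refine ⟨b, h3, h4, l, j, hl, hj, fun h5 => hb2 ?_⟩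
    have h6 : ∀ p, b p * dd l j p = (if p = some l then b p else 0) -
        (if p = some j then b p else 0) := by
      intro p
      unfold dd
      split_ifs <;> ring
    simp only [h6]
    rw [Finset.sum_sub_distrib, Finset.sum_ite_eq' Finset.univ (some l),
      Finset.sum_ite_eq' Finset.univ (some j)]
    simp [h5]
  · right
    push Not at hex
    intro B hB
    -- the constants of the pairs
    have hpair : ∀ i : Option (Ex (Fin (n + 1)) (d + 1)) × Option (Ex (Fin (n + 1)) (d + 1)),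
        ∃ C0 : ℝ, 0 ≤ C0 ∧ (i ∈ S → ∀ s ε : ℝ, GoodC (FF f Q) (xx (d := d) q j) B s ε →
        ∀ Z : Finset ℂ, (∀ x, ‖x‖ ≤ s → x ∈ SG (FF f Q) (xx (d := d) q j) → x ∈ Z) →
        (∀ x ∈ Z, ‖x‖ ≤ s) → Th (FF f Q) s Z (fun p => (rr' q j i p : ℝ)) ≤
        2 * (cA * Real.log (1 / ε) + cA *
          ∑ x ∈ Z with x ∈ SG (FF f Q) (xx (d := d) q j), wgt s x) + C0) := by
      intro i
      by_cases hi : i ∈ S
      · obtain ⟨C0, hC0⟩ := pair_ineq hFd (xx (d := d) q j) hB (a := i.1) (b := i.2) hi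
        refine ⟨|C0|, abs_nonneg _, fun _ s ε hG Z hZ hZs => ?_⟩
        have h2 := hC0 s ε hG Z hZ hZs
        have h3 : (fun p => (rr' q j i p : ℝ)) = fun p => (xx q j i.1 p : ℝ) - xx q j i.2 p := by
          funext p
          unfold rr'
          push_cast
          rfl
        rw [h3]
        have h4 := le_abs_self C0
        linarith
      · exact ⟨0, le_rfl, fun h => absurd h hi⟩
    choose C0 hC00 hC0p using hpair
    set CP : ℝ := ∑ i, C0 i with hCP
    have hCP0 : 0 ≤ CP := Finset.sum_nonneg fun i _ => hC00 i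
    refine ⟨(n + 1) * (CC * CP) + tc (fun z => f z j), ?_⟩
    intro s ε hG
    have hs1 := hG.s1
    have hs0 : 0 ≤ s := by linarith
    set N : ℝ := Nb f Q s with hN
    have hNeq := Nb_eq hfd hfQ hs0
    have hN0 : 0 ≤ N := by
      rw [hN, hNeq]
      exact Finset.sum_nonneg fun x _ => wgt_nonneg hs1 x
    have hlog : 0 ≤ Real.log (1 / ε) := Real.log_nonneg (by
      rw [le_div_iff₀ hG.e0, one_mul]; exact hG.e1)
    set M : ℝ := 2 * (cA * Real.log (1 / ε) + cA * N) + CP with hM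
    have hM0 : 0 ≤ M := by positivity
    have hpM : ∀ i ∈ S, Th (FF f Q) s (zz hfd hfQ s) (fun p => (rr' q j i p : ℝ)) ≤ M := by
      intro i hi
      have h2 := hC0p i hi s ε hG (zz hfd hfQ s)
        (fun x hx hxS => (mem_zz hfd hfQ).2 ⟨hx, SG_sub hxS⟩)
        (fun x hx => ((mem_zz hfd hfQ).1 hx).1)
      have h3 : ∑ x ∈ zz hfd hfQ s with x ∈ SG (FF f Q) (xx (d := d) q j), wgt s x ≤ N := by
        rw [hN, hNeq]
        apply Finset.sum_le_sum_of_subset_of_nonneg (Finset.filter_subset _ _)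
        intro x _ _
        exact wgt_nonneg hs1 x
      have h4 : C0 i ≤ CP := Finset.single_le_sum (f := C0) (fun i _ => hC00 i)
        (Finset.mem_univ i)
      have h5 := mul_le_mul_of_nonneg_left h3 hcA0
      rw [hM]
      linarith
    have hl : ∀ l, (∃ y, f y l ≠ 0) →
        Th (FF f Q) s (zz hfd hfQ s) (fun p => (dd l j p : ℝ)) ≤ CC * M := by
      intro l hl
      have hqd : q < d + 1 := Nat.lt_succ_of_le hq
      rcases hC ⟨q, hqd⟩ j l S with ⟨b, hb1, hb2⟩ | ⟨c, hc1, hc2, hc3⟩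
      · exact absurd (hex l hl b hb1) hb2
      · rw [finsum_eq_sum_of_fintype] at hc2 hc3
        rw [hc2]
        refine (Th_sum hFd hs1 (zz hfd hfQ s) Finset.univ c (fun i p => (rr' q j i p : ℝ))
          (M := M) fun i _ hi => ?_).trans ?_
        · apply hpM
          by_contra h
          exact hi (hc1 i h)
        · exact mul_le_mul_of_nonneg_right (hc3.trans (hCCle _ _ _)) hM0
    have h6 := Tm_le hfd hf0 hfQ hj hs1 (fun z hz l hl => good_ne hfd hj hG z hz l hl)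
      (mul_nonneg hCC0 hM0) hl
    calc Tm f s ≤ (n + 1) * (CC * M) + tc (fun z => f z j) := h6
      _ = _ := by
        rw [hM]
        ring

end Pool.Agent.Q72.TR
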