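import Pool.Agent.Q72.TR.Main

/-!
The truncated inequality: final form.
-/

set_option autoImplicit false

namespace Pool.Agent.Q72.TR

open Filter Metric Real Set Topology Pool.Agent.H159R3.NV Pool.Agent.W602.NC MeromorphicOn
open MvPolynomial MeasureTheory
open Pool.Agent.Q72.SH (coord_diff eval_diff Weighted leD_of_homog diag_or_weighted DiagEq EC.comp
  SameSections SameCurve Aff)
open Pool.Agent.W603.BPR (EntireCurve)

variable {n : ℕ} {f : ℂ → Fin (n + 1) → ℂ}

theorem comp_weighted {D : ℕ} {E : Set (MvPolynomial (Fin (n + 1)) ℂ)}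
    {Q : MvPolynomial (Fin (n + 1)) ℂ} {σ : ℂ → ℂ} (hσ : ∀ z, ∃ w, σ w = z)
    (h : Weighted D E Q fun z => f (σ z)) : Weighted D E Q f := by
  obtain ⟨b, h1, h2, i, j, ⟨zi, hi⟩, ⟨zj, hj⟩, hij⟩ := h
  refine ⟨b, fun F hF k z => ?_, fun k hk z => ?_, i, j, ⟨σ zi, hi⟩, ⟨σ zj, hj⟩, hij⟩
  · obtain ⟨w, rfl⟩ := hσ z
    exact h1 F hF k w
  · obtain ⟨w, rfl⟩ := hσ z
    exact h2 k hk w

/-- curves without zeros of the coordinates -/
theorem unit_case {d : ℕ} {E : Set (MvPolynomial (Fin (n + 1)) ℂ)}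
    (hE : ∀ F ∈ E, ∃ e ≤ d, F.IsHomogeneous e) {Q : MvPolynomial (Fin (n + 1)) ℂ} {q : ℕ}
    (hq : q ≤ d) (hQ : Q.IsHomogeneous q) (hfc : Cur E Q f)
    (h0 : ∀ x, x ∉ zs f Q) : Weighted (d + 1) E Q f := by
  obtain ⟨M, hM⟩ := diag_or_weighted n d
  have hf : EntireCurve (Ideal.span E) Q f := hfc.to fun z hz => h0 z (Or.inr hz)
  have hne : ∀ l, (∃ y, f y l ≠ 0) → ∀ z, f z l ≠ 0 := fun l hl z hz => h0 z (Or.inl ⟨l, hl, hz⟩)
  have ha : ∀ s : ℕ, (2 : ℂ) ^ s ≠ 0 := fun s => pow_ne_zero s (by norm_num)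
  have haff : ∀ s : ℕ, Aff fun z => (2 : ℂ) ^ s * z := fun s =>
    ⟨2 ^ s, 0, ha s, fun z => by rw [add_zero]⟩
  have hsurj : ∀ s : ℕ, ∀ z : ℂ, ∃ w, (2 : ℂ) ^ s * w = z := fun s z =>
    ⟨z / 2 ^ s, mul_div_cancel₀ z (ha s)⟩
  rcases hM E hE Q q hq hQ (fun s z => f ((2 : ℂ) ^ (s : ℕ) * z)) (fun s => EC.comp hf (haff s))
    (fun s t l z => by
      by_cases hl : ∃ y, f y l ≠ 0
      · have h1 : ∀ s : ℕ, analyticOrderAt (fun z => f ((2 : ℂ) ^ s * z) l) z = 0 := by
          intro s
          rw [analyticOrderAt_eq_zero]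
          exact Or.inr (hne l hl _)
        rw [h1, h1]
      · push Not at hl
        have h1 : ∀ s : ℕ, (fun z => f ((2 : ℂ) ^ s * z) l) = fun _ => 0 := fun s => by
          funext z
          exact hl _
        rw [h1, h1]) with ⟨s, t, hst, D, hD, hDE⟩ | ⟨s, hs⟩
  · exfalso
    -- the ratios are invariant under a dilation
    have key : ∀ (s t : ℕ) (D : Fin (n + 1) → ℂ), s < t → (∀ l, D l ≠ 0) →
        (∀ z, ∃ c : ℂ, (fun l => f ((2 : ℂ) ^ s * z) l) = c • fun l => D l * f ((2 : ℂ) ^ t * z) l) →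
        ∀ z, ∃ c : ℂ, f z = c • f 0 := by
      intro s t D hlt hD h z
      obtain ⟨j, hj⟩ : ∃ l, f 0 l ≠ 0 := Function.ne_iff.1 (hf.2.1 0).1
      have hj' := hne j ⟨0, hj⟩
      -- the ratio
      have hR : ∀ l, ∀ z, f z l / f z j = f 0 l / f 0 j := by
        intro l
        have hR1 : ∀ w, f (w / 2) l / f (w / 2) j = f (w / 2) l / f (w / 2) j := fun w => rfl
        have hrel : ∀ z, f ((2 : ℂ) ^ s * z) l / f ((2 : ℂ) ^ s * z) j = (D l / D j) *
            (f ((2 : ℂ) ^ t * z) l / f ((2 : ℂ) ^ t * z) j) := by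
          intro z
          obtain ⟨c, hc⟩ := h z
          have h1 := congrFun hc l
          have h2 := congrFun hc j
          simp only [Pi.smul_apply, smul_eq_mul] at h1 h2
          have h3 := hj' ((2 : ℂ) ^ s * z)
          have hc0 : c ≠ 0 := by
            rintro rfl
            rw [zero_mul] at h2
            exact h3 h2
          rw [h1, h2, mul_div_mul_left _ _ hc0, mul_div_mul_comm]
        by_cases hl : ∃ y, f y l ≠ 0
        · have hD1 : D l / D j = 1 := by
            have h1 := hrel 0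
            rw [mul_zero, mul_zero] at h1
            have h2 : f 0 l / f 0 j ≠ 0 := div_ne_zero (hne l hl 0) hj
            have h3 : (D l / D j) * (f 0 l / f 0 j) = 1 * (f 0 l / f 0 j) := by
              rw [one_mul]
              exact h1.symm
            exact mul_right_cancel₀ h2 h3
          have hinv : ∀ z, f z l / f z j = f (z / 2 ^ (t - s)) l / f (z / 2 ^ (t - s)) j := by
            intro z
            have h1 := hrel (z / 2 ^ t)
            rw [hD1, one_mul, mul_div_cancel₀ z (ha t)] at h1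
            have h2 : (2 : ℂ) ^ s * (z / 2 ^ t) = z / 2 ^ (t - s) := by
              have h3 : (2 : ℂ) ^ t = 2 ^ s * 2 ^ (t - s) := by
                rw [← pow_add]
                congr 1
                omega
              rw [h3]
              have := ha s
              have := ha (t - s)
              field_simp
            rw [h2] at h1
            exact h1.symm
          have hit : ∀ k : ℕ, ∀ z, f z l / f z j =
              f (z / (2 ^ (t - s)) ^ k) l / f (z / (2 ^ (t - s)) ^ k) j := by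
            intro k
            induction k with
            | zero => intro z; rw [pow_zero, div_one]
            | succ k ih =>
              intro z
              rw [ih z, hinv (z / (2 ^ (t - s)) ^ k), div_div, ← pow_succ]
          intro z
          have hcont : ContinuousAt (fun z => f z l / f z j) 0 := by
            apply ContinuousAt.div
            · exact (coord_diff hf.1 l).continuous.continuousAt
            · exact (coord_diff hf.1 j).continuous.continuousAt
            · exact hj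
          have htend : Tendsto (fun k : ℕ => z / ((2 : ℂ) ^ (t - s)) ^ k) atTop (𝓝 0) := by
            have h1 : Tendsto (fun k : ℕ => z * ((2 : ℂ)⁻¹ ^ (t - s)) ^ k) atTop (𝓝 (z * 0)) := by
              apply Tendsto.const_mul
              apply tendsto_pow_atTop_nhds_zero_of_norm_lt_one
              rw [norm_pow, norm_inv]
              apply pow_lt_one₀ (by positivity)
              · norm_num
              · omega
            rw [mul_zero] at h1
            refine h1.congr fun k => ?_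
            rw [inv_pow, inv_pow, div_eq_mul_inv]
          have h1 := (hcont.tendsto.comp htend)
          have h2 : ((fun z => f z l / f z j) ∘ fun k : ℕ => z / ((2 : ℂ) ^ (t - s)) ^ k) =
              fun _ => f z l / f z j := by
            funext k
            exact (hit k z).symm
          rw [h2] at h1
          exact tendsto_nhds_unique tendsto_const_nhds h1
        · push Not at hl
          intro z
          rw [hl z, hl 0, zero_div, zero_div]
      refine ⟨f z j / f 0 j, ?_⟩
      funext l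
      have h1 := hR l z
      have h2 := hj' z
      rw [Pi.smul_apply, smul_eq_mul]
      rw [div_eq_div_iff h2 hj] at h1
      field_simp
      linear_combination h1
    have hconst : ∀ z, ∃ c : ℂ, f z = c • f 0 := by
      rcases lt_or_gt_of_ne (fun h => hst (Fin.ext h) : (s : ℕ) ≠ t) with h | h
      · exact key s t D h hD hDE
      · refine key t s (fun l => (D l)⁻¹) h (fun l => inv_ne_zero (hD l)) fun z => ?_
        obtain ⟨c, hc⟩ := hDE z
        have hc0 : c ≠ 0 := by
          rintro rfl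
          rw [zero_smul] at hc
          exact (hf.2.1 _).1 hc
        refine ⟨c⁻¹, ?_⟩
        funext l
        have h1 := congrFun hc l
        simp only [Pi.smul_apply, smul_eq_mul] at h1 ⊢
        rw [h1]
        have := hD l
        field_simp
    obtain ⟨z, w, hzw⟩ := hf.2.2
    obtain ⟨c, hc⟩ := hconst z
    obtain ⟨c', hc'⟩ := hconst w
    have hc0 : c' ≠ 0 := by
      rintro rfl
      rw [zero_smul] at hc'
      exact (hf.2.1 w).1 hc'
    apply hzw (c / c')
    rw [hc, hc', smul_smul, div_mul_cancel₀ _ hc0]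
  · exact comp_weighted (hsurj s) hs

/-- **Main theorem.** -/
theorem trunc (n d : ℕ) : ∃ C : ℝ, 0 < C ∧ ∀ (E : Set (MvPolynomial (Fin (n + 1)) ℂ)),
    (∀ F ∈ E, ∃ e ≤ d, F.IsHomogeneous e) → ∀ (Q : MvPolynomial (Fin (n + 1)) ℂ) (q : ℕ), q ≤ d →
    Q.IsHomogeneous q → ∀ f : ℂ → Fin (n + 1) → ℂ, Cur E Q f →
    Weighted (d + 1) E Q f ∨ ∃ X : Set ℝ, volume X < ⊤ ∧ ∀ r, 0 < r → r ∉ X →
      Tm f r - Real.log ‖f 0‖ ≤ C * Nb f Q r := by
  obtain ⟨C, hC, h⟩ := dich n d
  refine ⟨8 * ((n + 1) * C) + 1, by positivity, ?_⟩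
  intro E hE Q q hq hQ f hf
  obtain ⟨j, hj⟩ : ∃ l, f 0 l ≠ 0 := Function.ne_iff.1 (hf.ne 0)
  have hfd := hf.df
  have hf0 := hf.ne
  have hfQ := hf.off
  rcases h E hE Q q hq hQ f hf j ⟨0, hj⟩ with hw | hin
  · exact Or.inl hw
  by_cases h0 : ∀ x, x ∉ zs f Q
  · exact Or.inl (unit_case hE hq hQ hf h0)
  right
  push Not at h0
  obtain ⟨x0, hx0⟩ := h0
  obtain ⟨X, C2, hX, hXr⟩ := ineq_grow hC hq hQ hfd hf0 ⟨0, hj⟩ hfQ hin
  set A : ℝ := (n + 1) * C with hA
  have hA0 : 0 ≤ A := by positivity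
  -- lower bound for the counting function
  obtain ⟨c4, hc4⟩ : ∃ c4 : ℝ, ∀ r, 1 ≤ r → ‖x0‖ ≤ r → Real.log r ≤ Nb f Q r + c4 := by
    refine ⟨|Real.log ‖x0‖|, fun r hr hxr => ?_⟩
    rw [Nb_eq hfd hfQ (by linarith)]
    have h1 : wgt r x0 ≤ ∑ x ∈ zz hfd hfQ r, wgt r x :=
      Finset.single_le_sum (f := fun x => wgt r x) (fun x _ => wgt_nonneg hr x)
        ((mem_zz hfd hfQ).2 ⟨hxr, hx0⟩)
    by_cases hx : x0 = 0
    · have h2 : wgt r x0 = Real.log r := by unfold wgt; rw [if_pos hx]
      have := abs_nonneg (Real.log ‖x0‖)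
      linarith
    · have h2 : wgt r x0 = Real.log r - Real.log ‖x0‖ := by
        unfold wgt
        rw [if_neg hx, if_pos hxr, Real.log_div (by linarith) (norm_ne_zero_iff.2 hx)]
      have := le_abs_self (Real.log ‖x0‖)
      linarith
  -- the bounded interval
  set c5 : ℝ := |6 * A * c4 + C2 - Real.log ‖f 0‖| with hc5
  set r0 : ℝ := max (max 1 ‖x0‖) (Real.exp (c5 + c4)) with hr0
  refine ⟨X ∪ Set.Icc 0 r0, ?_, fun r hr hrX => ?_⟩
  · refine lt_of_le_of_lt (measure_union_le X (Set.Icc 0 r0)) ?_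
    rw [Real.volume_Icc]
    exact ENNReal.add_lt_top.2 ⟨hX, ENNReal.ofReal_lt_top⟩
  · have hrX1 : r ∉ X := fun h => hrX (Or.inl h)
    have hrr0 : r0 < r := by
      by_contra h
      push Not at h
      exact hrX (Or.inr ⟨hr.le, h⟩)
    have h1 : 1 ≤ r := ((le_max_left _ _).trans (le_max_left _ _)).trans hrr0.le
    have h2 : ‖x0‖ ≤ r := ((le_max_right _ _).trans (le_max_left _ _)).trans hrr0.le
    have h3 : Real.exp (c5 + c4) ≤ r := (le_max_right _ _).trans hrr0.le
    have h4 := hXr r h1 hrX1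
    have h5 := hc4 r h1 h2
    have h6 : c5 + c4 ≤ Real.log r := by
      rw [Real.le_log_iff_exp_le (by linarith)]
      exact h3
    have h7 := le_abs_self (6 * A * c4 + C2 - Real.log ‖f 0‖)
    have h8 : 6 * A * Real.log r ≤ 6 * A * (Nb f Q r + c4) :=
      mul_le_mul_of_nonneg_left h5 (by positivity)
    have h9 : c5 ≤ Nb f Q r := by linarith
    linarith

end Pool.Agent.Q72.TR
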