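import Pool.Agent.Y189.DD.Fam
import Pool.Agent.Q72.SH.Set

/-!
Rational curves of bounded degree lie in a proper closed subset.
-/

set_option autoImplicit false

namespace Pool.Agent.Q72.TR

open MvPolynomial
open Pool.Agent.TH143.GT Pool.Agent.W602.GT Pool.Agent.TH143
open Pool.Agent.Y189.DD (gen gen_zero map_aeval_alg trdeg_fin)

variable {n : ℕ}

section

variable {p : Ideal (MvPolynomial (Fin (n + 1)) ℂ)} {Q : MvPolynomial (Fin (n + 1)) ℂ}
  {K : Type} [Field K] [Algebra ℂ K] {w : ℕ} {y : Fin (n + 1) → K}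

/-- the universal curve of degree `B` -/
noncomputable def UW (n B : ℕ) : Fin (n + 1) → Polynomial (MvPolynomial (Fin (n + 1) × Fin (B + 1)) ℂ) :=
  fun j => ∑ k : Fin (B + 1), Polynomial.C (X (j, k)) * Polynomial.X ^ (k : ℕ)

/-- the wronskian -/
noncomputable def wr {A : Type} [CommRing A] (W : Fin (n + 1) → Polynomial A) (a b : Fin (n + 1)) :
    Polynomial A := Polynomial.derivative (W a) * W b - W a * Polynomial.derivative (W b)

theorem map_wr {A A' : Type} [CommRing A] [CommRing A'] (g : A →+* A')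
    (W : Fin (n + 1) → Polynomial A) (a b : Fin (n + 1)) :
    (wr W a b).map g = wr (fun j => (W j).map g) a b := by
  unfold wr
  rw [Polynomial.map_sub, Polynomial.map_mul, Polynomial.map_mul, ← Polynomial.derivative_map,
    ← Polynomial.derivative_map]

/-- the equations -/
noncomputable def JJ (E : Set (MvPolynomial (Fin (n + 1)) ℂ)) (Q : MvPolynomial (Fin (n + 1)) ℂ)
    (B m : ℕ) : Ideal (MvPolynomial (Fin (n + 1) × Fin (B + 1)) ℂ) :=
  Ideal.span ({c | ∃ F ∈ E, ∃ k, c = (aeval (UW n B) F :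
    Polynomial (MvPolynomial (Fin (n + 1) × Fin (B + 1)) ℂ)).coeff k} ∪
    {c | ∃ k, k ≠ m ∧ c = (aeval (UW n B) Q :
    Polynomial (MvPolynomial (Fin (n + 1) × Fin (B + 1)) ℂ)).coeff k})

/-- one component -/
theorem comp_form (hy : FunField p Q K w y) (hno : ∀ r : K, AllFlat Q y r)
    {E : Set (MvPolynomial (Fin (n + 1)) ℂ)} (hp : p = Ideal.span E) {B m : ℕ}
    (q : Ideal (MvPolynomial (Fin (n + 1) × Fin (B + 1)) ℂ)) [hq : q.IsPrime]
    (hJ : JJ E Q B m ≤ q) (a b : Fin (n + 1)) :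
    (aeval (UW n B) Q : Polynomial (MvPolynomial (Fin (n + 1) × Fin (B + 1)) ℂ)).coeff m ∈ q ∨
    (∀ k, (wr (UW n B) a b).coeff k ∈ q) ∨
    ∃ G : MvPolynomial (Fin (n + 1)) ℂ, IsForm G ∧ G ∉ p ∧ ∀ k, (aeval (UW n B) G :
      Polynomial (MvPolynomial (Fin (n + 1) × Fin (B + 1)) ℂ)).coeff k ∈ q := by
  by_contra hcon
  push Not at hcon
  obtain ⟨hc, hw, hG⟩ := hcon
  let κ := Fin (n + 1) × Fin (B + 1)
  let M := FractionRing (MvPolynomial κ ℂ ⧸ q)
  let g : MvPolynomial κ ℂ →ₐ[ℂ] M := gen q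
  let W : Fin (n + 1) → Polynomial M := fun j => (UW n B j).map (g : MvPolynomial κ ℂ →+* M)
  have hWM : ∀ G : MvPolynomial (Fin (n + 1)) ℂ,
      (aeval (UW n B) G : Polynomial (MvPolynomial κ ℂ)).map (g : MvPolynomial κ ℂ →+* M) =
        aeval W G := fun G => map_aeval_alg g (UW n B) G
  have hz : ∀ P : Polynomial (MvPolynomial κ ℂ),
      P.map (g : MvPolynomial κ ℂ →+* M) = 0 ↔ ∀ k, P.coeff k ∈ q := by
    intro P
    constructor
    · intro h k
      have h1 := congrArg (fun q => Polynomial.coeff q k) h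
      simp only [Polynomial.coeff_map, Polynomial.coeff_zero] at h1
      exact (gen_zero q).1 h1
    · intro h
      ext k
      rw [Polynomial.coeff_map, Polynomial.coeff_zero]
      exact (gen_zero q).2 (h k)
  obtain ⟨t, ht⟩ := trdeg_fin κ q
  have hE : ∀ F ∈ p, (aeval W F : Polynomial M) = 0 := by
    intro F hF
    have h3 : p ≤ RingHom.ker (aeval W : MvPolynomial (Fin (n + 1)) ℂ →ₐ[ℂ] Polynomial M) := by
      rw [hp, Ideal.span_le]
      intro F hF
      change (aeval W F : Polynomial M) = 0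
      rw [← hWM, hz]
      intro k
      exact hJ (Ideal.subset_span (Or.inl ⟨F, hF, k, rfl⟩))
    exact h3 hF
  have hF : Fam y Q W m := by
    refine ⟨fun G hGf => ⟨fun h0 => hE G (hy.mem G hGf h0), fun h0 => ?_⟩,
      g ((aeval (UW n B) Q : Polynomial (MvPolynomial κ ℂ)).coeff m), ?_, ?_⟩
    · by_contra h1
      have h2 : G ∉ p := fun h3 => h1 (hy.sub.mem G h3)
      obtain ⟨k, hk⟩ := hG G hGf h2
      rw [← hWM, hz] at h0
      exact hk (h0 k)
    · intro h0
      exact hc ((gen_zero q).1 h0)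
    · ext k
      rw [← hWM, Polynomial.coeff_map, Polynomial.coeff_C_mul_X_pow]
      split_ifs with h1
      · rw [h1]
        rfl
      · exact (gen_zero q).2 (hJ (Ideal.subset_span (Or.inr ⟨k, h1, rfl⟩)))
  have hwr : wr W a b ≠ 0 := by
    obtain ⟨k, hk⟩ := hw
    intro h0
    apply hk
    have h1 := map_wr (g : MvPolynomial κ ℂ →+* M) (UW n B) a b
    have h2 : (wr (UW n B) a b).map (g : MvPolynomial κ ℂ →+* M) = 0 := by
      rw [h1]
      exact h0
    exact (hz _).1 h2 k
  have hyb : y b ≠ 0 := by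
    intro h0
    apply hwr
    have h1 : W b = 0 := by
      by_contra h2
      exact (hF.ne b).2 h2 h0
    unfold wr
    rw [h1, mul_zero, Polynomial.derivative_zero, mul_zero, sub_zero]
  have h3 := hno (y a / y b) M t W m ht hF 1 (X a) (X b) (isHomogeneous_X _ _)
    (isHomogeneous_X _ _) (by rw [Pool.Agent.TH143.GT.val_X]; exact hyb)
    (by rw [Pool.Agent.TH143.GT.val_X, Pool.Agent.TH143.GT.val_X])
  rw [aeval_X, aeval_X] at h3
  exact hwr (sub_eq_zero.2 h3)

open Classical in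
/-- **Rational curves of bounded degree.** -/
theorem bd_form (hy : FunField p Q K w y) (hno : ∀ r : K, AllFlat Q y r)
    {E : Set (MvPolynomial (Fin (n + 1)) ℂ)} (hp : p = Ideal.span E) (B : ℕ) :
    ∃ G : MvPolynomial (Fin (n + 1)) ℂ, IsForm G ∧ G ∉ p ∧
      ∀ W : Fin (n + 1) → Polynomial ℂ, (∀ l, (W l).natDegree ≤ B) →
        (∀ F ∈ E, (aeval W F : Polynomial ℂ) = 0) →
        (∃ c m, c ≠ 0 ∧ (aeval W Q : Polynomial ℂ) = Polynomial.C c * Polynomial.X ^ m) →
        (∃ a b, wr W a b ≠ 0) → (aeval W G : Polynomial ℂ) = 0 := by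
  let κ := Fin (n + 1) × Fin (B + 1)
  have key : ∀ (m : ℕ) (q : Ideal (MvPolynomial κ ℂ)) (a b : Fin (n + 1)),
      ∃ G : MvPolynomial (Fin (n + 1)) ℂ, IsForm G ∧ G ∉ p ∧ (q.IsPrime → JJ E Q B m ≤ q →
        (aeval (UW n B) Q : Polynomial (MvPolynomial κ ℂ)).coeff m ∈ q ∨
        (∀ k, (wr (UW n B) a b).coeff k ∈ q) ∨
        ∀ k, (aeval (UW n B) G : Polynomial (MvPolynomial κ ℂ)).coeff k ∈ q) := by
    intro m q a b
    have h1 : (1 : MvPolynomial (Fin (n + 1)) ℂ) ∉ p := by
      intro h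
      have := hy.sub.mem 1 h
      unfold W602.GT.val at this
      rw [map_one] at this
      exact one_ne_zero this
    by_cases hq : q.IsPrime ∧ JJ E Q B m ≤ q
    · obtain ⟨hq1, hq2⟩ := hq
      rcases comp_form hy hno hp q hq2 a b with h | h | ⟨G, hG1, hG2, hG3⟩
      · exact ⟨1, ⟨0, isHomogeneous_one _ _⟩, h1, fun _ _ => Or.inl h⟩
      · exact ⟨1, ⟨0, isHomogeneous_one _ _⟩, h1, fun _ _ => Or.inr (Or.inl h)⟩
      · exact ⟨G, hG1, hG2, fun _ _ => Or.inr (Or.inr hG3)⟩
    · exact ⟨1, ⟨0, isHomogeneous_one _ _⟩, h1, fun h2 h3 => absurd ⟨h2, h3⟩ hq⟩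
  choose G hG1 hG2 hG3 using key
  set mm : ℕ := (aeval (UW n B) Q : Polynomial (MvPolynomial κ ℂ)).natDegree with hmm
  have hfin : ∀ m, (JJ E Q B m).minimalPrimes.Finite := fun m =>
    Ideal.finite_minimalPrimes_of_isNoetherianRing _ _
  set GG : MvPolynomial (Fin (n + 1)) ℂ := ∏ m ∈ Finset.range (mm + 1),
    ∏ q ∈ (hfin m).toFinset, ∏ a, ∏ b, G m q a b with hGG
  refine ⟨GG, ?_, ?_, ?_⟩
  · choose de hde using hG1
    refine ⟨∑ m ∈ Finset.range (mm + 1), ∑ q ∈ (hfin m).toFinset, ∑ a, ∑ b, de m q a b, ?_⟩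
    exact IsHomogeneous.prod _ _ _ fun m _ => IsHomogeneous.prod _ _ _ fun q _ =>
      IsHomogeneous.prod _ _ _ fun a _ => IsHomogeneous.prod _ _ _ fun b _ => hde m q a b
  · intro hmem
    have h1 := hy.sub.mem _ hmem
    unfold Pool.Agent.W602.GT.val at h1
    rw [hGG, map_prod] at h1
    obtain ⟨m, -, h1⟩ := Finset.prod_eq_zero_iff.1 h1
    rw [map_prod] at h1
    obtain ⟨q, -, h1⟩ := Finset.prod_eq_zero_iff.1 h1
    rw [map_prod] at h1
    obtain ⟨a, -, h1⟩ := Finset.prod_eq_zero_iff.1 h1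
    rw [map_prod] at h1
    obtain ⟨b, -, h1⟩ := Finset.prod_eq_zero_iff.1 h1
    exact hG2 m q a b (hy.mem _ (hG1 m q a b) h1)
  · intro W hWB hWE hWQ hWn
    obtain ⟨c, m, hc, hcm⟩ := hWQ
    obtain ⟨a, b, hab⟩ := hWn
    -- the evaluation
    let pt : κ → ℂ := fun k => (W k.1).coeff k.2
    have hW0 : ∀ j, (UW n B j).map (eval pt) = W j := by
      intro j
      have h1 := Polynomial.as_sum_range' (W j) (B + 1) (Nat.lt_succ_of_le (hWB j))
      rw [h1, ← Fin.sum_univ_eq_sum_range (fun k => Polynomial.monomial k ((W j).coeff k))]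
      simp only [UW, Polynomial.map_sum]
      refine Finset.sum_congr rfl fun k _ => ?_
      rw [Polynomial.map_mul, Polynomial.map_C, Polynomial.map_pow, Polynomial.map_X, eval_X,
        Polynomial.C_mul_X_pow_eq_monomial]
    have hWG : ∀ G : MvPolynomial (Fin (n + 1)) ℂ,
        (aeval (UW n B) G : Polynomial (MvPolynomial κ ℂ)).map (eval pt) = aeval W G := by
      intro G
      have h1 := map_aeval_alg (aeval pt : MvPolynomial κ ℂ →ₐ[ℂ] ℂ) (UW n B) G
      have h2 : ((aeval pt : MvPolynomial κ ℂ →ₐ[ℂ] ℂ) : MvPolynomial κ ℂ →+* ℂ) = eval pt := by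
        ext x <;> simp
      rw [h2] at h1
      rw [h1]
      congr 2
      funext j
      exact hW0 j
    have hcf : ∀ (G : MvPolynomial (Fin (n + 1)) ℂ) (k : ℕ),
        eval pt ((aeval (UW n B) G : Polynomial (MvPolynomial κ ℂ)).coeff k) =
          (aeval W G : Polynomial ℂ).coeff k := by
      intro G k
      rw [← hWG, Polynomial.coeff_map]
    have hJ : JJ E Q B m ≤ RingHom.ker (eval pt) := by
      unfold JJ
      rw [Ideal.span_le]
      rintro x (⟨F, hF, k, rfl⟩ | ⟨k, hk, rfl⟩)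
      · change eval pt _ = 0
        rw [hcf, hWE F hF, Polynomial.coeff_zero]
      · change eval pt _ = 0
        rw [hcf, hcm, Polynomial.coeff_C_mul_X_pow, if_neg hk]
    have hker : (RingHom.ker (eval pt)).IsPrime := RingHom.ker_isPrime _
    obtain ⟨q, hq, hqk⟩ := Ideal.exists_minimalPrimes_le hJ
    have hqp : q.IsPrime := hq.1.1
    have hqJ : JJ E Q B m ≤ q := hq.1.2
    have hm : m ∈ Finset.range (mm + 1) := by
      rw [Finset.mem_range]
      by_contra h
      push Not at h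
      apply hc
      have h1 : (aeval (UW n B) Q : Polynomial (MvPolynomial κ ℂ)).coeff m = 0 :=
        Polynomial.coeff_eq_zero_of_natDegree_lt (by omega)
      have h2 := hcf Q m
      rw [h1, map_zero, hcm, Polynomial.coeff_C_mul_X_pow, if_pos rfl] at h2
      exact h2.symm
    rcases hG3 m q a b hqp hqJ with h | h | h
    · exfalso
      apply hc
      have h1 : eval pt ((aeval (UW n B) Q : Polynomial (MvPolynomial κ ℂ)).coeff m) = 0 :=
        hqk h
      rw [hcf, hcm, Polynomial.coeff_C_mul_X_pow, if_pos rfl] at h1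
      exact h1
    · exfalso
      apply hab
      have h1 := map_wr (eval pt) (UW n B) a b
      have h2 : (fun j => (UW n B j).map (eval pt)) = W := funext hW0
      rw [h2] at h1
      rw [← h1]
      ext k
      rw [Polynomial.coeff_map, Polynomial.coeff_zero]
      exact hqk (h k)
    · have h1 : (aeval W (G m q a b) : Polynomial ℂ) = 0 := by
        ext k
        rw [← hcf, Polynomial.coeff_zero]
        exact hqk (h k)
      rw [hGG, map_prod]
      apply Finset.prod_eq_zero hm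
      rw [map_prod]
      apply Finset.prod_eq_zero ((hfin m).mem_toFinset.2 hq)
      rw [map_prod]
      apply Finset.prod_eq_zero (Finset.mem_univ a)
      rw [map_prod]
      exact Finset.prod_eq_zero (Finset.mem_univ b) h1

end

end Pool.Agent.Q72.TR
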