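import Pool.Agent.Q72.TR.Theta

/-!
Good circles for arbitrary finite families of entire functions.
-/

set_option autoImplicit false

namespace Pool.Agent.Q72.TR

open Filter Metric Real Set Topology Pool.Agent.H159R3.NV Pool.Agent.W602.NC MeromorphicOn

/-- the factor `z ^ k` of an entire function -/
theorem trail : ∀ (k : ℕ) (F : ℂ → ℂ), Differentiable ℂ F → (∃ y, F y ≠ 0) → oo F 0 = k →
    ∃ H : ℂ → ℂ, Differentiable ℂ H ∧ H 0 ≠ 0 ∧ ∀ z, F z = z ^ k * H z := by
  intro k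
  induction k with
  | zero =>
    intro F hF h0 hk
    refine ⟨F, hF, ?_, fun z => by rw [pow_zero, one_mul]⟩
    intro h
    have h1 := oo_cast hF h0 0
    rw [hk, Nat.cast_zero] at h1
    exact ((hF.analyticAt 0).analyticOrderAt_eq_zero.1 h1.symm) h
  | succ k ih =>
    intro F hF h0 hk
    have hF0 : F 0 = 0 := by
      by_contra h
      rw [oo_zero hF h] at hk
      omega
    have hG : Differentiable ℂ (dslope F 0) := by
      rw [← differentiableOn_univ] at hF ⊢
      exact (Complex.differentiableOn_dslope univ_mem).2 hF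
    have hFG : ∀ z, F z = z * dslope F 0 z := by
      intro z
      have := sub_smul_dslope F 0 z
      rw [sub_zero, smul_eq_mul, hF0, sub_zero] at this
      exact this.symm
    have hG0 : ∃ y, dslope F 0 y ≠ 0 := by
      obtain ⟨y, hy⟩ := h0
      rw [hFG] at hy
      exact ⟨y, right_ne_zero_of_mul hy⟩
    have hGk : oo (dslope F 0) 0 = k := by
      have e : F = id * dslope F 0 := by
        funext z
        exact hFG z
      have h1 : oo F 0 = oo id 0 + oo (dslope F 0) 0 := by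
        conv_lhs => rw [e]
        exact analyticOrderNatAt_mul analyticAt_id (hG.analyticAt 0)
          (fin_ord differentiable_id ⟨1, one_ne_zero⟩ 0) (fin_ord hG hG0 0)
      have h2 : oo id 0 = 1 := by
        have h3 : analyticOrderAt (id : ℂ → ℂ) 0 = 1 := by
          have := (analyticAt_id (𝕜 := ℂ) (z := (0 : ℂ))).analyticOrderAt_deriv_add_one
          have h4 : analyticOrderAt (deriv (id : ℂ → ℂ)) 0 = 0 := by
            have h5 : deriv (id : ℂ → ℂ) = fun _ => 1 := by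
              funext z
              exact deriv_id z
            rw [h5]
            exact (analyticAt_const).analyticOrderAt_eq_zero.2 one_ne_zero
          rw [h4] at this
          simp
        unfold oo analyticOrderNatAt
        rw [h3]
        rfl
      omega
    obtain ⟨H, hH, hH0, hHz⟩ := ih _ hG hG0 hGk
    refine ⟨H, hH, hH0, fun z => ?_⟩
    rw [hFG z, hHz z]
    ring

theorem posLog_mul_le' {a c : ℝ} (ha : 0 ≤ a) (hc : 1 ≤ c) :
    Real.posLog (a * c) ≤ Real.posLog a + Real.log c := by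
  have h1 : Real.posLog (a * c) ≤ Real.posLog a + Real.posLog c := Real.posLog_mul
  have h2 : Real.posLog c = Real.log c := by
    rw [Real.posLog_apply, max_eq_right (Real.log_nonneg hc)]
  rw [h2] at h1
  exact h1

/-- **Good circles.** -/
theorem good_family {p : ℕ} (g : Fin (p + 1) → ℂ → ℂ) (hg : ∀ j, Differentiable ℂ (g j))
    (hne : ∀ j, ∃ y, g j y ≠ 0) : ∃ Λ B : ℝ, 0 ≤ Λ ∧ 1 ≤ B ∧ ∀ r δ M : ℝ, 1 ≤ r → 0 < δ → δ ≤ 1 →
    (∀ j, T2 (g 0) (g j) (r + 4 * δ) ≤ M) → 0 ≤ M → ∃ s ε : ℝ, r ≤ s ∧ s ≤ r + δ ∧ 0 < ε ∧ ε ≤ 1 ∧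
      1 / ε ≤ 4 * (1000 * (r + 4 * δ) ^ 3 * ((p + 1) * (M + Λ) + 1) ^ 2 / δ ^ 4) ∧
      (∀ z, ‖z‖ = s → ∀ j, ∀ w ∈ closedBall z ε, g j w ≠ 0) ∧
      (∀ z, ‖z‖ = s → ∀ i j, ∀ w ∈ closedBall z ε,
        ‖g j w / g i w‖ ≤ B * ‖g j z / g i z‖) := by
  have h1 := fun j => trail (oo (g j) 0) (g j) (hg j) (hne j) rfl
  choose v hv hv0 hgv using h1
  set k : Fin (p + 1) → ℕ := fun j => oo (g j) 0 with hk
  set Λ : ℝ := ∑ j, |Real.log ‖v j 0‖| with hΛ
  have hΛ0 : 0 ≤ Λ := Finset.sum_nonneg fun j _ => abs_nonneg _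
  have hB : Base v Λ := ⟨hv, hv0, hΛ0, fun j =>
    Finset.single_le_sum (f := fun j => |Real.log ‖v j 0‖|) (fun j _ => abs_nonneg _)
      (Finset.mem_univ j)⟩
  set K : ℕ := ∑ j, k j with hK
  have hkK : ∀ j, k j ≤ K := fun j => Finset.single_le_sum (fun j _ => Nat.zero_le _)
    (Finset.mem_univ j)
  refine ⟨Λ, Real.exp 1 * 4 ^ K, hΛ0, ?_, ?_⟩
  · have h2 : (1 : ℝ) ≤ Real.exp 1 := Real.one_le_exp zero_le_one
    have h3 : (1 : ℝ) ≤ 4 ^ K := one_le_pow₀ (by norm_num)
    nlinarith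
  intro r δ M hr hδ hδ1 hM hM0
  obtain ⟨s, ε, hrs, hsδ, hε, hε1, hεX, h0, hb⟩ := hB.good hr hδ hδ1
  have hs1 : 1 ≤ s := hr.trans hrs
  have hR : 1 ≤ r + 4 * δ := by linarith
  have hR0 : 0 < r + 4 * δ := by linarith
  -- comparison of the characteristics
  have hT : ∀ j, T2 (v 0) (v j) (r + 4 * δ) ≤ T2 (g 0) (g j) (r + 4 * δ) := by
    intro j
    set R := r + 4 * δ with hRdef
    have hL : L (g 0) R = k 0 * Real.log R + L (v 0) R := by
      have e : g 0 = fun z => z ^ k 0 * v 0 z := funext fun z => hgv 0 z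
      have h2 := L_mul (f := fun z => z ^ k 0) (g := v 0) (differentiable_id.pow (k 0)) (hv 0)
        (x := 1) (y := 0) (by simp) (hv0 0) hR0.ne'
      rw [← e] at h2
      rw [h2]
      congr 1
      rw [L_pow (f := fun z => z)]
      congr 1
      unfold L
      have h3 : Real.circleAverage (fun z => Real.log ‖z‖) 0 R =
          Real.circleAverage (fun _ => Real.log R) 0 R := by
        apply Real.circleAverage_congr_sphere
        intro z hz
        change Real.log ‖z‖ = Real.log R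
        rw [sph_norm hR0 hz]
      rw [h3, Real.circleAverage_const]
    have hav : Real.circleAverage (fun z => Real.posLog ‖v j z / v 0 z‖) 0 R ≤
        Real.circleAverage (fun z => Real.posLog ‖g j z / g 0 z‖ + k 0 * Real.log R) 0 R := by
      have i1 : CircleIntegrable (fun z => Real.posLog ‖v j z / v 0 z‖) 0 R :=
        ci_posLog (quot_mero (hv 0) (hv j)) R
      have i2 : CircleIntegrable (fun z => Real.posLog ‖g j z / g 0 z‖ + k 0 * Real.log R) 0 R :=
        (ci_posLog (quot_mero (hg 0) (hg j)) R).add (circleIntegrable_const _ _ _)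
      apply Real.circleAverage_mono i1 i2
      intro z hz
      have hz' := sph_norm hR0 hz
      have hz0 : z ≠ 0 := by
        rintro rfl
        rw [norm_zero] at hz'
        linarith
      change Real.posLog ‖v j z / v 0 z‖ ≤ Real.posLog ‖g j z / g 0 z‖ + k 0 * Real.log R
      have h2 : ‖v j z / v 0 z‖ ≤ ‖g j z / g 0 z‖ * R ^ k 0 := by
        rw [hgv j z, hgv 0 z, norm_div, norm_div, norm_mul, norm_mul, norm_pow, norm_pow, hz']
        have h3 : ‖v j z‖ ≤ R ^ (oo (g j) 0) * ‖v j z‖ :=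
          le_mul_of_one_le_left (norm_nonneg _) (one_le_pow₀ hR)
        have h4 : 0 < R ^ (oo (g 0) 0) := by positivity
        rw [div_mul_eq_mul_div]
        by_cases h5 : ‖v 0 z‖ = 0
        · rw [h5]
          simp
        · have h6 : 0 < ‖v 0 z‖ := lt_of_le_of_ne (norm_nonneg _) (Ne.symm h5)
          rw [div_le_div_iff₀ h6 (by positivity)]
          have h7 : R ^ k 0 = R ^ (oo (g 0) 0) := rfl
          rw [h7]
          nlinarith [mul_le_mul_of_nonneg_right h3 (mul_nonneg h4.le h6.le)]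
      have h8 : Real.posLog ‖v j z / v 0 z‖ ≤ Real.posLog (‖g j z / g 0 z‖ * R ^ k 0) :=
        Real.posLog_le_posLog (norm_nonneg _) h2
      have h9 := posLog_mul_le' (norm_nonneg (g j z / g 0 z)) (one_le_pow₀ hR (n := k 0))
      rw [Real.log_pow] at h9
      exact h8.trans h9
    rw [Real.circleAverage_fun_add (ci_posLog (quot_mero (hg 0) (hg j)) R)
      (circleIntegrable_const _ _ _), Real.circleAverage_const] at hav
    unfold T2
    linarith
  have hSS : SS v Λ (r + 4 * δ) ≤ (p + 1) * (M + Λ) := by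
    unfold SS
    calc ∑ j, (T2 (v 0) (v j) (r + 4 * δ) + Λ) ≤ ∑ _j : Fin (p + 1), (M + Λ) :=
          Finset.sum_le_sum fun j _ => by linarith [hT j, hM j]
      _ = (p + 1) * (M + Λ) := by simp; ring
  have hSS0 := hB.SS_nonneg (R := r + 4 * δ) hR0
  have hsmall : ∀ z : ℂ, ‖z‖ = s → ∀ w ∈ closedBall z (ε / 2), w ∈ closedBall z ε ∧ s / 2 ≤ ‖w‖ ∧
      ‖w‖ ≤ 2 * s := by
    intro z hz w hw
    rw [mem_closedBall, dist_eq_norm] at hw
    refine ⟨by rw [mem_closedBall, dist_eq_norm]; linarith, ?_, ?_⟩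
    · have h2 : ‖z‖ - ‖w - z‖ ≤ ‖w‖ := by
        have := norm_sub_norm_le z (z - w)
        rw [sub_sub_cancel, norm_sub_rev z w] at this
        exact this
      rw [hz] at h2
      linarith
    · have h2 : ‖w‖ ≤ ‖z‖ + ‖w - z‖ := by
        calc ‖w‖ = ‖z + (w - z)‖ := by congr 1; ring
          _ ≤ _ := norm_add_le _ _
      rw [hz] at h2
      linarith
  refine ⟨s, ε / 2, hrs, hsδ, by positivity, by linarith, ?_, ?_, ?_⟩
  · have h2 : 1 / (ε / 2) = 2 * (1 / ε) := by field_simp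
    rw [h2]
    have h3 : 1000 * (r + 4 * δ) ^ 3 * (SS v Λ (r + 4 * δ) + 1) ^ 2 / δ ^ 4 ≤
        1000 * (r + 4 * δ) ^ 3 * ((p + 1) * (M + Λ) + 1) ^ 2 / δ ^ 4 := by
      gcongr
    linarith
  · intro z hz j w hw
    obtain ⟨h2, h3, -⟩ := hsmall z hz w hw
    rw [hgv j w]
    apply mul_ne_zero _ (h0 z hz j w h2)
    apply pow_ne_zero
    rintro rfl
    rw [norm_zero] at h3
    linarith
  · intro z hz i j w hw
    obtain ⟨h2, h3, h4⟩ := hsmall z hz w hw
    have hw0 : 0 < ‖w‖ := by linarith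
    have hz0 : 0 < ‖z‖ := by rw [hz]; linarith
    have h5 := hb z hz i j w h2
    have e1 : ∀ u : ℂ, ‖g j u / g i u‖ = (‖u‖ ^ k j / ‖u‖ ^ k i) * ‖v j u / v i u‖ := by
      intro u
      rw [hgv j u, hgv i u, norm_div, norm_div, norm_mul, norm_mul, norm_pow, norm_pow,
        mul_div_mul_comm]
    rw [e1 w, e1 z]
    have h6 : ‖w‖ ^ k j / ‖w‖ ^ k i ≤ 4 ^ K * (‖z‖ ^ k j / ‖z‖ ^ k i) := by
      have h7 : ‖w‖ ^ k j ≤ 2 ^ K * ‖z‖ ^ k j := by
        calc ‖w‖ ^ k j ≤ (2 * ‖z‖) ^ k j := by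
              rw [hz]
              exact pow_le_pow_left₀ hw0.le h4 _
          _ = 2 ^ k j * ‖z‖ ^ k j := mul_pow _ _ _
          _ ≤ 2 ^ K * ‖z‖ ^ k j := by
              apply mul_le_mul_of_nonneg_right _ (by positivity)
              exact pow_le_pow_right₀ (by norm_num) (hkK j)
      have h8 : ‖z‖ ^ k i ≤ 2 ^ K * ‖w‖ ^ k i := by
        calc ‖z‖ ^ k i ≤ (2 * ‖w‖) ^ k i := by
              apply pow_le_pow_left₀ hz0.le
              rw [hz]
              linarith
          _ = 2 ^ k i * ‖w‖ ^ k i := mul_pow _ _ _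
          _ ≤ 2 ^ K * ‖w‖ ^ k i := by
              apply mul_le_mul_of_nonneg_right _ (by positivity)
              exact pow_le_pow_right₀ (by norm_num) (hkK i)
      have h9 : (4 : ℝ) ^ K = 2 ^ K * 2 ^ K := by
        rw [← mul_pow]
        norm_num
      rw [← mul_div_assoc, div_le_div_iff₀ (by positivity) (by positivity), h9]
      calc ‖w‖ ^ k j * ‖z‖ ^ k i ≤ (2 ^ K * ‖z‖ ^ k j) * (2 ^ K * ‖w‖ ^ k i) :=
            mul_le_mul h7 h8 (by positivity) (by positivity)
        _ = _ := by ring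
    calc ‖w‖ ^ k j / ‖w‖ ^ k i * ‖v j w / v i w‖ ≤
        (4 ^ K * (‖z‖ ^ k j / ‖z‖ ^ k i)) * (Real.exp 1 * ‖v j z / v i z‖) :=
          mul_le_mul h6 h5 (norm_nonneg _) (by positivity)
      _ = _ := by ring

end Pool.Agent.Q72.TR
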