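import Pool.Agent.Q72.TR.Dich

/-!
Growth: from good circles to all radii outside of a set of finite measure.
-/

set_option autoImplicit false

namespace Pool.Agent.Q72.TR

open Filter Metric Real Set Topology Pool.Agent.H159R3.NV Pool.Agent.W602.NC MeromorphicOn
open MvPolynomial MeasureTheory
open Pool.Agent.Q72.SH (coord_diff eval_diff)

/-- **Borel's growth lemma.** -/
theorem borel (u : ℝ → ℝ) (h1 : ∀ r, 1 ≤ r → 1 ≤ u r) (hm : ∀ r R, 1 ≤ r → r ≤ R → u r ≤ u R) :
    volume {r : ℝ | 1 ≤ r ∧ 2 * u r < u (r + 1 / u r)} < ⊤ := by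
  set E : ℕ → Set ℝ := fun k => {r | (1 ≤ r ∧ 2 * u r < u (r + 1 / u r)) ∧
    (2 : ℝ) ^ k ≤ u r ∧ u r < 2 ^ (k + 1)} with hE
  have hsub : {r : ℝ | 1 ≤ r ∧ 2 * u r < u (r + 1 / u r)} ⊆ ⋃ k, E k := by
    intro r hr
    rw [Set.mem_iUnion]
    obtain ⟨k, hk1, hk2⟩ := exists_nat_pow_near (h1 r hr.1) (by norm_num : (1 : ℝ) < 2)
    exact ⟨k, hr, hk1, hk2⟩
  have hd : ∀ k, volume (E k) ≤ (2⁻¹ : ENNReal) ^ k := by
    intro k
    refine (Real.volume_le_diam (E k)).trans ?_
    refine Metric.ediam_le ?_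
    have key : ∀ x ∈ E k, ∀ y ∈ E k, x ≤ y → edist x y ≤ (2⁻¹ : ENNReal) ^ k := by
      intro x hx y hy hxy
      have hux := h1 x hx.1.1
      have h2 : y < x + 1 / u x := by
        by_contra h
        push Not at h
        have h3 := hm (x + 1 / u x) y (by
          have : 0 < 1 / u x := by positivity
          linarith [hx.1.1]) h
        have h4 := hx.1.2
        have h5 := hx.2.1
        have h6 := hy.2.2
        rw [pow_succ] at h6
        linarith
      have h3 : dist x y ≤ (2⁻¹ : ℝ) ^ k := by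
        rw [dist_comm, Real.dist_eq, abs_of_nonneg (by linarith)]
        have h4 : 1 / u x ≤ (2⁻¹ : ℝ) ^ k := by
          rw [inv_pow, ← one_div]
          exact one_div_le_one_div_of_le (by positivity) hx.2.1
        linarith
      rw [edist_dist]
      refine (ENNReal.ofReal_le_ofReal h3).trans (le_of_eq ?_)
      rw [ENNReal.ofReal_pow (by norm_num), ENNReal.ofReal_inv_of_pos (by norm_num)]
      norm_num
    intro x hx y hy
    rcases le_total x y with h | h
    · exact key x hx y hy h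
    · rw [edist_comm]
      exact key y hy x hx h
  calc volume {r : ℝ | 1 ≤ r ∧ 2 * u r < u (r + 1 / u r)} ≤ volume (⋃ k, E k) :=
        measure_mono hsub
    _ ≤ ∑' k, volume (E k) := measure_iUnion_le E
    _ ≤ ∑' k, (2⁻¹ : ENNReal) ^ k := ENNReal.tsum_le_tsum hd
    _ = 2 := by rw [ENNReal.tsum_geometric, ENNReal.one_sub_inv_two, inv_inv]
    _ < ⊤ := by norm_num

/-- comparison of the weights for three radii -/
theorem wgt_comp {r s R : ℝ} (hr : 1 ≤ r) (hrs : r ≤ s) (hsR : s < R) (x : ℂ) :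
    wgt s x ≤ wgt r x + Real.log (s / r) / Real.log (R / s) * wgt R x := by
  have hr0 : 0 < r := by linarith
  have hs0 : 0 < s := by linarith
  have hR0 : 0 < R := by linarith
  have h1 : 0 ≤ Real.log (s / r) := Real.log_nonneg (by rw [le_div_iff₀ hr0]; linarith)
  have h2 : 0 < Real.log (R / s) := Real.log_pos (by rw [lt_div_iff₀ hs0]; linarith)
  have hlam : 0 ≤ Real.log (s / r) / Real.log (R / s) := by positivity
  have h3 : Real.log (s / r) / Real.log (R / s) * Real.log (R / s) = Real.log (s / r) :=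
    div_mul_cancel₀ _ h2.ne'
  have h4 : Real.log (s / r) = Real.log s - Real.log r := Real.log_div hs0.ne' hr0.ne'
  have h5 : Real.log (R / s) = Real.log R - Real.log s := Real.log_div hR0.ne' hs0.ne'
  have key : Real.log (R / s) ≤ wgt R x → Real.log (s / r) ≤
      Real.log (s / r) / Real.log (R / s) * wgt R x := by
    intro h
    calc Real.log (s / r) = Real.log (s / r) / Real.log (R / s) * Real.log (R / s) := h3.symm
      _ ≤ _ := mul_le_mul_of_nonneg_left h hlam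
  have hrx := wgt_nonneg hr x
  by_cases hx : x = 0
  · have h6 : ∀ t, wgt t x = Real.log t := fun t => by unfold wgt; rw [if_pos hx]
    have h7 := key (by
      rw [h6, h5]
      have := Real.log_nonneg (hr.trans hrs)
      linarith)
    simp only [h6] at h7 ⊢
    linarith
  · have hx0 : 0 < ‖x‖ := norm_pos_iff.2 hx
    by_cases hxs : ‖x‖ ≤ s
    · have h6 : wgt s x = Real.log (s / ‖x‖) := by unfold wgt; rw [if_neg hx, if_pos hxs]
      have h7 : wgt R x = Real.log (R / ‖x‖) := by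
        unfold wgt
        rw [if_neg hx, if_pos (hxs.trans hsR.le)]
      have h8 : Real.log ‖x‖ ≤ Real.log s := Real.log_le_log hx0 hxs
      rw [Real.log_div hs0.ne' hx0.ne'] at h6
      rw [Real.log_div hR0.ne' hx0.ne'] at h7
      have h9 := key (by rw [h7, h5]; linarith)
      by_cases hxr : ‖x‖ ≤ r
      · have h10 : wgt r x = Real.log (r / ‖x‖) := by unfold wgt; rw [if_neg hx, if_pos hxr]
        rw [Real.log_div hr0.ne' hx0.ne'] at h10
        linarith
      · have h11 : Real.log r ≤ Real.log ‖x‖ := Real.log_le_log hr0 (by linarith)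
        linarith
    · have h6 : wgt s x = 0 := by unfold wgt; rw [if_neg hx, if_neg hxs]
      rw [h6]
      have h7 := wgt_nonneg (by linarith : 1 ≤ R) x
      positivity

variable {n : ℕ} {f : ℂ → Fin (n + 1) → ℂ} {Q : MvPolynomial (Fin (n + 1)) ℂ}

theorem Nb_nonneg (hf : Differentiable ℂ f) (hQ : ∃ y, eval (f y) Q ≠ 0) {s : ℝ} (hs : 1 ≤ s) :
    0 ≤ Nb f Q s := by
  rw [Nb_eq hf hQ (by linarith)]
  exact Finset.sum_nonneg fun x _ => wgt_nonneg hs x

theorem Nb_comp (hf : Differentiable ℂ f) (hQ : ∃ y, eval (f y) Q ≠ 0) {r s R : ℝ} (hr : 1 ≤ r)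
    (hrs : r ≤ s) (hsR : s < R) :
    Nb f Q s ≤ Nb f Q r + Real.log (s / r) / Real.log (R / s) * Nb f Q R := by
  have h1 : ∀ t, 0 ≤ t → t ≤ R → Nb f Q t = ∑ x ∈ zz hf hQ R, wgt t x := by
    intro t ht htR
    rw [Nb_eq hf hQ ht]
    apply Finset.sum_subset
    · intro x hx
      rw [mem_zz] at hx ⊢
      exact ⟨hx.1.trans htR, hx.2⟩
    · intro x hx hxt
      rw [mem_zz] at hx hxt
      unfold wgt
      have h2 : ¬ ‖x‖ ≤ t := fun h => hxt ⟨h, hx.2⟩
      rw [if_neg, if_neg h2]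
      rintro rfl
      rw [norm_zero] at h2
      exact h2 ht
  rw [h1 s (by linarith) hsR.le, h1 r (by linarith) (by linarith), h1 R (by linarith) le_rfl,
    Finset.mul_sum, ← Finset.sum_add_distrib]
  exact Finset.sum_le_sum fun x _ => wgt_comp hr hrs hsR x

theorem L_le_Tm (hf : Differentiable ℂ f) (h0 : ∀ z, f z ≠ 0) {g : ℂ → ℂ}
    (hg : Differentiable ℂ g) (hg0 : ∃ y, g y ≠ 0) {c : ℝ} (hc : 0 < c) {k : ℕ}
    (hgc : ∀ z, ‖g z‖ ≤ c * ‖f z‖ ^ k) {r : ℝ} (hr : r ≠ 0) :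
    L g r ≤ k * Tm f r + Real.log c := by
  have h1 := T2_le' hf h0 hg hg hg0 hc hgc hgc hr
  have h2 : L g r ≤ T2 g g r := T2_ge_L0 g g r
  linarith

/-- bound for a form -/
theorem eval_bound {Q : MvPolynomial (Fin (n + 1)) ℂ} {q : ℕ} (hQ : Q.IsHomogeneous q) :
    ∃ c : ℝ, 1 ≤ c ∧ ∀ x : Fin (n + 1) → ℂ, ‖eval x Q‖ ≤ c * ‖x‖ ^ q := by
  refine ⟨1 + ∑ m ∈ Q.support, ‖coeff m Q‖, ?_, fun x => ?_⟩
  · have : 0 ≤ ∑ m ∈ Q.support, ‖coeff m Q‖ := Finset.sum_nonneg fun m _ => norm_nonneg _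
    linarith
  · rw [eval_eq']
    have h1 : ∀ m ∈ Q.support, ‖coeff m Q * ∏ i, x i ^ m i‖ ≤ ‖coeff m Q‖ * ‖x‖ ^ q := by
      intro m hm
      rw [norm_mul]
      refine mul_le_mul_of_nonneg_left ?_ (norm_nonneg _)
      rw [norm_prod]
      have h2 : ∑ i, m i = q := by
        have h3 : Finsupp.degree m = q := by
          rw [Finsupp.degree_eq_weight_one]
          exact hQ (mem_support_iff.1 hm)
        rw [← h3, Finsupp.degree_eq_sum]
      rw [← h2, ← Finset.prod_pow_eq_pow_sum]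
      refine Finset.prod_le_prod (fun i _ => norm_nonneg _) fun i _ => ?_
      rw [norm_pow]
      exact pow_le_pow_left₀ (norm_nonneg _) (norm_le_pi_norm x i) _
    calc ‖∑ m ∈ Q.support, coeff m Q * ∏ i, x i ^ m i‖ ≤
          ∑ m ∈ Q.support, ‖coeff m Q * ∏ i, x i ^ m i‖ := norm_sum_le _ _
      _ ≤ ∑ m ∈ Q.support, ‖coeff m Q‖ * ‖x‖ ^ q := Finset.sum_le_sum h1
      _ = (∑ m ∈ Q.support, ‖coeff m Q‖) * ‖x‖ ^ q := by rw [Finset.sum_mul]
      _ ≤ _ := by
        apply mul_le_mul_of_nonneg_right _ (by positivity)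
        linarith

theorem one_le_oo {F : ℂ → ℂ} (hF : Differentiable ℂ F) (h0 : ∃ y, F y ≠ 0) {x : ℂ}
    (hx : F x = 0) : 1 ≤ oo F x := by
  by_contra h
  have h3 : oo F x = 0 := by omega
  have h4 := oo_cast hF h0 x
  rw [h3, Nat.cast_zero] at h4
  exact ((hF.analyticAt x).analyticOrderAt_eq_zero.1 h4.symm) hx

theorem Nb_le {q : ℕ} (hQh : Q.IsHomogeneous q) (hf : Differentiable ℂ f) (h0 : ∀ z, f z ≠ 0)
    (hQ : ∃ y, eval (f y) Q ≠ 0) : ∃ c : ℝ, 0 ≤ c ∧ ∀ R, 1 ≤ R →
    0 ≤ Tm f R + c ∧ Nb f Q R ≤ (n + 2 + q) * (Tm f R + c) := by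
  classical
  obtain ⟨cQ, hcQ1, hcQ⟩ := eval_bound hQh
  set g : Option (Fin (n + 1)) → ℂ → ℂ := FF f Q with hg
  have hgd := FF_diff hf Q
  set c : ℝ := ∑ p, |tc (g p)| + Real.log cQ with hc
  have hlcQ : 0 ≤ Real.log cQ := Real.log_nonneg hcQ1
  have hct : ∀ p, |tc (g p)| + Real.log cQ ≤ c := fun p => by
    have := Finset.single_le_sum (f := fun p => |tc (g p)|) (fun p _ => abs_nonneg _)
      (Finset.mem_univ p)
    rw [hc]
    linarith
  have hc0 : 0 ≤ c := add_nonneg (Finset.sum_nonneg fun p _ => abs_nonneg _) hlcQ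
  refine ⟨2 * c, by linarith, fun R hR => ?_⟩
  have hR0 : 0 < R := by linarith
  obtain ⟨l0, hl0⟩ : ∃ l, f 0 l ≠ 0 := Function.ne_iff.1 (h0 0)
  -- the degrees
  set dg' : Option (Fin (n + 1)) → ℕ := fun p => match p with
    | some _ => 1
    | none => q with hdg
  have hgb : ∀ p z, ‖g p z‖ ≤ cQ * ‖f z‖ ^ dg' p := by
    intro p z
    cases p with
    | none => exact hcQ _
    | some l =>
      change ‖f z l‖ ≤ cQ * ‖f z‖ ^ 1
      rw [pow_one]
      have h1 := norm_le_coord (f := f) z l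
      nlinarith [norm_nonneg (f z)]
  have hTm0 : 0 ≤ Tm f R + c := by
    have h1 := L_le_Tm hf h0 (g := g (some l0)) (hgd _) ⟨0, hl0⟩ (by linarith : 0 < cQ)
      (hgb (some l0)) hR0.ne'
    have h2 := tc_le (hgd (some l0)) ⟨0, hl0⟩ hR
    have h3 := neg_abs_le (tc (g (some l0)))
    have h4 := hct (some l0)
    have h5 : ((dg' (some l0) : ℕ) : ℝ) = 1 := by simp [hdg]
    rw [h5] at h1
    linarith
  have hTm2 : 0 ≤ Tm f R + 2 * c := by linarith
  refine ⟨hTm2, ?_⟩
  rw [Nb_eq hf hQ hR0.le]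
  set T : Finset (Option (Fin (n + 1))) := Finset.univ.filter fun p => ∃ y, g p y ≠ 0 with hT
  have h1 : ∑ x ∈ zz hf hQ R, wgt R x ≤
      ∑ p ∈ T, ∑ x ∈ zz hf hQ R, (oo (g p) x : ℝ) * wgt R x := by
    rw [Finset.sum_comm]
    refine Finset.sum_le_sum fun x hx => ?_
    have hex : ∃ p ∈ T, g p x = 0 := by
      rcases ((mem_zz hf hQ).1 hx).2 with ⟨l, hl, hlx⟩ | h
      · exact ⟨some l, by rw [hT, Finset.mem_filter]; exact ⟨Finset.mem_univ _, hl⟩, hlx⟩
      · exact ⟨none, by rw [hT, Finset.mem_filter]; exact ⟨Finset.mem_univ _, hQ⟩, h⟩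
    obtain ⟨p, hp, hpx⟩ := hex
    have h2 := one_le_oo (hgd p) (Finset.mem_filter.1 hp).2 hpx
    have h2' : (1 : ℝ) ≤ oo (g p) x := by exact_mod_cast h2
    calc wgt R x = 1 * wgt R x := (one_mul _).symm
      _ ≤ (oo (g p) x : ℝ) * wgt R x :=
          mul_le_mul_of_nonneg_right h2' (wgt_nonneg hR x)
      _ ≤ _ := Finset.single_le_sum (f := fun p => (oo (g p) x : ℝ) * wgt R x)
          (fun p _ => mul_nonneg (Nat.cast_nonneg _) (wgt_nonneg hR x)) hp
  have h3 : ∀ p ∈ T, ∑ x ∈ zz hf hQ R, (oo (g p) x : ℝ) * wgt R x ≤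
      (dg' p + if p = none then 1 else 0) * (Tm f R + 2 * c) := by
    intro p hp
    have hp' := (Finset.mem_filter.1 hp).2
    have h4 := jen (hgd p) hp' hR0 (zz hf hQ R)
      (fun x hx hx0 => (mem_zz hf hQ).2 ⟨hx, by
        cases p with
        | none => exact Or.inr hx0
        | some l => exact Or.inl ⟨l, hp', hx0⟩⟩) (fun x hx => ((mem_zz hf hQ).1 hx).1)
    have h5 := L_le_Tm hf h0 (hgd p) hp' (by linarith : 0 < cQ) (hgb p) hR0.ne'
    have h6 := hct p
    have h7 := neg_abs_le (tc (g p))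
    cases p with
    | none =>
      rw [if_pos rfl]
      have h9 : (0 : ℝ) ≤ dg' none * c := mul_nonneg (Nat.cast_nonneg _) hc0
      have h10 : (0 : ℝ) ≤ Tm f R + c := hTm0
      have h11 : L (g none) R ≥ tc (g none) := tc_le (hgd none) hp' hR
      have h12 : ((dg' none : ℕ) : ℝ) * Tm f R + c ≤ (dg' none + 1) * (Tm f R + 2 * c) := by
        have h13 : ((dg' none : ℕ) + 1) * (Tm f R + 2 * c) =
          ((dg' none : ℕ) : ℝ) * Tm f R + 2 * (dg' none * c) + (Tm f R + c) + c := by ring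
        rw [h13]
        linarith
      linarith
    | some l =>
      rw [if_neg (by simp)]
      have h5' : ((dg' (some l) : ℕ) : ℝ) = 1 := by simp [hdg]
      rw [h5'] at h5 ⊢
      linarith
  have h8 : ∑ p ∈ T, ((dg' p : ℝ) + if p = none then 1 else 0) * (Tm f R + 2 * c) ≤
      (n + 2 + q) * (Tm f R + 2 * c) := by
    rw [← Finset.sum_mul]
    refine mul_le_mul_of_nonneg_right ?_ hTm2
    calc ∑ p ∈ T, ((dg' p : ℝ) + if p = none then 1 else 0) ≤
        ∑ p, ((dg' p : ℝ) + if p = none then 1 else 0) := by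
          apply Finset.sum_le_sum_of_subset_of_nonneg (Finset.subset_univ _)
          intro p _ _
          positivity
      _ = n + 2 + q := by
          rw [Fintype.sum_option]
          simp [hdg]
          ring
  exact h1.trans ((Finset.sum_le_sum h3).trans h8)

end Pool.Agent.Q72.TR
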