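import Pool.Agent.W602.NC.Circ

/-!
Jensen's formula with the weights `log (s / |x|)`, and the inequality for one circuit.
-/

set_option autoImplicit false

namespace Pool.Agent.Q72.TR

open Filter Metric Real Set Topology Pool.Agent.H159R3.NV Pool.Agent.W602.NC MeromorphicOn

/-- the weight of a point in the integrated counting functions -/
noncomputable def wgt (s : ℝ) (x : ℂ) : ℝ :=
  if x = 0 then Real.log s else if ‖x‖ ≤ s then Real.log (s / ‖x‖) else 0

theorem wgt_nonneg {s : ℝ} (hs : 1 ≤ s) (x : ℂ) : 0 ≤ wgt s x := by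
  unfold wgt
  split_ifs with h1 h2
  · exact Real.log_nonneg hs
  · have h3 : 0 < ‖x‖ := norm_pos_iff.2 h1
    exact Real.log_nonneg (by rwa [le_div_iff₀ h3, one_mul])
  · exact le_rfl

/-- the order of vanishing -/
noncomputable def oo (F : ℂ → ℂ) (x : ℂ) : ℕ := analyticOrderNatAt F x

/-- the modulus of the first nonzero Taylor coefficient at the origin -/
noncomputable def tc (F : ℂ → ℂ) : ℝ := Real.log ‖meromorphicTrailingCoeffAt F 0‖

theorem fin_ord {F : ℂ → ℂ} (hF : Differentiable ℂ F) (h0 : ∃ y, F y ≠ 0) (x : ℂ) :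
    analyticOrderAt F x ≠ ⊤ := by
  obtain ⟨y, hy⟩ := h0
  exact AnalyticOnNhd.analyticOrderAt_ne_top_of_isPreconnected (f := F) (U := Set.univ)
    (fun z _ => hF.analyticAt z) isPreconnected_univ (x := y) (y := x) (mem_univ _) (mem_univ _)
    (by rw [(hF.analyticAt y).analyticOrderAt_eq_zero.mpr hy]; simp)

theorem oo_cast {F : ℂ → ℂ} (hF : Differentiable ℂ F) (h0 : ∃ y, F y ≠ 0) (x : ℂ) :
    (oo F x : ℕ∞) = analyticOrderAt F x := Nat.cast_analyticOrderNatAt (fin_ord hF h0 x)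

theorem oo_zero {F : ℂ → ℂ} (hF : Differentiable ℂ F) {x : ℂ} (hx : F x ≠ 0) : oo F x = 0 := by
  unfold oo analyticOrderNatAt
  rw [(hF.analyticAt x).analyticOrderAt_eq_zero.mpr hx]
  rfl

/-- **Jensen's formula** -/
theorem jen {F : ℂ → ℂ} (hF : Differentiable ℂ F) (h0 : ∃ y, F y ≠ 0) {s : ℝ} (hs : 0 < s)
    (Z : Finset ℂ) (hZ : ∀ x, ‖x‖ ≤ s → F x = 0 → x ∈ Z) (hZs : ∀ x ∈ Z, ‖x‖ ≤ s) :
    L F s = ∑ x ∈ Z, (oo F x : ℝ) * wgt s x + tc F := by
  classical
  have h := MeromorphicOn.circleAverage_log_norm (c := 0) (R := s) (f := F) hs.ne'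
    (fun z _ => (hF.analyticAt z).meromorphicAt)
  rw [abs_of_pos hs] at h
  unfold L tc
  rw [h]
  have hdiv : ∀ x, ‖x‖ ≤ s → (divisor F (closedBall 0 s) x : ℝ) = oo F x := by
    intro x hx
    have hx' : x ∈ closedBall (0 : ℂ) s := by rwa [mem_closedBall, dist_zero_right]
    rw [MeromorphicOn.divisor_apply (fun z _ => (hF.analyticAt z).meromorphicAt) hx',
      (hF.analyticAt x).meromorphicOrderAt_eq, ← oo_cast hF h0 x]
    rfl
  have hdiv' : ∀ x, ¬ ‖x‖ ≤ s → divisor F (closedBall 0 s) x = 0 := by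
    intro x hx
    apply Function.locallyFinsuppWithin.apply_eq_zero_of_notMem
    rwa [mem_closedBall, dist_zero_right]
  have hsup : (Function.support fun u => (divisor F (closedBall 0 s) u : ℝ) *
      Real.log (s * ‖0 - u‖⁻¹)) ⊆ (Z : Set ℂ) := by
    intro x hx
    rw [Function.mem_support] at hx
    by_contra hxZ
    apply hx
    by_cases hxs : ‖x‖ ≤ s
    · have h1 : F x ≠ 0 := fun h2 => hxZ (hZ x hxs h2)
      rw [hdiv x hxs, oo_zero hF h1]
      simp
    · rw [hdiv' x hxs]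
      simp
  rw [finsum_eq_sum_of_support_subset _ hsup, hdiv 0 (by simpa using hs.le)]
  congr 1
  by_cases h0Z : (0 : ℂ) ∈ Z
  · rw [← Finset.add_sum_erase _ _ h0Z, ← Finset.add_sum_erase Z (fun x => (oo F x : ℝ) * wgt s x) h0Z]
    have h1 : ∑ x ∈ Z.erase 0, (divisor F (closedBall 0 s) x : ℝ) * Real.log (s * ‖0 - x‖⁻¹) =
        ∑ x ∈ Z.erase 0, (oo F x : ℝ) * wgt s x := by
      refine Finset.sum_congr rfl fun x hx => ?_
      have hx0 := (Finset.mem_erase.1 hx).1
      have hxZ := hZs x (Finset.mem_erase.1 hx).2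
      rw [hdiv x hxZ]
      unfold wgt
      rw [if_neg hx0, if_pos hxZ, zero_sub, norm_neg, div_eq_mul_inv]
    rw [h1]
    have h2 : wgt s 0 = Real.log s := by unfold wgt; rw [if_pos rfl]
    simp only [sub_zero, norm_zero, inv_zero, mul_zero, Real.log_zero, zero_add, h2]
    ring
  · have h1 : F 0 ≠ 0 := fun h2 => h0Z (hZ 0 (by simpa using hs.le) h2)
    rw [oo_zero hF h1, Nat.cast_zero, zero_mul, add_zero]
    refine Finset.sum_congr rfl fun x hx => ?_
    have hx0 : x ≠ 0 := fun h => h0Z (h ▸ hx)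
    have hxZ := hZs x hx
    rw [hdiv x hxZ]
    unfold wgt
    rw [if_neg hx0, if_pos hxZ, zero_sub, norm_neg, div_eq_mul_inv]

/-- the zeros in a disc are finite in number -/
theorem fin_zeros {F : ℂ → ℂ} (hF : Differentiable ℂ F) (h0 : ∃ y, F y ≠ 0) (s : ℝ) :
    ({x : ℂ | ‖x‖ ≤ s ∧ F x = 0}).Finite := by
  obtain ⟨y, hy⟩ := h0
  by_contra hinf
  have h2 : ({x : ℂ | ‖x‖ ≤ s ∧ F x = 0}).Infinite := hinf
  obtain ⟨a, -, ha⟩ := h2.exists_accPt_of_subset_isCompact (isCompact_closedBall (0 : ℂ) s)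
    (fun x hx => by rw [mem_closedBall, dist_zero_right]; exact hx.1)
  have h3 : ∃ᶠ x in 𝓝[≠] a, F x = 0 := by
    rw [accPt_iff_frequently_nhdsNE] at ha
    exact ha.mono fun x hx => hx.2
  have h4 := (show AnalyticOnNhd ℂ F Set.univ from
    fun z _ => hF.analyticAt z).eqOn_zero_of_preconnected_of_frequently_eq_zero
    isPreconnected_univ (Set.mem_univ a) h3
  exact hy (h4 (Set.mem_univ y))

theorem tc_le {F : ℂ → ℂ} (hF : Differentiable ℂ F) (h0 : ∃ y, F y ≠ 0) {s : ℝ} (hs : 1 ≤ s) :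
    tc F ≤ L F s := by
  have hfin := fin_zeros hF h0 s
  rw [jen hF h0 (by linarith) hfin.toFinset (fun x hx hx0 => hfin.mem_toFinset.2 ⟨hx, hx0⟩)
    (fun x hx => (hfin.mem_toFinset.1 hx).1)]
  have h1 : 0 ≤ ∑ x ∈ hfin.toFinset, (oo F x : ℝ) * wgt s x :=
    Finset.sum_nonneg fun x _ => mul_nonneg (Nat.cast_nonneg _) (wgt_nonneg hs x)
  linarith

/-- pointwise estimate for the Wronskian -/
theorem point_upper' {m : ℕ} (v : Fin (m + 1) → ℂ → ℂ)
    (hv : ∀ j, Differentiable ℂ (v j)) {z : ℂ} {ε B : ℝ} (hε : 0 < ε) (hε1 : ε ≤ 1)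
    (h0 : ∀ w ∈ closedBall z ε, v 0 w ≠ 0)
    (hb : ∀ j, ∀ w ∈ closedBall z ε, ‖v j w / v 0 w‖ ≤ B * ‖v j z / v 0 z‖)
    (hB : 0 ≤ B) (i : Fin (m + 1)) :
    ‖wr 1 v i z‖ ≤ (Nat.factorial m) *
      ((Nat.factorial m) * B * (1 / ε) ^ m) ^ m * ∏ b : Fin m, ‖v (i.succAbove b) z‖ := by
  have hz0 : v 0 z ≠ 0 := h0 z (mem_closedBall_self hε.le)
  have han : ∀ b : Fin m, ∀ w ∈ closedBall z ε,
      AnalyticAt ℂ (fun w => v (i.succAbove b) w / v 0 w) w := fun b w hw =>
    ((hv _).analyticAt w).div ((hv 0).analyticAt w) (h0 w hw)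
  have e1 : wr 1 v i z = (v 0 z) ^ m *
      (Matrix.of fun b l : Fin m =>
        iteratedDeriv l (fun w => v (i.succAbove b) w / v 0 w) z).det := by
    rw [← scale_det (fun w => v 0 w) (fun b w => v (i.succAbove b) w / v 0 w) z
      ((hv 0).analyticAt z) (fun b => han b z (mem_closedBall_self hε.le))]
    unfold wr
    congr 1
    ext b l
    simp only [Matrix.of_apply]
    apply Filter.EventuallyEq.iteratedDeriv_eq
    filter_upwards [closedBall_mem_nhds z hε] with w hw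
    have := h0 w hw
    rw [pow_one]
    field_simp
  have hder : ∀ b l : Fin m, ‖(Matrix.of fun b l : Fin m =>
        iteratedDeriv l (fun w => v (i.succAbove b) w / v 0 w) z) b l‖
      ≤ (Nat.factorial m) * B * (1 / ε) ^ m * ‖v (i.succAbove b) z / v 0 z‖ := by
    intro b l
    simp only [Matrix.of_apply]
    have h1 := Complex.norm_iteratedDeriv_le_of_forall_mem_sphere_norm_le (n := l) (c := z) (R := ε)
      (C := B * ‖v (i.succAbove b) z / v 0 z‖)
      (f := fun w => v (i.succAbove b) w / v 0 w) hε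
      (by
        apply DifferentiableOn.diffContOnCl
        intro w hw
        exact (han b w (closure_ball_subset_closedBall hw)).differentiableAt.differentiableWithinAt)
      (by
        intro w hw
        exact hb _ w (sphere_subset_closedBall hw))
    refine h1.trans ?_
    have h2 : (Nat.factorial (l : ℕ) : ℝ) ≤ Nat.factorial m := by
      exact_mod_cast Nat.factorial_le l.2.le
    have h3 : 1 / ε ^ (l : ℕ) ≤ (1 / ε) ^ m := by
      rw [one_div_pow]
      apply one_div_le_one_div_of_le (by positivity)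
      exact pow_le_pow_of_le_one hε.le hε1 l.2.le
    calc (Nat.factorial (l : ℕ) : ℝ) * (B * ‖v (i.succAbove b) z / v 0 z‖) / ε ^ (l : ℕ)
        = (Nat.factorial (l : ℕ) : ℝ) * (B * ‖v (i.succAbove b) z / v 0 z‖)
          * (1 / ε ^ (l : ℕ)) := by ring
      _ ≤ (Nat.factorial m : ℝ) * (B * ‖v (i.succAbove b) z / v 0 z‖)
          * ((1 / ε) ^ m) := by gcongr
      _ = _ := by ring
  rw [e1, norm_mul]
  have h4 := det_bound _ _ hder
  calc ‖(v 0 z) ^ m‖ * _ ≤ ‖(v 0 z) ^ m‖ * ((Nat.factorial m) * ∏ b : Fin m,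
        ((Nat.factorial m) * B * (1 / ε) ^ m * ‖v (i.succAbove b) z / v 0 z‖)) :=
        mul_le_mul_of_nonneg_left h4 (norm_nonneg _)
    _ = (Nat.factorial m) *
      ((Nat.factorial m) * B * (1 / ε) ^ m) ^ m * ∏ b : Fin m, ‖v (i.succAbove b) z‖ := by
        rw [Finset.prod_mul_distrib, Finset.prod_const, Finset.card_univ, Fintype.card_fin]
        have h5 : ∏ b : Fin m, ‖v (i.succAbove b) z‖ = ‖(v 0 z) ^ m‖ *
            ∏ b : Fin m, ‖v (i.succAbove b) z / v 0 z‖ := by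
          have h6 : ‖(v 0 z) ^ m‖ = ∏ _b : Fin m, ‖v 0 z‖ := by
            rw [Finset.prod_const, Finset.card_univ, Fintype.card_fin, norm_pow]
          rw [h6, ← Finset.prod_mul_distrib]
          refine Finset.prod_congr rfl fun b _ => ?_
          rw [norm_div, mul_div_cancel₀ _ (norm_ne_zero_iff.2 hz0)]
        rw [h5]
        ring

end Pool.Agent.Q72.TR
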