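import Pool.Agent.Q72.TR.Final
import Pool.Agent.Q72.GH.Lin
import Pool.Agent.Q72.SH.Sp

/-!
Weights of bounded size, and the curves which are swept by one-parameter groups in other coordinates.
-/

set_option autoImplicit false

namespace Pool.Agent.Q72.TR

open MvPolynomial
open Pool.Agent.Q72.SH Pool.Agent.Q72.GH
open Pool.Agent.W603.BPR (EntireCurve)

variable {n d : ℕ}

/-- weights with the same relations -/
theorem wtOn_of_rel {E : Set (MvPolynomial (Fin (n + 1)) ℂ)} {Q : MvPolynomial (Fin (n + 1)) ℂ}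
    {f : ℂ → Fin (n + 1) → ℂ} {b b0 : Option (Fin (n + 1)) → ℤ} (hE : ∀ F ∈ E, LeD (d + 1) F)
    (hQ : LeD (d + 1) Q) (h : Rel n (d + 1) b = Rel n (d + 1) b0)
    (hw : WtOn (d + 1) E Q f b) : WtOn (d + 1) E Q f b0 := by
  have hss : ∀ a a' : Ex (Fin (n + 1)) (d + 1),
      (wt (fun l => b0 (some l)) (exf a) = wt (fun l => b0 (some l)) (exf a') ↔
      wt (fun l => b (some l)) (exf a) = wt (fun l => b (some l)) (exf a')) := by
    intro a a'
    have h1 : ((some a, some a') : Option (Ex (Fin (n + 1)) (d + 1)) ×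
        Option (Ex (Fin (n + 1)) (d + 1))) ∈ Rel n (d + 1) b0 ↔
        ((some a, some a') : Option (Ex (Fin (n + 1)) (d + 1)) ×
        Option (Ex (Fin (n + 1)) (d + 1))) ∈ Rel n (d + 1) b := by rw [h]
    unfold SH.Rel at h1
    simp only [Set.mem_ofPred_eq, wt_some] at h1
    exact h1
  have hsn : ∀ a : Ex (Fin (n + 1)) (d + 1),
      (wt (fun l => b0 (some l)) (exf a) = b0 none ↔
      wt (fun l => b (some l)) (exf a) = b none) := by
    intro a
    have h1 : ((some a, none) : Option (Ex (Fin (n + 1)) (d + 1)) ×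
        Option (Ex (Fin (n + 1)) (d + 1))) ∈ Rel n (d + 1) b0 ↔
        ((some a, none) : Option (Ex (Fin (n + 1)) (d + 1)) ×
        Option (Ex (Fin (n + 1)) (d + 1))) ∈ Rel n (d + 1) b := by rw [h]
    unfold SH.Rel at h1
    simp only [Set.mem_ofPred_eq, wt_some, wt_none] at h1
    exact h1
  have hzero : ∀ (F : MvPolynomial (Fin (n + 1)) ℂ) (k : ℤ),
      (∀ a : Ex (Fin (n + 1)) (d + 1), wt (fun l => b0 (some l)) (exf a) ≠ k) → ∀ z,
      eval (f z) (comp (d + 1) (fun l => b0 (some l)) k F) = 0 := by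
    intro F k hk z
    rw [eval_compf]
    exact Finset.sum_eq_zero fun a _ => if_neg (hk a)
  have htr : ∀ (F : MvPolynomial (Fin (n + 1)) ℂ), LeD (d + 1) F → ∀ a0 : Ex (Fin (n + 1)) (d + 1),
      comp (d + 1) (fun l => b0 (some l)) (wt (fun l => b0 (some l)) (exf a0)) F =
      comp (d + 1) (fun l => b (some l)) (wt (fun l => b (some l)) (exf a0)) F :=
    fun F hF a0 => comp_congr hF fun a _ => hss a a0
  obtain ⟨h1, h2, i, j, hi, hj, hij⟩ := hw
  refine ⟨fun F hF k z => ?_, fun k hk z => ?_, i, j, hi, hj, ?_⟩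
  · by_cases hk : ∃ a0 : Ex (Fin (n + 1)) (d + 1), wt (fun l => b0 (some l)) (exf a0) = k
    · obtain ⟨a0, rfl⟩ := hk
      rw [htr F (hE F hF) a0]
      exact h1 F hF _ z
    · push Not at hk
      exact hzero F k hk z
  · by_cases hk' : ∃ a0 : Ex (Fin (n + 1)) (d + 1), wt (fun l => b0 (some l)) (exf a0) = k
    · obtain ⟨a0, rfl⟩ := hk'
      rw [htr Q hQ a0]
      exact h2 _ (fun h3 => hk ((hsn a0).2 h3)) z
    · push Not at hk'
      exact hzero Q k hk' z
  · intro h3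
    apply hij
    have hei : ∀ (b : Option (Fin (n + 1)) → ℤ) (l : Fin (n + 1)),
        wt (fun l => b (some l)) (exf (ei d l)) = b (some l) := by
      intro b l
      unfold wt exf ei
      rw [Finset.sum_eq_single l]
      · simp
      · intro m _ hm
        simp [hm]
      · intro h
        exact absurd (Finset.mem_univ l) h
    rw [← hei b i, ← hei b j]
    refine (hss _ _).1 ?_
    rw [hei, hei, h3]

open Classical in
/-- bounded representatives -/
theorem exists_bdw (n d : ℕ) : ∃ B : ℕ, ∀ b : Option (Fin (n + 1)) → ℤ,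
    ∃ b0 : Option (Fin (n + 1)) → ℤ, Rel n (d + 1) b = Rel n (d + 1) b0 ∧
      ∑ l : Fin (n + 1), (b0 (some l)).natAbs ≤ B := by
  have hex : ∀ R : Set (Option (Ex (Fin (n + 1)) (d + 1)) × Option (Ex (Fin (n + 1)) (d + 1))),
      ∃ b0 : Option (Fin (n + 1)) → ℤ, (∃ b, Rel n (d + 1) b = R) → Rel n (d + 1) b0 = R := by
    intro R
    by_cases h : ∃ b, Rel n (d + 1) b = R
    · obtain ⟨b, hb⟩ := h
      exact ⟨b, fun _ => hb⟩
    · exact ⟨0, fun h1 => absurd h1 h⟩
  choose bb hbb using hex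
  refine ⟨∑ R, ∑ l : Fin (n + 1), (bb R (some l)).natAbs, fun b => ⟨bb (Rel n (d + 1) b),
    (hbb _ ⟨b, rfl⟩).symm, ?_⟩⟩
  exact Finset.single_le_sum (f := fun R => ∑ l : Fin (n + 1), (bb R (some l)).natAbs)
    (fun _ _ => Nat.zero_le _) (Finset.mem_univ _)

/-- the orbit -/
noncomputable def orb (x : Fin (n + 1) → ℂ) (nn : Fin (n + 1) → ℕ) : Fin (n + 1) → Polynomial ℂ :=
  fun l => Polynomial.C (x l) * Polynomial.X ^ nn l

/-- the orbit in other coordinates -/
noncomputable def mon (S : (Fin (n + 1) → ℂ) →ₗ[ℂ] (Fin (n + 1) → ℂ)) (x : Fin (n + 1) → ℂ)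
    (nn : Fin (n + 1) → ℕ) : Fin (n + 1) → Polynomial ℂ := fun i => aeval (orb x nn) (pm S i)

theorem mon_eq (S : (Fin (n + 1) → ℂ) →ₗ[ℂ] (Fin (n + 1) → ℂ)) (x : Fin (n + 1) → ℂ)
    (nn : Fin (n + 1) → ℕ) (i : Fin (n + 1)) :
    mon S x nn i = ∑ j, Polynomial.C (S (Pi.single j 1) i) * orb x nn j := by
  unfold mon pm
  rw [map_sum]
  refine Finset.sum_congr rfl fun j _ => ?_
  rw [map_mul, aeval_X]
  congr 1
  exact MvPolynomial.aeval_C _ _

theorem orb_eval (x : Fin (n + 1) → ℂ) (nn : Fin (n + 1) → ℕ) (t : ℂ) (j : Fin (n + 1)) :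
    (orb x nn j).eval t = x j * t ^ nn j := by
  simp [orb]

theorem mon_eval (S : (Fin (n + 1) → ℂ) →ₗ[ℂ] (Fin (n + 1) → ℂ)) (x : Fin (n + 1) → ℂ)
    (nn : Fin (n + 1) → ℕ) (t : ℂ) :
    (fun i => (mon S x nn i).eval t) = S fun j => x j * t ^ nn j := by
  funext i
  rw [mon_eq, Polynomial.eval_finsetSum, lin_sum]
  refine Finset.sum_congr rfl fun j _ => ?_
  rw [Polynomial.eval_mul, Polynomial.eval_C, orb_eval]

theorem aeval_mon (S : (Fin (n + 1) → ℂ) →ₗ[ℂ] (Fin (n + 1) → ℂ)) (x : Fin (n + 1) → ℂ)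
    (nn : Fin (n + 1) → ℕ) (F : MvPolynomial (Fin (n + 1)) ℂ) :
    (aeval (mon S x nn) F : Polynomial ℂ) = aeval (orb x nn) (pull S F) := by
  unfold mon pull
  rw [← MvPolynomial.comp_aeval_apply]

theorem mon_deg (S : (Fin (n + 1) → ℂ) →ₗ[ℂ] (Fin (n + 1) → ℂ)) (x : Fin (n + 1) → ℂ)
    {nn : Fin (n + 1) → ℕ} {B : ℕ} (h : ∀ j, nn j ≤ B) (l : Fin (n + 1)) :
    (mon S x nn l).natDegree ≤ B := by
  rw [mon_eq]
  refine Polynomial.natDegree_sum_le_of_forall_le _ _ fun j _ => ?_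
  unfold orb
  rw [← mul_assoc, ← Polynomial.C_mul]
  exact (Polynomial.natDegree_C_mul_X_pow_le _ _).trans (h j)

theorem eval_aeval_poly (W : Fin (n + 1) → Polynomial ℂ) (F : MvPolynomial (Fin (n + 1)) ℂ)
    (t : ℂ) : (aeval W F : Polynomial ℂ).eval t = eval (fun j => (W j).eval t) F := by
  have h3 := MvPolynomial.comp_aeval_apply (f := W) (Polynomial.aeval (t : ℂ)) F
  have h4 : (fun l => (Polynomial.aeval t) (W l)) = fun j => (W j).eval t := by
    funext l
    rw [Polynomial.coe_aeval_eq_eval]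
  rw [h4, Polynomial.coe_aeval_eq_eval, aeval_eq_eval] at h3
  exact h3

/-- the data of the orbit through `x` -/
structure Nnd (b : Option (Fin (n + 1)) → ℤ) (q B : ℕ) (nn : Fin (n + 1) → ℕ) : Prop where
  le : ∀ l, nn l ≤ 2 * B
  eq : ∃ B0 : ℕ, ∀ l, (nn l : ℤ) = b (some l) + B0

theorem exists_nn (b : Option (Fin (n + 1)) → ℤ) {B : ℕ}
    (hb : ∑ l : Fin (n + 1), (b (some l)).natAbs ≤ B) :
    ∃ nn : Fin (n + 1) → ℕ, (∀ l, nn l ≤ 2 * B) ∧ ∀ l, (nn l : ℤ) = b (some l) + B := by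
  have hBl : ∀ l, (b (some l)).natAbs ≤ B := fun l =>
    (Finset.single_le_sum (f := fun l => (b (some l)).natAbs)
      (fun _ _ => Nat.zero_le _) (Finset.mem_univ l)).trans hb
  refine ⟨fun l => (b (some l) + B).toNat, fun l => ?_, fun l => ?_⟩
  · have := hBl l
    change (b (some l) + B).toNat ≤ 2 * B
    omega
  · have := hBl l
    change (((b (some l) + B).toNat : ℕ) : ℤ) = _
    omega

/-- **Orbits.** -/
theorem mon_of_wt {E : Set (MvPolynomial (Fin (n + 1)) ℂ)}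
    (hE : ∀ F ∈ E, ∃ e ≤ d, F.IsHomogeneous e) {Q : MvPolynomial (Fin (n + 1)) ℂ} {q : ℕ}
    (hq : q ≤ d) (hQ : Q.IsHomogeneous q) {ℓ S : (Fin (n + 1) → ℂ) →ₗ[ℂ] (Fin (n + 1) → ℂ)}
    (hS : ∀ x, S (ℓ x) = x) {f : ℂ → Fin (n + 1) → ℂ} {b : Option (Fin (n + 1)) → ℤ}
    (hw : WtOn (d + 1) (pull S '' E) (pull S Q) (fun z => ℓ (f z)) b)
    {nn : Fin (n + 1) → ℕ} {B : ℕ} (hnn : ∀ l, (nn l : ℤ) = b (some l) + B) (z : ℂ) :
    (∀ F ∈ E, (aeval (mon S (ℓ (f z)) nn) F : Polynomial ℂ) = 0) ∧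
    (eval (f z) Q ≠ 0 → ∃ m, (aeval (mon S (ℓ (f z)) nn) Q : Polynomial ℂ) =
      Polynomial.C (eval (f z) Q) * Polynomial.X ^ m) := by
  obtain ⟨h1, h2, -⟩ := hw
  have h0 : ∀ (x : Fin (n + 1) → ℂ) (F : MvPolynomial (Fin (n + 1)) ℂ), aeval x F = eval x F :=
    fun x F => by rw [aeval_eq_eval]
  refine ⟨fun F hF => ?_, fun hQz => ?_⟩
  · obtain ⟨e, he, hFe⟩ := hE F hF
    rw [aeval_mon]
    ext j
    unfold orb
    rw [coeff_weight (K := ℂ) _ (leD_of_homog (pull_hom S hFe) he) (pull_hom S hFe)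
      (fun l => b (some l)) B nn hnn, h0, Polynomial.coeff_zero]
    exact h1 _ ⟨F, hF, rfl⟩ _ z
  · set P : Polynomial ℂ := aeval (mon S (ℓ (f z)) nn) Q with hP
    have hP1 : P.eval 1 = eval (f z) Q := by
      rw [hP, eval_aeval_poly, mon_eval]
      simp only [one_pow, mul_one]
      rw [show (fun j => ℓ (f z) j) = ℓ (f z) from rfl, hS]
    have hPc : ∀ j : ℕ, ((j : ℤ) - B * q) ≠ b none → P.coeff j = 0 := by
      intro j hj
      rw [hP, aeval_mon]
      unfold orb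
      rw [coeff_weight (K := ℂ) _ (leD_of_homog (pull_hom S hQ) hq) (pull_hom S hQ)
        (fun l => b (some l)) B nn hnn, h0]
      exact h2 _ hj z
    obtain ⟨l, hl⟩ : ∃ l, P.coeff l ≠ 0 := by
      by_contra hcon
      push Not at hcon
      apply hQz
      rw [← hP1]
      have : P = 0 := by
        ext j
        rw [hcon j, Polynomial.coeff_zero]
      rw [this, Polynomial.eval_zero]
    have hl0 : (l : ℤ) - B * q = b none := by
      by_contra h
      exact hl (hPc l h)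
    have hPl : P = Polynomial.C (P.coeff l) * Polynomial.X ^ l := by
      ext j
      rw [Polynomial.coeff_C_mul_X_pow]
      split_ifs with h3
      · rw [h3]
      · apply hPc
        intro h4
        apply h3
        have h5 : (j : ℤ) = l := by linarith
        exact_mod_cast h5
    refine ⟨l, ?_⟩
    have h3 : P.coeff l = eval (f z) Q := by
      rw [← hP1, hPl]
      simp
    rw [← h3]
    exact hPl

end Pool.Agent.Q72.TR
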