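import Pool.Agent.Q72.TR.Gen
import Pool.Agent.Q72.TR.Orb

/-!
The truncated inequality for all systems of hyperplanes.
-/

set_option autoImplicit false

namespace Pool.Agent.Q72.TR

open Filter Metric Real Set Topology Pool.Agent.H159R3.NV Pool.Agent.W602.NC MeromorphicOn
open MvPolynomial MeasureTheory
open Pool.Agent.TH143.GT Pool.Agent.W602.GT Pool.Agent.TH143
open Pool.Agent.Q72.SH (coord_diff eval_diff Weighted WtOn LeD leD_of_homog zero_of_offcoord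
  mul_ent_zero)
open Pool.Agent.Q72.GH (pm pull eval_pull pull_hom lin_sum)
open Pool.Agent.Q72
open Pool.Agent.W603.BPR (EntireCurve)

variable {n d : ℕ}

/-- the wronskians of an orbit -/
theorem wr_mon {S ℓ : (Fin (n + 1) → ℂ) →ₗ[ℂ] (Fin (n + 1) → ℂ)} (hS : ∀ x, ℓ (S x) = x)
    {x : Fin (n + 1) → ℂ} {nn : Fin (n + 1) → ℕ} {i j : Fin (n + 1)} (hi : x i ≠ 0)
    (hj : x j ≠ 0) (hij : nn i ≠ nn j) : ∃ a b, wr (mon S x nn) a b ≠ 0 := by
  by_contra hcon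
  push Not at hcon
  have horb : ∀ i, orb x nn i = ∑ a, Polynomial.C (ℓ (Pi.single a 1) i) * mon S x nn a := by
    intro i
    simp only [mon_eq, Finset.mul_sum]
    rw [Finset.sum_comm]
    have h1 : ∀ k, ∑ a, Polynomial.C (ℓ (Pi.single a 1) i) *
        (Polynomial.C (S (Pi.single k 1) a) * orb x nn k) =
        Polynomial.C (if k = i then 1 else 0) * orb x nn k := by
      intro k
      have h2 : (if k = i then (1 : ℂ) else 0) = ∑ a, ℓ (Pi.single a 1) i * S (Pi.single k 1) a := by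
        rw [← lin_sum, hS, Pi.single_apply]
        by_cases h : i = k
        · rw [if_pos h, if_pos h.symm]
        · rw [if_neg h, if_neg fun h' => h h'.symm]
      rw [h2, map_sum, Finset.sum_mul]
      refine Finset.sum_congr rfl fun a _ => ?_
      rw [Polynomial.C_mul, mul_assoc]
    simp only [h1]
    rw [Finset.sum_eq_single i]
    · simp
    · intro k _ hk
      rw [if_neg hk, Polynomial.C_0, zero_mul]
    · intro h
      exact absurd (Finset.mem_univ i) h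
  have hd : ∀ i, Polynomial.derivative (orb x nn i) =
      ∑ a, Polynomial.C (ℓ (Pi.single a 1) i) * Polynomial.derivative (mon S x nn a) := by
    intro i
    rw [horb i, Polynomial.derivative_sum]
    exact Finset.sum_congr rfl fun a _ => by rw [Polynomial.derivative_C_mul]
  have h3 : Polynomial.derivative (orb x nn i) * orb x nn j =
      orb x nn i * Polynomial.derivative (orb x nn j) := by
    rw [hd i, hd j, horb i, horb j, Finset.sum_mul_sum, Finset.sum_mul_sum]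
    refine Finset.sum_congr rfl fun a _ => Finset.sum_congr rfl fun b _ => ?_
    have h4 := hcon a b
    unfold wr at h4
    linear_combination (Polynomial.C (ℓ (Pi.single a 1) i) * Polynomial.C (ℓ (Pi.single b 1) j)) * h4
  have h4 := congrArg (Polynomial.eval 1) h3
  unfold orb at h4
  simp only [Polynomial.derivative_C_mul, Polynomial.derivative_X_pow, Polynomial.eval_mul,
    Polynomial.eval_C, Polynomial.eval_pow, Polynomial.eval_X, one_pow, mul_one,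
    Polynomial.eval_natCast] at h4
  apply hij
  have h6 : (nn i : ℂ) = nn j := by
    apply mul_left_cancel₀ (mul_ne_zero hi hj)
    linear_combination h4
  exact_mod_cast h6

/-- the curve in other coordinates -/
theorem Cur.lift {E : Set (MvPolynomial (Fin (n + 1)) ℂ)} {Q : MvPolynomial (Fin (n + 1)) ℂ}
    {ℓ S : (Fin (n + 1) → ℂ) →ₗ[ℂ] (Fin (n + 1) → ℂ)} (hS : ∀ x, S (ℓ x) = x)
    {f : ℂ → Fin (n + 1) → ℂ} (hf : Cur E Q f) :
    Cur (pull S '' E) (pull S Q) fun z => ℓ (f z) := by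
  refine ⟨(LinearMap.toContinuousLinearMap ℓ).differentiable.comp hf.df, fun z h0 => ?_, ?_, ?_, ?_⟩
  · apply hf.ne z
    have h1 := congrArg S h0
    change S (ℓ (f z)) = S 0 at h1
    rwa [hS, map_zero] at h1
  · rintro z _ ⟨F, hF, rfl⟩
    rw [eval_pull, hS]
    exact hf.mem z F hF
  · obtain ⟨z, hz⟩ := hf.off
    refine ⟨z, ?_⟩
    rw [eval_pull, hS]
    exact hz
  · obtain ⟨z, w, hzw⟩ := hf.nc
    refine ⟨z, w, fun c hc => hzw c ?_⟩
    have h1 := congrArg S hc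
    change S (ℓ (f z)) = S (c • ℓ (f w)) at h1
    rwa [hS, map_smul, hS] at h1

/-- vanishing at general points -/
theorem zero_gen {E : Set (MvPolynomial (Fin (n + 1)) ℂ)} {Q : MvPolynomial (Fin (n + 1)) ℂ}
    {ℓ S : (Fin (n + 1) → ℂ) →ₗ[ℂ] (Fin (n + 1) → ℂ)} (hS : ∀ x, S (ℓ x) = x)
    {f : ℂ → Fin (n + 1) → ℂ} (hf : Cur E Q f) {i j : Fin (n + 1)} (hi : ∃ z, ℓ (f z) i ≠ 0)
    (hj : ∃ z, ℓ (f z) j ≠ 0) {G : MvPolynomial (Fin (n + 1)) ℂ}
    (hG0 : ∀ z, ℓ (f z) i ≠ 0 → ℓ (f z) j ≠ 0 → eval (f z) Q ≠ 0 → eval (f z) G = 0) (z : ℂ) :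
    eval (f z) G = 0 := by
  have hlift := hf.lift hS
  have h1 : ∀ z, eval (f z) Q ≠ 0 → eval (f z) G = 0 := by
    intro z hz
    have h2 : ∀ z, eval (f z) Q * eval (f z) G = 0 := by
      intro z
      have h3 := zero_of_offcoord (f := fun z => ℓ (f z)) (G := pull S (Q * G)) hlift.df hi hj
        (fun z hzi hzj => ?_) z
      · rw [eval_pull, hS, map_mul] at h3
        exact h3
      · rw [eval_pull, hS, map_mul]
        by_cases hzQ : eval (f z) Q = 0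
        · rw [hzQ, zero_mul]
        · rw [hG0 z hzi hzj hzQ, mul_zero]
    exact (mul_eq_zero.1 (h2 z)).resolve_left hz
  exact mul_ent_zero (eval_diff hf.df G).continuous (eval_diff hf.df Q) hf.off h1 z

/-- the orbits through the points of a weighted curve -/
theorem orb_data {Q : MvPolynomial (Fin (n + 1)) ℂ} {q : ℕ} (hq : q ≤ d) (hQ : Q.IsHomogeneous q)
    {E : Set (MvPolynomial (Fin (n + 1)) ℂ)} (hE : ∀ F ∈ E, ∃ e ≤ d, F.IsHomogeneous e) {B : ℕ}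
    (hB : ∀ b : Option (Fin (n + 1)) → ℤ, ∃ b0 : Option (Fin (n + 1)) → ℤ,
      SH.Rel n (d + 1) b = SH.Rel n (d + 1) b0 ∧ ∑ l : Fin (n + 1), (b0 (some l)).natAbs ≤ B)
    {ℓ S : (Fin (n + 1) → ℂ) →ₗ[ℂ] (Fin (n + 1) → ℂ)} (hS : ∀ x, S (ℓ x) = x)
    {f : ℂ → Fin (n + 1) → ℂ}
    (hw : Weighted (d + 1) (pull S '' E) (pull S Q) (fun z => ℓ (f z))) :
    ∃ nn : Fin (n + 1) → ℕ, (∀ l, nn l ≤ 2 * B) ∧ ∃ i j, (∃ z, ℓ (f z) i ≠ 0) ∧
      (∃ z, ℓ (f z) j ≠ 0) ∧ nn i ≠ nn j ∧ ∀ z,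
      (∀ F ∈ E, (aeval (mon S (ℓ (f z)) nn) F : Polynomial ℂ) = 0) ∧
      (eval (f z) Q ≠ 0 → ∃ m, (aeval (mon S (ℓ (f z)) nn) Q : Polynomial ℂ) =
        Polynomial.C (eval (f z) Q) * Polynomial.X ^ m) := by
  obtain ⟨b, hb⟩ := hw
  obtain ⟨b0, hb0, hbB⟩ := hB b
  have hE' : ∀ F ∈ pull S '' E, LeD (d + 1) F := by
    rintro _ ⟨F, hF, rfl⟩
    obtain ⟨e, he, hFe⟩ := hE F hF
    exact leD_of_homog (pull_hom S hFe) he
  have hwt : WtOn (d + 1) (pull S '' E) (pull S Q) (fun z => ℓ (f z)) b0 :=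
    wtOn_of_rel hE' (leD_of_homog (pull_hom S hQ) hq) hb0 hb
  obtain ⟨nn, hnn1, hnn2⟩ := exists_nn b0 hbB
  have hm := fun z => mon_of_wt hE hq hQ hS hwt hnn2 z
  obtain ⟨-, -, i, j, hi, hj, hij⟩ := hwt
  refine ⟨nn, hnn1, i, j, hi, hj, fun h => ?_, hm⟩
  have h1 := hnn2 i
  have h2 := hnn2 j
  rw [h] at h1
  exact hij (by linarith)

/-- **One exceptional set for all systems of hyperplanes.** -/
theorem exc_lin {p : Ideal (MvPolynomial (Fin (n + 1)) ℂ)} {Q : MvPolynomial (Fin (n + 1)) ℂ}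
    {q : ℕ} (hq : q ≤ d) (hQ : Q.IsHomogeneous q) {E : Set (MvPolynomial (Fin (n + 1)) ℂ)}
    (hp : p = Ideal.span E) (hE : ∀ F ∈ E, ∃ e ≤ d, F.IsHomogeneous e)
    {K : Type} [Field K] [Algebra ℂ K] {w : ℕ} {y : Fin (n + 1) → K} (hy : FunField p Q K w y)
    (hno : ∀ r : K, AllFlat Q y r) :
    ∃ G : MvPolynomial (Fin (n + 1)) ℂ, IsForm G ∧ G ∉ p ∧
      ∀ ℓ S : (Fin (n + 1) → ℂ) →ₗ[ℂ] (Fin (n + 1) → ℂ), (∀ x, S (ℓ x) = x) →
      (∀ x, ℓ (S x) = x) → ∀ f, Cur E Q f →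
      Weighted (d + 1) (pull S '' E) (pull S Q) (fun z => ℓ (f z)) → ∀ z, eval (f z) G = 0 := by
  obtain ⟨B, hB⟩ := exists_bdw n d
  obtain ⟨G, hG1, hG2, hG3⟩ := bd_form hy hno hp (2 * B)
  refine ⟨G, hG1, hG2, ?_⟩
  intro ℓ S hS hS' f hf hw
  obtain ⟨nn, hnn1, i, j, hi, hj, hnij, hm⟩ := orb_data hq hQ hE hB hS hw
  refine zero_gen hS hf hi hj fun z hzi hzj hzQ => ?_
  obtain ⟨h1, h2⟩ := hm z
  obtain ⟨m, hm⟩ := h2 hzQ
  have h3 := hG3 (mon S (ℓ (f z)) nn) (fun l => mon_deg S _ hnn1 l) h1 ⟨_, m, hzQ, hm⟩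
    (wr_mon hS' hzi hzj hnij)
  have h4 := congrArg (Polynomial.eval 1) h3
  rw [eval_aeval_poly, mon_eval, Polynomial.eval_zero] at h4
  simp only [one_pow, mul_one] at h4
  rw [show (fun j => ℓ (f z) j) = ℓ (f z) from rfl, hS] at h4
  exact h4

end Pool.Agent.Q72.TR
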