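import Pool.Agent.Q72.TR.Good

/-!
The sizes of the quotients of two monomials in a circuit.
-/

set_option autoImplicit false

namespace Pool.Agent.Q72.TR

open Filter Metric Real Set Topology Pool.Agent.H159R3.NV Pool.Agent.W602.NC MeromorphicOn
open Pool.Agent.Q72.SH (IsCirc Dl)

variable {P A : Type} [Fintype P] [Fintype A] [DecidableEq A]

/-- the monomials -/
noncomputable def gg (F : P → ℂ → ℂ) (ex : A → P → ℕ) (a : A) (z : ℂ) : ℂ := ∏ p, F p z ^ ex a p

theorem gg_diff {F : P → ℂ → ℂ} (hF : ∀ p, Differentiable ℂ (F p)) (ex : A → P → ℕ) (a : A) :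
    Differentiable ℂ (gg F ex a) := Differentiable.fun_finsetProd fun p _ => (hF p).pow _

/-- the linear relations between the monomials which do not vanish -/
def RV (F : P → ℂ → ℂ) (ex : A → P → ℕ) : Submodule ℂ (A → ℂ) where
  carrier := {c | (∀ a, (∀ z, gg F ex a z = 0) → c a = 0) ∧ ∀ z, ∑ a, c a * gg F ex a z = 0}
  add_mem' := by
    rintro c d ⟨h1, h2⟩ ⟨h3, h4⟩
    refine ⟨fun a ha => by rw [Pi.add_apply, h1 a ha, h3 a ha, add_zero], fun z => ?_⟩
    have : ∑ a, (c + d) a * gg F ex a z = ∑ a, c a * gg F ex a z + ∑ a, d a * gg F ex a z := by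
      rw [← Finset.sum_add_distrib]
      exact Finset.sum_congr rfl fun a _ => by rw [Pi.add_apply]; ring
    rw [this, h2, h4, add_zero]
  zero_mem' := ⟨fun a _ => rfl, fun z => Finset.sum_eq_zero fun a _ => by
    rw [Pi.zero_apply, zero_mul]⟩
  smul_mem' := by
    rintro t c ⟨h1, h2⟩
    refine ⟨fun a ha => by rw [Pi.smul_apply, h1 a ha, smul_zero], fun z => ?_⟩
    have : ∑ a, (t • c) a * gg F ex a z = t * ∑ a, c a * gg F ex a z := by
      rw [Finset.mul_sum]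
      exact Finset.sum_congr rfl fun a _ => by rw [Pi.smul_apply, smul_eq_mul]; ring
    rw [this, h2, mul_zero]

theorem gg_log {F : P → ℂ → ℂ} {ex : A → P → ℕ} {a : A} {z : ℂ} (h : gg F ex a z ≠ 0) :
    Real.log ‖gg F ex a z‖ = ∑ p, (ex a p : ℝ) * Real.log ‖F p z‖ := by
  unfold gg at h ⊢
  rw [norm_prod, Real.log_prod (fun p hp => norm_ne_zero_iff.2 (Finset.prod_ne_zero_iff.1 h p hp))]
  exact Finset.sum_congr rfl fun p _ => by rw [norm_pow, Real.log_pow]

theorem gg_oo {F : P → ℂ → ℂ} (hF : ∀ p, Differentiable ℂ (F p)) {ex : A → P → ℕ} {a : A}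
    (h : ∃ z, gg F ex a z ≠ 0) (x : ℂ) :
    oo (gg F ex a) x = ∑ p, ex a p * oo (F p) x := by
  have h1 : (oo (gg F ex a) x : ℕ∞) = ((∑ p, ex a p * oo (F p) x : ℕ) : ℕ∞) := by
    rw [oo_cast (gg_diff hF ex a) h]
    have e : gg F ex a = fun z => ∏ p, (fun p z => F p z ^ ex a p) p z := rfl
    rw [e, ord_prod Finset.univ (fun p z => F p z ^ ex a p) x
      (fun p _ => ((hF p).analyticAt x).pow _), Nat.cast_sum]
    refine Finset.sum_congr rfl fun p _ => ?_
    have e2 : (fun z => F p z ^ ex a p) = F p ^ ex a p := rfl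
    rw [e2, analyticOrderAt_pow ((hF p).analyticAt x)]
    by_cases hp : ∃ z, F p z ≠ 0
    · rw [← oo_cast (hF p) hp, nsmul_eq_mul, Nat.cast_mul]
    · push Not at hp
      obtain ⟨z, hz⟩ := h
      have h2 : F p z ^ ex a p ≠ 0 := Finset.prod_ne_zero_iff.1 hz p (Finset.mem_univ p)
      have h3 : ex a p = 0 := by
        by_contra h3
        rw [hp z, zero_pow h3] at h2
        exact h2 rfl
      rw [h3, zero_smul, zero_mul, Nat.cast_zero]
  exact_mod_cast h1

/-- the hypotheses on a circle -/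
structure GoodC (F : P → ℂ → ℂ) (ex : A → P → ℕ) (B s ε : ℝ) : Prop where
  s1 : 1 ≤ s
  e0 : 0 < ε
  e1 : ε ≤ 1
  ne : ∀ z, ‖z‖ = s → ∀ a, (∃ y, gg F ex a y ≠ 0) → ∀ w ∈ closedBall z ε, gg F ex a w ≠ 0
  osc : ∀ z, ‖z‖ = s → ∀ a b, (∃ y, gg F ex a y ≠ 0) → (∃ y, gg F ex b y ≠ 0) →
    ∀ w ∈ closedBall z ε, ‖gg F ex a w / gg F ex b w‖ ≤ B * ‖gg F ex a z / gg F ex b z‖

/-- the points where a monomial vanishes -/
def SG (F : P → ℂ → ℂ) (ex : A → P → ℕ) : Set ℂ := {x | ∃ a, (∃ y, gg F ex a y ≠ 0) ∧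
  gg F ex a x = 0}

open Classical in
/-- **The quotients of two monomials in a circuit.** -/
theorem pair_ineq {F : P → ℂ → ℂ} (hF : ∀ p, Differentiable ℂ (F p)) (ex : A → P → ℕ) {B : ℝ}
    (hB : 1 ≤ B) {a b : A} (hab : (a, b) ∈ Dl (RV F ex)) : ∃ C0 : ℝ, ∀ s ε : ℝ,
    GoodC F ex B s ε → ∀ Z : Finset ℂ, (∀ x, ‖x‖ ≤ s → x ∈ SG F ex → x ∈ Z) →
    (∀ x ∈ Z, ‖x‖ ≤ s) → Th F s Z (fun p => (ex a p : ℝ) - ex b p) ≤
      2 * ((Fintype.card A : ℝ) ^ 2 * Real.log (1 / ε) + (Fintype.card A : ℝ) ^ 2 *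
        ∑ x ∈ Z with x ∈ SG F ex, wgt s x) + C0 := by
  obtain ⟨c, hc, hca, hcb⟩ := hab
  simp only at hca hcb
  set S : Finset A := Finset.univ.filter fun a => c a ≠ 0 with hS
  have hSm : ∀ a, a ∈ S ↔ c a ≠ 0 := fun a => by simp [hS]
  have hSc : 0 < S.card := Finset.card_pos.2 ⟨a, (hSm a).2 hca⟩
  obtain ⟨m, hm⟩ : ∃ m, S.card = m + 1 := ⟨S.card - 1, by omega⟩
  set e : S ≃ Fin (m + 1) := S.equivFinOfCardEq hm with he
  set ι : Fin (m + 1) → A := fun j => (e.symm j : A) with hι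
  have hιc : ∀ j, c (ι j) ≠ 0 := fun j => (hSm _).1 (e.symm j).2
  have hinj : Function.Injective ι := fun i j h => e.symm.injective (Subtype.ext h)
  have hsurj : ∀ a, c a ≠ 0 → ∃ j, ι j = a := fun a ha =>
    ⟨e ⟨a, (hSm a).2 ha⟩, by simp [hι]⟩
  have hne : ∀ j, ∃ y, gg F ex (ι j) y ≠ 0 := by
    intro j
    by_contra hcon
    push Not at hcon
    exact hιc j (hc.1.1 _ hcon)
  set U : Fin (m + 1) → ℂ → ℂ := fun j z => c (ι j) * gg F ex (ι j) z with hU
  have hUd : ∀ j, Differentiable ℂ (U j) := fun j => (gg_diff hF ex _).const_mul _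
  have hU0 : ∀ j, ∃ y, U j y ≠ 0 := fun j => by
    obtain ⟨y, hy⟩ := hne j
    exact ⟨y, mul_ne_zero (hιc j) hy⟩
  have hsum : ∀ (c' : A → ℂ), (∀ a, c a = 0 → c' a = 0) → ∀ z,
      ∑ a, c' a * gg F ex a z = ∑ j, c' (ι j) * gg F ex (ι j) z := by
    intro c' hc' z
    have h1 : ∑ j, c' (ι j) * gg F ex (ι j) z = ∑ a ∈ Finset.univ.image ι,
        c' a * gg F ex a z := by
      rw [Finset.sum_image fun i _ j _ h => hinj h]
    rw [h1]
    symm
    apply Finset.sum_subset (Finset.subset_univ _)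
    intro a _ ha
    have h2 : c a = 0 := by
      by_contra h3
      obtain ⟨j, hj⟩ := hsurj a h3
      exact ha (Finset.mem_image.2 ⟨j, Finset.mem_univ _, hj⟩)
    rw [hc' a h2, zero_mul]
  have hrel : ∀ z, ∑ j, U j z = 0 := by
    intro z
    rw [← hc.1.2 z, hsum c (fun a h => h) z]
  have hW : ∃ y, wr 1 U 0 y ≠ 0 := by
    obtain ⟨z, hz⟩ := wron_ne (fun b : Fin m => U b.succ) (fun b => hUd _) (by
      intro β hβ
      by_contra hne'
      obtain ⟨b0, hb0⟩ := Function.ne_iff.1 hne'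
      have hb0' : β b0 ≠ 0 := hb0
      -- the vector
      set c' : A → ℂ := fun a => if h : ∃ b : Fin m, ι b.succ = a then β h.choose * c a else 0
        with hc'
      have hc'b : ∀ b : Fin m, c' (ι b.succ) = β b * c (ι b.succ) := by
        intro b
        have h1 : ∃ b' : Fin m, ι b'.succ = ι b.succ := ⟨b, rfl⟩
        simp only [hc']
        rw [dif_pos h1]
        have h2 : h1.choose = b := Fin.succ_injective _ (hinj h1.choose_spec)
        rw [h2]
      have hc'0 : c' (ι 0) = 0 := by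
        simp only [hc']
        rw [dif_neg]
        rintro ⟨b, hb⟩
        exact Fin.succ_ne_zero b (hinj hb)
      have hc's : ∀ a, c a = 0 → c' a = 0 := by
        intro a ha
        simp only [hc']
        split_ifs with h
        · rw [ha, mul_zero]
        · rfl
      have hmem : c' ∈ RV F ex := by
        refine ⟨fun a ha => hc's a (hc.1.1 a ha), fun z => ?_⟩
        rw [hsum c' hc's z, Fin.sum_univ_succ, hc'0, zero_mul, zero_add, ← hβ z]
        refine Finset.sum_congr rfl fun b _ => ?_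
        rw [hc'b b]
        simp only [hU]
        ring
      have hc'ne : c' ≠ 0 := by
        intro h
        have h1 := congrFun h (ι b0.succ)
        rw [hc'b] at h1
        exact mul_ne_zero hb0' (hιc _) h1
      exact hιc 0 (hc.2.2 c' hmem hc'ne hc's _ hc'0))
    refine ⟨z, ?_⟩
    unfold wr
    simpa only [Fin.succAbove_zero, pow_one] using hz
  obtain ⟨i, hi⟩ := hsurj a hca
  obtain ⟨j, hj⟩ := hsurj b hcb
  have hmA : (m : ℝ) ≤ Fintype.card A := by
    have h1 : S.card ≤ Fintype.card A := Finset.card_le_univ S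
    have h2 : m ≤ Fintype.card A := by omega
    exact_mod_cast h2
  set κ1 : ℝ := |Real.log ‖c a‖ - Real.log ‖c b‖| with hκ1
  refine ⟨2 * (Real.log (Nat.factorial m) + m * (Real.log (Nat.factorial m) + Real.log B)) +
    (2 * (∑ j, tc (U j) - tc (wr 1 U 0)) - tc (U i) - tc (U j)) + κ1, ?_⟩
  intro s ε hG Z hZ hZs
  have hs1 := hG.s1
  have hs0 : 0 < s := by linarith
  have h1 := circ_ineq' U hUd hU0 hrel hW hs1 hG.e0 hG.e1 hB
    (fun z hz j w hw => mul_ne_zero (hιc j) (hG.ne z hz _ (hne j) w hw))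
    (fun z hz j w hw => by
      have h2 := hG.osc z hz (ι j) (ι 0) (hne j) (hne 0) w hw
      have h3 : ∀ u, ‖U j u / U 0 u‖ = ‖c (ι j) / c (ι 0)‖ *
          ‖gg F ex (ι j) u / gg F ex (ι 0) u‖ := by
        intro u
        rw [← norm_mul]
        congr 1
        simp only [hU]
        rw [mul_div_mul_comm]
      rw [h3, h3]
      have := mul_le_mul_of_nonneg_left h2 (norm_nonneg (c (ι j) / c (ι 0)))
      linarith)
    Z (fun x hx hx0 => by
      obtain ⟨j, hj⟩ := hx0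
      exact hZ x hx ⟨ι j, hne j, (mul_eq_zero.1 hj).resolve_left (hιc j)⟩) hZs i j
  -- comparison of the left sides
  have hUi : U i = fun z => c a * gg F ex a z := by simp only [hU]; rw [hi]
  have hUj : U j = fun z => c b * gg F ex b z := by simp only [hU]; rw [hj]
  have hna : ∃ y, gg F ex a y ≠ 0 := hi ▸ hne i
  have hnb : ∃ y, gg F ex b y ≠ 0 := hj ▸ hne j
  have hoo : ∀ (c0 : ℂ) (a : A), c0 ≠ 0 → (∃ y, gg F ex a y ≠ 0) → ∀ x,
      oo (fun z => c0 * gg F ex a z) x = ∑ p, ex a p * oo (F p) x := by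
    intro c0 a hc0 ha x
    rw [← gg_oo hF ha x]
    have e1 : (fun z => c0 * gg F ex a z) = (fun _ => c0) * gg F ex a := rfl
    unfold oo
    rw [e1]
    have h2 := analyticOrderNatAt_mul (f := fun _ : ℂ => c0) (g := gg F ex a) (z₀ := x)
      analyticAt_const ((gg_diff hF ex a).analyticAt x)
      (fin_ord (differentiable_const c0) ⟨0, hc0⟩ x) (fin_ord (gg_diff hF ex a) ha x)
    rw [h2]
    have h3 : analyticOrderNatAt (fun _ : ℂ => c0) x = 0 :=
      oo_zero (differentiable_const c0) hc0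
    rw [h3, zero_add]
  have hL2 : ∑ x ∈ Z, |∑ p, ((ex a p : ℝ) - ex b p) * (oo (F p) x : ℝ)| * wgt s x =
      ∑ x ∈ Z, |(oo (U i) x : ℝ) - oo (U j) x| * wgt s x := by
    refine Finset.sum_congr rfl fun x _ => ?_
    rw [hUi, hUj, hoo _ _ hca hna, hoo _ _ hcb hnb]
    push_cast
    rw [← Finset.sum_sub_distrib]
    congr 2
    exact Finset.sum_congr rfl fun p _ => by ring
  have hL1 : Real.circleAverage (fun z => |∑ p, ((ex a p : ℝ) - ex b p) * Real.log ‖F p z‖|) 0 s ≤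
      Real.circleAverage (fun z => |Real.log ‖U i z‖ - Real.log ‖U j z‖|) 0 s + κ1 := by
    have i1 : CircleIntegrable (fun z => |Real.log ‖U i z‖ - Real.log ‖U j z‖|) 0 s :=
      ci_abs ((ci_log (mero_of_diff (hUd i)) s).sub (ci_log (mero_of_diff (hUd j)) s))
    have e1 : Real.circleAverage (fun z => |Real.log ‖U i z‖ - Real.log ‖U j z‖|) 0 s + κ1 =
        Real.circleAverage (fun z => |Real.log ‖U i z‖ - Real.log ‖U j z‖| + κ1) 0 s := by
      rw [Real.circleAverage_fun_add i1 (circleIntegrable_const _ _ _), Real.circleAverage_const]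
    rw [e1]
    apply Real.circleAverage_mono (Th_int hF s fun p => (ex a p : ℝ) - ex b p)
      (i1.add (circleIntegrable_const _ _ _))
    intro z hz
    have hz' := sph_norm hs0 hz
    have ha' := hG.ne z hz' a hna z (mem_closedBall_self hG.e0.le)
    have hb' := hG.ne z hz' b hnb z (mem_closedBall_self hG.e0.le)
    change |∑ p, ((ex a p : ℝ) - ex b p) * Real.log ‖F p z‖| ≤
      |Real.log ‖U i z‖ - Real.log ‖U j z‖| + κ1
    have h2 : ∑ p, ((ex a p : ℝ) - ex b p) * Real.log ‖F p z‖ =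
        (Real.log ‖U i z‖ - Real.log ‖U j z‖) - (Real.log ‖c a‖ - Real.log ‖c b‖) := by
      rw [hUi, hUj, norm_mul, norm_mul, Real.log_mul (norm_ne_zero_iff.2 hca)
        (norm_ne_zero_iff.2 ha'), Real.log_mul (norm_ne_zero_iff.2 hcb)
        (norm_ne_zero_iff.2 hb'), gg_log ha', gg_log hb']
      have h3 : ∑ p, ((ex a p : ℝ) - ex b p) * Real.log ‖F p z‖ =
          ∑ p, (ex a p : ℝ) * Real.log ‖F p z‖ - ∑ p, (ex b p : ℝ) * Real.log ‖F p z‖ := by
        rw [← Finset.sum_sub_distrib]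
        exact Finset.sum_congr rfl fun p _ => by ring
      rw [h3]
      ring
    rw [h2]
    exact abs_sub _ _
  have hN : ∑ x ∈ Z with (∃ j, U j x = 0), wgt s x ≤ ∑ x ∈ Z with x ∈ SG F ex, wgt s x := by
    apply Finset.sum_le_sum_of_subset_of_nonneg
    · intro x hx
      rw [Finset.mem_filter] at hx ⊢
      obtain ⟨j, hj⟩ := hx.2
      exact ⟨hx.1, ι j, hne j, (mul_eq_zero.1 hj).resolve_left (hιc j)⟩
    · intro x _ _
      exact wgt_nonneg hs1 x
  have hN0 : 0 ≤ ∑ x ∈ Z with x ∈ SG F ex, wgt s x :=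
    Finset.sum_nonneg fun x _ => wgt_nonneg hs1 x
  have hN0' : 0 ≤ ∑ x ∈ Z with (∃ j, U j x = 0), wgt s x :=
    Finset.sum_nonneg fun x _ => wgt_nonneg hs1 x
  have hlog : 0 ≤ Real.log (1 / ε) := Real.log_nonneg (by
    rw [le_div_iff₀ hG.e0, one_mul]; exact hG.e1)
  have hm0 : (0 : ℝ) ≤ m := Nat.cast_nonneg m
  have hm2 : (m : ℝ) ^ 2 ≤ (Fintype.card A : ℝ) ^ 2 := pow_le_pow_left₀ hm0 hmA 2
  have hmm : ((m * (m - 1) : ℕ) : ℝ) ≤ (Fintype.card A : ℝ) ^ 2 := by
    have h2 : m * (m - 1) ≤ m ^ 2 := by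
      rw [sq]
      exact Nat.mul_le_mul_left m (Nat.sub_le m 1)
    have h3 : ((m * (m - 1) : ℕ) : ℝ) ≤ ((m ^ 2 : ℕ) : ℝ) := by exact_mod_cast h2
    push_cast at h3 ⊢
    linarith
  have h5 : (m : ℝ) ^ 2 * Real.log (1 / ε) ≤ (Fintype.card A : ℝ) ^ 2 * Real.log (1 / ε) :=
    mul_le_mul_of_nonneg_right hm2 hlog
  have h6 : ((m * (m - 1) : ℕ) : ℝ) * ∑ x ∈ Z with (∃ j, U j x = 0), wgt s x ≤
      (Fintype.card A : ℝ) ^ 2 * ∑ x ∈ Z with x ∈ SG F ex, wgt s x :=
    mul_le_mul hmm hN hN0' (by positivity)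
  unfold er at h1
  unfold Th
  rw [hL2]
  linarith

end Pool.Agent.Q72.TR
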