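import Pool.Agent.Q72.TR.Char

/-!
The inequality on good circles for entire curves which do not come from weights.
-/

set_option autoImplicit false

namespace Pool.Agent.Q72.TR

open Filter Metric Real Set Topology Pool.Agent.H159R3.NV Pool.Agent.W602.NC MeromorphicOn
open MvPolynomial
open Pool.Agent.Q72.SH (coord_diff eval_diff Ex exf ex' fs LeD wt comp Weighted leD_of_homog Dl
  aeval_sum aeval_comp homog_sum comp_mem wt_some wt_none ei)
open Pool.Agent.W603.BPR (EntireCurve)

variable {n d : ℕ}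

/-- degree of a monomial, or of `Q` -/
def dg (q : ℕ) (a : Option (Ex (Fin (n + 1)) (d + 1))) : ℕ :=
  match a with
  | some α => ∑ l, (α l : ℕ)
  | none => q

/-- the common degree -/
def KK (n d : ℕ) : ℕ := (n + 1) * (d + 1)

theorem dg_le {q : ℕ} (hq : q ≤ d) (a : Option (Ex (Fin (n + 1)) (d + 1))) : dg q a ≤ KK n d := by
  cases a with
  | none =>
    change q ≤ (n + 1) * (d + 1)
    nlinarith
  | some α =>
    change ∑ l, (α l : ℕ) ≤ (n + 1) * (d + 1)
    calc ∑ l, (α l : ℕ) ≤ ∑ _l : Fin (n + 1), (d + 1) :=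
          Finset.sum_le_sum fun l _ => Nat.lt_succ_iff.1 (α l).2
      _ = (n + 1) * (d + 1) := by simp

/-- the exponents, made homogeneous with `x_j` -/
def xx (q : ℕ) (j : Fin (n + 1)) (a : Option (Ex (Fin (n + 1)) (d + 1)))
    (p : Option (Fin (n + 1))) : ℕ :=
  ex' a p + if p = some j then KK n d - dg q a else 0

theorem wt_xx {q : ℕ} (hq : q ≤ d) (j : Fin (n + 1)) (b : Option (Fin (n + 1)) → ℤ)
    (a : Option (Ex (Fin (n + 1)) (d + 1))) :
    wt b (xx q j a) = wt b (ex' a) + b (some j) * ((KK n d : ℤ) - dg q a) := by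
  unfold wt xx
  have h1 : ∀ p, b p * ((ex' a p + if p = some j then KK n d - dg q a else 0 : ℕ) : ℤ) =
      b p * (ex' a p : ℤ) + if p = some j then b p * ((KK n d : ℤ) - dg q a) else 0 := by
    intro p
    split_ifs
    · push_cast [dg_le hq a]
      ring
    · simp
  simp only [h1]
  rw [Finset.sum_add_distrib, Finset.sum_ite_eq' Finset.univ (some j)]
  simp

variable {f : ℂ → Fin (n + 1) → ℂ} {Q : MvPolynomial (Fin (n + 1)) ℂ}

theorem gg_some (q : ℕ) (j : Fin (n + 1)) (α : Ex (Fin (n + 1)) (d + 1)) (z : ℂ) :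
    gg (FF f Q) (xx q j) (some α) z = (∏ l, f z l ^ (α l : ℕ)) *
      f z j ^ (KK n d - ∑ l, (α l : ℕ)) := by
  unfold gg xx
  rw [Fintype.prod_option]
  simp only [pow_add, reduceCtorEq, if_false, Option.some.injEq]
  rw [Finset.prod_mul_distrib]
  have h1 : ∏ l : Fin (n + 1), FF f Q (some l) z ^
      (if l = j then KK n d - dg q (some α) else 0) =
      f z j ^ (KK n d - ∑ l, (α l : ℕ)) := by
    rw [Finset.prod_eq_single j]
    · rw [if_pos rfl]
      rfl
    · intro l _ hl
      rw [if_neg hl, pow_zero]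
    · intro h
      exact absurd (Finset.mem_univ j) h
  rw [h1]
  simp [FF, ex']

theorem gg_none (q : ℕ) (j : Fin (n + 1)) (z : ℂ) :
    gg (FF f Q) (xx q j) (none : Option (Ex (Fin (n + 1)) (d + 1))) z =
      eval (f z) Q * f z j ^ (KK n d - q) := by
  unfold gg xx
  rw [Fintype.prod_option]
  simp only [pow_add, reduceCtorEq, if_false, Option.some.injEq]
  rw [Finset.prod_mul_distrib]
  have h1 : ∏ l : Fin (n + 1), FF f Q (some l) z ^
      (if l = j then KK n d - dg q (none : Option (Ex (Fin (n + 1)) (d + 1))) else 0) =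
      f z j ^ (KK n d - q) := by
    rw [Finset.prod_eq_single j]
    · rw [if_pos rfl]
      rfl
    · intro l _ hl
      rw [if_neg hl, pow_zero]
    · intro h
      exact absurd (Finset.mem_univ j) h
  rw [h1]
  simp [FF, ex']

theorem ent_mul_zero {u : ℂ → ℂ} (hu : Differentiable ℂ u) {j : Fin (n + 1)}
    (hf : Differentiable ℂ f) (hj : ∃ y, f y j ≠ 0) (k : ℕ) (h : ∀ z, f z j ^ k * u z = 0) (z : ℂ) :
    u z = 0 := by
  rcases ent_eq_zero_or (f := fun z => f z j ^ k) ((coord_diff hf j).pow k) hu h with h1 | h1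
  · obtain ⟨y, hy⟩ := hj
    exact absurd (congrFun h1 y) (pow_ne_zero k hy)
  · exact congrFun h1 z

theorem eval_form {F : MvPolynomial (Fin (n + 1)) ℂ} (hF : LeD (d + 1) F) (x : Fin (n + 1) → ℂ) :
    eval x F = ∑ a : Ex (Fin (n + 1)) (d + 1), coeff (fs a) F * ∏ l, x l ^ (a l : ℕ) := by
  have h := aeval_sum x hF
  rw [aeval_eq_eval] at h
  exact h

theorem eval_compf (x : Fin (n + 1) → ℂ) (b : Fin (n + 1) → ℤ) (k : ℤ)
    (F : MvPolynomial (Fin (n + 1)) ℂ) :
    eval x (comp (d + 1) b k F) = ∑ a : Ex (Fin (n + 1)) (d + 1),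
      (if wt b (exf a) = k then coeff (fs a) F * ∏ l, x l ^ (a l : ℕ) else 0) := by
  have h := aeval_comp (D := d + 1) x b k F
  rw [aeval_eq_eval] at h
  exact h

open Classical in
/-- **Weights.** -/
theorem weighted_of {E : Set (MvPolynomial (Fin (n + 1)) ℂ)}
    (hE : ∀ F ∈ E, ∃ e ≤ d, F.IsHomogeneous e) {q : ℕ} (hq : q ≤ d) (hQ : Q.IsHomogeneous q)
    (hfd : Differentiable ℂ f) (hfE : ∀ z, ∀ F ∈ E, eval (f z) F = 0) {j : Fin (n + 1)}
    (hj : ∃ y, f y j ≠ 0) {b : Option (Fin (n + 1)) → ℤ}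
    (hb : ∀ p ∈ Dl (RV (FF f Q) (xx (d := d) q j)), wt b (xx q j p.1) = wt b (xx q j p.2)) :
    (∀ F ∈ E, ∀ k z, eval (f z) (comp (d + 1) (fun l => b (some l)) k F) = 0) ∧
    (∀ k, k ≠ b none → ∀ z, eval (f z) (comp (d + 1) (fun l => b (some l)) k Q) = 0) := by
  have key : ∀ (F : MvPolynomial (Fin (n + 1)) ℂ) (e : ℕ), e ≤ d → F.IsHomogeneous e →
      ∀ c0 : ℂ, (c0 ≠ 0 → e = q) →
      (∀ z, eval (f z) F + c0 * eval (f z) Q = 0) → ∀ k, (c0 ≠ 0 → k ≠ b none) →
      ∀ z, eval (f z) (comp (d + 1) (fun l => b (some l)) k F) = 0 := by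
    intro F e he hFe c0 hc0 hrel k hk
    have hFD := leD_of_homog hFe he
    have heK : e ≤ KK n d := by
      have : d ≤ (n + 1) * (d + 1) := by nlinarith
      exact he.trans this
    set c : Option (Ex (Fin (n + 1)) (d + 1)) → ℂ := fun a =>
      if (∀ z, gg (FF f Q) (xx q j) a z = 0) then 0 else
        match a with
        | some α => coeff (fs α) F
        | none => c0 with hc
    have hcg : ∀ a z, c a * gg (FF f Q) (xx q j) a z =
        (match a with
        | some α => coeff (fs α) F
        | none => c0) * gg (FF f Q) (xx q j) a z := by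
      intro a z
      simp only [hc]
      by_cases h : ∀ z, gg (FF f Q) (xx q j) a z = 0
      · rw [if_pos h, h z, mul_zero, mul_zero]
      · rw [if_neg h]
    have hgs : ∀ (α : Ex (Fin (n + 1)) (d + 1)) z, coeff (fs α) F *
        gg (FF f Q) (xx q j) (some α) z = f z j ^ (KK n d - e) *
          (coeff (fs α) F * ∏ l, f z l ^ (α l : ℕ)) := by
      intro α z
      by_cases h : coeff (fs α) F = 0
      · rw [h, zero_mul, zero_mul, mul_zero]
      · rw [gg_some, homog_sum hFe h]
        ring
    have hgn : ∀ z, c0 * gg (FF f Q) (xx q j) (none : Option (Ex (Fin (n + 1)) (d + 1))) z =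
        f z j ^ (KK n d - e) * (c0 * eval (f z) Q) := by
      intro z
      by_cases h : c0 = 0
      · rw [h, zero_mul, zero_mul, mul_zero]
      · rw [gg_none, hc0 h]
        ring
    have hmem : c ∈ RV (FF f Q) (xx (d := d) q j) := by
      refine ⟨fun a ha => ?_, fun z => ?_⟩
      · simp only [hc]
        rw [if_pos ha]
      · rw [Fintype.sum_option, hcg]
        simp only [hcg]
        rw [hgn]
        simp only [hgs]
        rw [← Finset.mul_sum, ← mul_add, ← eval_form hFD, add_comm, hrel z, mul_zero]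
    -- the component
    have h1 := comp_mem (xx q j) hb (k + b (some j) * ((KK n d : ℤ) - e)) hmem
    have h2 : ∀ z, f z j ^ (KK n d - e) *
        eval (f z) (comp (d + 1) (fun l => b (some l)) k F) = 0 := by
      intro z
      have h3 := h1.2 z
      rw [Fintype.sum_option] at h3
      beta_reduce at h3
      have h4 : (if wt b (xx q j (none : Option (Ex (Fin (n + 1)) (d + 1)))) =
          k + b (some j) * ((KK n d : ℤ) - e) then c none else 0) *
          gg (FF f Q) (xx (d := d) q j) none z = 0 := by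
        by_cases h5 : c0 = 0
        · have h6 : (if wt b (xx q j (none : Option (Ex (Fin (n + 1)) (d + 1)))) =
            k + b (some j) * ((KK n d : ℤ) - e) then c none else 0) = 0 := by
            simp only [hc, h5, ite_self]
          rw [h6, zero_mul]
        · rw [if_neg, zero_mul]
          rw [wt_xx hq, wt_none]
          intro h6
          apply hk h5
          have h7 : (dg q (none : Option (Ex (Fin (n + 1)) (d + 1))) : ℤ) = e := by
            rw [hc0 h5]
            rfl
          rw [h7] at h6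
          linarith
      rw [h4, zero_add] at h3
      rw [← h3, eval_compf, Finset.mul_sum]
      refine Finset.sum_congr rfl fun α _ => ?_
      by_cases h5 : coeff (fs α) F = 0
      · rw [h5, zero_mul, ite_self, mul_zero]
        have h6 : c (some α) = 0 := by
          simp only [hc, h5, ite_self]
        rw [h6, ite_self, zero_mul]
      · have h6 : wt b (xx q j (some α)) = wt (fun l => b (some l)) (exf α) +
            b (some j) * ((KK n d : ℤ) - e) := by
          rw [wt_xx hq, wt_some]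
          have : dg q (some α) = e := homog_sum hFe h5
          rw [this]
        rw [h6]
        by_cases h7 : wt (fun l => b (some l)) (exf α) = k
        · rw [if_pos h7, if_pos (by rw [h7]), ← hgs, hcg]
        · rw [if_neg h7, if_neg (fun h8 => h7 (by linarith)), mul_zero, zero_mul]
    exact ent_mul_zero (eval_diff hfd _) hfd hj _ h2
  refine ⟨fun F hF k z => ?_, fun k hk z => ?_⟩
  · obtain ⟨e, he, hFe⟩ := hE F hF
    refine key F e he hFe 0 (fun h => absurd rfl h) (fun z => ?_) k (fun h => absurd rfl h) z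
    rw [zero_mul, add_zero]
    exact hfE z F hF
  · exact key Q q hq hQ (-1) (fun _ => rfl) (fun z => by ring) k (fun _ => hk) z

theorem SG_sub {q : ℕ} {j : Fin (n + 1)} {x : ℂ}
    (hx : x ∈ SG (FF f Q) (xx (d := d) q j)) : x ∈ zs f Q := by
  obtain ⟨a, ⟨y, hy⟩, hax⟩ := hx
  unfold gg at hy hax
  obtain ⟨p, -, hp⟩ := Finset.prod_eq_zero_iff.1 hax
  have h1 := Finset.prod_ne_zero_iff.1 hy p (Finset.mem_univ p)
  have h2 : xx q j a p ≠ 0 := by
    intro h
    rw [h, pow_zero] at hp
    exact one_ne_zero hp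
  have h3 := eq_zero_of_pow_eq_zero hp
  have h4 : FF f Q p y ≠ 0 := fun h => h1 (by rw [h, zero_pow h2])
  cases p with
  | none => exact Or.inr h3
  | some l => exact Or.inl ⟨l, ⟨y, h4⟩, h3⟩

theorem good_ne (hf : Differentiable ℂ f) {q : ℕ} {j : Fin (n + 1)}
    (hj : ∃ y, f y j ≠ 0) {B s ε : ℝ} (hG : GoodC (FF f Q) (xx (d := d) q j) B s ε) (z : ℂ)
    (hz : ‖z‖ = s) (l : Fin (n + 1)) (hl : ∃ y, f y l ≠ 0) : f z l ≠ 0 := by
  have h1 : ∀ z, gg (FF f Q) (xx q j) (some (ei d l)) z = f z l *
      f z j ^ (KK n d - ∑ m, (ei d l m : ℕ)) := by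
    intro z
    rw [gg_some]
    congr 1
    rw [Finset.prod_eq_single l]
    · simp [ei]
    · intro m _ hm
      simp [ei, hm]
    · intro h
      exact absurd (Finset.mem_univ l) h
  have h2 : ∃ y, gg (FF f Q) (xx q j) (some (ei d l)) y ≠ 0 := by
    by_contra hcon
    push Not at hcon
    obtain ⟨y, hy⟩ := hl
    apply hy
    refine ent_mul_zero (u := fun z => f z l) (coord_diff hf l) hf hj
      (KK n d - ∑ m, (ei d l m : ℕ)) (fun z => ?_) y
    rw [mul_comm, ← h1 z]
    exact hcon z
  have h3 := hG.ne z hz _ h2 z (mem_closedBall_self hG.e0.le)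
  rw [h1] at h3
  exact left_ne_zero_of_mul h3

end Pool.Agent.Q72.TR
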