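import Pool.Agent.Q72.TR.Rows

/-!
The special set of the entire curves that have few intersections with a system of hyperplanes.
-/

set_option autoImplicit false

namespace Pool.Agent.Q72.TR

open Filter Metric Real Set Topology Pool.Agent.H159R3.NV Pool.Agent.W602.NC MeromorphicOn
open MvPolynomial MeasureTheory
open Pool.Agent.TH143.GT Pool.Agent.W602.GT Pool.Agent.TH143
open Pool.Agent.Q72.SH (coord_diff eval_diff Weighted WtOn LeD leD_of_homog)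
open Pool.Agent.Q72.GH (pm pull eval_pull pull_hom lin_sum)
open Pool.Agent.W603.BPR (EntireCurve)

variable {n d : ℕ} {E : Set (MvPolynomial (Fin (n + 1)) ℂ)} {Q : MvPolynomial (Fin (n + 1)) ℂ}
  {f : ℂ → Fin (n + 1) → ℂ}

/-- The linear map `S` is invertible, with the inverse `ℓ`. -/
def Inv (ℓ S : (Fin (n + 1) → ℂ) →ₗ[ℂ] (Fin (n + 1) → ℂ)) : Prop :=
  (∀ x, S (ℓ x) = x) ∧ ∀ x, ℓ (S x) = x

/-- `t ↦ S (x_0 t ^ k_0, ..., x_n t ^ k_n)`, `t ≠ 0`, is a nonconstant monomial curve of degree at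
most `B` in the quasi-projective set `E = 0`, `Q ≠ 0`. -/
structure Mono (B : ℕ) (E : Set (MvPolynomial (Fin (n + 1)) ℂ)) (Q : MvPolynomial (Fin (n + 1)) ℂ)
    (S : (Fin (n + 1) → ℂ) →ₗ[ℂ] (Fin (n + 1) → ℂ)) (x : Fin (n + 1) → ℂ) (k : Fin (n + 1) → ℕ) :
    Prop where
  inv : ∃ ℓ, Inv ℓ S
  le : ∀ j, k j ≤ B
  nc : ∃ i j, x i ≠ 0 ∧ x j ≠ 0 ∧ k i ≠ k j
  mem : ∀ t : ℂ, t ≠ 0 → ∀ F ∈ E, eval (S fun j => x j * t ^ k j) F = 0
  off : ∀ t : ℂ, t ≠ 0 → eval (S fun j => x j * t ^ k j) Q ≠ 0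

/-- the cone over the Zariski closure of a set, without the origin -/
def ConeCl (T : Set (Fin (n + 1) → ℂ)) : Set (Fin (n + 1) → ℂ) :=
  {x | x ≠ 0 ∧ ∀ G : MvPolynomial (Fin (n + 1)) ℂ, IsForm G → (∀ u ∈ T, eval u G = 0) →
    eval x G = 0}

/-- the closure of the union of the monomial curves of degree at most `B` -/
def MonSet (B : ℕ) (E : Set (MvPolynomial (Fin (n + 1)) ℂ)) (Q : MvPolynomial (Fin (n + 1)) ℂ) :
    Set (Fin (n + 1) → ℂ) :=
  ConeCl {u | ∃ S x k, Mono B E Q S x k ∧ ∃ t : ℂ, t ≠ 0 ∧ u = S fun j => x j * t ^ k j}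

/-- the closure of the union of the images of the entire curves which do not satisfy the
inequality with the constant `ε`, for some system of `n + 1` hyperplanes without common point -/
def FewSet (ε : ℝ) (E : Set (MvPolynomial (Fin (n + 1)) ℂ)) (Q : MvPolynomial (Fin (n + 1)) ℂ) :
    Set (Fin (n + 1) → ℂ) :=
  ConeCl {u | ∃ f ℓ S, Inv ℓ S ∧ Cur E Q f ∧ ¬ Trunc ε ℓ Q f ∧ ∃ z, u = f z}

theorem ConeCl.mono {T T' : Set (Fin (n + 1) → ℂ)} (h : ∀ G : MvPolynomial (Fin (n + 1)) ℂ,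
    IsForm G → (∀ u ∈ T', eval u G = 0) → ∀ u ∈ T, eval u G = 0) : ConeCl T ⊆ ConeCl T' :=
  fun _ hx => ⟨hx.1, fun G hG h0 => hx.2 G hG (h G hG h0)⟩

theorem char_pos (hf : Differentiable ℂ f) (h0 : ∀ z, f z ≠ 0)
    (hnc : ∃ z w, ∀ c : ℂ, f z ≠ c • f w) : ∃ R0 : ℝ, ∀ r, R0 ≤ r → 0 ≤ CharT f r := by
  obtain ⟨c, hc⟩ := char_log hf h0 hnc
  refine ⟨max 1 (Real.exp c), fun r hr => ?_⟩
  have h1 : 1 ≤ r := (le_max_left _ _).trans hr
  have h2 : Real.exp c ≤ r := (le_max_right _ _).trans hr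
  have h3 := hc r h1
  have h4 : c ≤ Real.log r := by
    rw [Real.le_log_iff_exp_le (by linarith)]
    exact h2
  linarith

/-- curves without intersections violate the inequality -/
theorem not_trunc_of_empty {ℓ : (Fin (n + 1) → ℂ) →ₗ[ℂ] (Fin (n + 1) → ℂ)}
    (hf : Differentiable ℂ f) (h0 : ∀ z, f z ≠ 0) (hnc : ∃ z w, ∀ c : ℂ, f z ≠ c • f w)
    (hP : Pts ℓ Q f = ∅) {ε : ℝ} (hε : 0 < ε) : ¬ Trunc ε ℓ Q f := by
  rintro ⟨X, hX, h⟩
  obtain ⟨c, hc⟩ := char_log hf h0 hnc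
  obtain ⟨r, hr, hrX⟩ := not_finite_Ici hX (max 1 (Real.exp (c + 1)))
  have hr1 : 1 ≤ r := (le_max_left _ _).trans hr
  have hr2 : Real.exp (c + 1) ≤ r := (le_max_right _ _).trans hr
  have h1 := h r (by linarith) hrX
  have h2 : CountN ℓ Q f r = 0 := by
    unfold CountN
    rw [hP]
    simp
  rw [h2] at h1
  have h3 := hc r hr1
  have h4 : c + 1 ≤ Real.log r := by
    rw [Real.le_log_iff_exp_le (by linarith)]
    exact hr2
  have h5 : 1 ≤ CharT f r := by linarith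
  have h6 : 0 < ε * CharT f r := by positivity
  linarith

/-- the entire curve given by a monomial curve -/
theorem Mono.curve {B : ℕ} {S : (Fin (n + 1) → ℂ) →ₗ[ℂ] (Fin (n + 1) → ℂ)} {x : Fin (n + 1) → ℂ}
    {k : Fin (n + 1) → ℕ} (h : Mono B E Q S x k) {ℓ : (Fin (n + 1) → ℂ) →ₗ[ℂ] (Fin (n + 1) → ℂ)}
    (hℓ : Inv ℓ S) : Cur E Q (fun z => S fun j => x j * Complex.exp z ^ k j) ∧
      Pts ℓ Q (fun z => S fun j => x j * Complex.exp z ^ k j) = ∅ := by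
  obtain ⟨i, j, hi, hj, hij⟩ := h.nc
  have hd : Differentiable ℂ fun z : ℂ => (fun j => x j * Complex.exp z ^ k j : Fin (n + 1) → ℂ) :=
    differentiable_pi.2 fun l => (Complex.differentiable_exp.pow _).const_mul _
  have hinj : ∀ u v, S u = S v → u = v := fun u v huv => by
    have h1 := congrArg ℓ huv
    rwa [hℓ.2, hℓ.2] at h1
  refine ⟨⟨(LinearMap.toContinuousLinearMap S).differentiable.comp hd, fun z h0 => ?_,
    fun z F hF => h.mem _ (Complex.exp_ne_zero z) F hF, ⟨0, h.off _ (Complex.exp_ne_zero 0)⟩, ?_⟩,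
    ?_⟩
  · have h1 := hinj (fun j => x j * Complex.exp z ^ k j) 0 (by rw [map_zero]; exact h0)
    have h2 := congrFun h1 i
    exact mul_ne_zero hi (pow_ne_zero _ (Complex.exp_ne_zero z)) h2
  · refine ⟨Complex.log 2, 0, fun c hc => hij ?_⟩
    rw [← map_smul] at hc
    have h1 := hinj _ _ hc
    have h2 := congrFun h1 i
    have h3 := congrFun h1 j
    simp only [Pi.smul_apply, smul_eq_mul, Complex.exp_log (by norm_num : (2 : ℂ) ≠ 0),
      Complex.exp_zero, one_pow, mul_one] at h2 h3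
    have h4 : (2 : ℂ) ^ k i = c := mul_left_cancel₀ hi (by rw [h2]; ring)
    have h5 : (2 : ℂ) ^ k j = c := mul_left_cancel₀ hj (by rw [h3]; ring)
    have h6 : ((2 ^ k i : ℕ) : ℂ) = ((2 ^ k j : ℕ) : ℂ) := by
      push_cast
      rw [h4, h5]
    exact Nat.pow_right_injective (le_refl 2) (by exact_mod_cast h6)
  · rw [Set.eq_empty_iff_forall_notMem]
    rintro z (⟨l, ⟨y, hy⟩, hl⟩ | hz)
    · rw [hℓ.2] at hy hl
      have h1 : x l ≠ 0 := left_ne_zero_of_mul hy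
      exact mul_ne_zero h1 (pow_ne_zero _ (Complex.exp_ne_zero z)) hl
    · exact h.off _ (Complex.exp_ne_zero z) hz

theorem mon_sub_few {B : ℕ} {ε : ℝ} (hε : 0 < ε) : MonSet B E Q ⊆ FewSet ε E Q := by
  refine ConeCl.mono fun G _ h0 => ?_
  rintro u ⟨S, x, k, h, t, ht, rfl⟩
  obtain ⟨ℓ, hℓ⟩ := h.inv
  obtain ⟨h1, h2⟩ := h.curve hℓ
  refine h0 _ ⟨_, ℓ, S, hℓ, h1, not_trunc_of_empty h1.df h1.ne h1.nc h2 hε, Complex.log t, ?_⟩
  simp only [Complex.exp_log ht]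

/-- **The special set of the curves with few intersections.** -/
theorem special (n d : ℕ) : ∃ (ε : ℝ) (B : ℕ), 0 < ε ∧
    ∀ (E : Set (MvPolynomial (Fin (n + 1)) ℂ)), (∀ F ∈ E, ∃ e ≤ d, F.IsHomogeneous e) →
    ∀ (Q : MvPolynomial (Fin (n + 1)) ℂ) (q : ℕ), q ≤ d → Q.IsHomogeneous q →
    ∀ ε' B', 0 < ε' → ε' ≤ ε → B ≤ B' → FewSet ε' E Q = MonSet B' E Q := by
  obtain ⟨ε, hε, h⟩ := trunc_or n d
  obtain ⟨B, hB⟩ := exists_bdw n d
  refine ⟨ε, 2 * B, hε, ?_⟩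
  intro E hE Q q hq hQ ε' B' hε' hεε hBB
  apply Set.Subset.antisymm
  · refine ConeCl.mono fun G hG h0 => ?_
    rintro u ⟨f, ℓ, S, hℓ, hf, hT, z, rfl⟩
    rcases h E hE Q q hq hQ ℓ S hℓ.1 f hf with hw | hw
    · obtain ⟨nn, hnn1, i, j, hi, hj, hnij, hm⟩ := orb_data hq hQ hE hB hℓ.1 hw
      refine zero_gen hℓ.1 hf hi hj (fun z hzi hzj hzQ => ?_) z
      obtain ⟨h1, h2⟩ := hm z
      obtain ⟨m, hm⟩ := h2 hzQ
      have hM : Mono B' E Q S (ℓ (f z)) nn := by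
        refine ⟨⟨ℓ, hℓ⟩, fun l => (hnn1 l).trans hBB, ⟨i, j, hzi, hzj, hnij⟩, fun t ht F hF => ?_,
          fun t ht => ?_⟩
        · rw [← mon_eval, ← eval_aeval_poly, h1 F hF, Polynomial.eval_zero]
        · rw [← mon_eval, ← eval_aeval_poly, hm]
          simp [hzQ, ht]
      refine h0 _ ⟨S, ℓ (f z), nn, hM, 1, one_ne_zero, ?_⟩
      simp only [one_pow, mul_one]
      exact (hℓ.1 _).symm
    · exact absurd (hw.mono hεε (char_pos hf.df hf.ne hf.nc)) hT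
  · exact mon_sub_few hε'

end Pool.Agent.Q72.TR
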