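import Pool.Agent.Q72.TR.Circ
import Pool.Agent.Q72.SH.Stab

/-!
The size of a monomial on a circle, and its linear algebra.
-/

set_option autoImplicit false

namespace Pool.Agent.Q72.TR

open Filter Metric Real Set Topology Pool.Agent.H159R3.NV Pool.Agent.W602.NC MeromorphicOn

open Classical in
/-- the inequality for one circuit, with a smaller set of points -/
theorem circ_ineq' {m : ℕ} (v : Fin (m + 1) → ℂ → ℂ) (hv : ∀ j, Differentiable ℂ (v j))
    (hv0 : ∀ j, ∃ y, v j y ≠ 0)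
    (hs : ∀ z, ∑ j, v j z = 0) (hW : ∃ y, wr 1 v 0 y ≠ 0) {s ε B : ℝ} (hs1 : 1 ≤ s)
    (hε : 0 < ε) (hε1 : ε ≤ 1) (hB : 1 ≤ B)
    (h0 : ∀ z, ‖z‖ = s → ∀ j, ∀ w ∈ closedBall z ε, v j w ≠ 0)
    (hb : ∀ z, ‖z‖ = s → ∀ j, ∀ w ∈ closedBall z ε, ‖v j w / v 0 w‖ ≤ B * ‖v j z / v 0 z‖)
    (Z : Finset ℂ) (hZ : ∀ x, ‖x‖ ≤ s → (∃ j, v j x = 0) → x ∈ Z)
    (hZs : ∀ x ∈ Z, ‖x‖ ≤ s) (i j : Fin (m + 1)) :
    Real.circleAverage (fun z => |Real.log ‖v i z‖ - Real.log ‖v j z‖|) 0 s +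
      ∑ x ∈ Z, |(oo (v i) x : ℝ) - oo (v j) x| * wgt s x ≤
    2 * (er m B ε + (m * (m - 1) : ℕ) * ∑ x ∈ Z with (∃ j, v j x = 0), wgt s x) +
      (2 * (∑ j, tc (v j) - tc (wr 1 v 0)) - tc (v i) - tc (v j)) := by
  have hfin := fin_zeros (wr_diff 1 v hv 0) hW s
  have h1 := circ_ineq v hv hv0 hs hW hs1 hε hε1 hB h0 hb (Z ∪ hfin.toFinset) (by
    rintro x hx (h | h)
    · exact Finset.mem_union_right _ (hfin.mem_toFinset.2 ⟨hx, h⟩)
    · exact Finset.mem_union_left _ (hZ x hx h)) (by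
    intro x hx
    rcases Finset.mem_union.1 hx with h | h
    · exact hZs x h
    · exact (hfin.mem_toFinset.1 h).1) i j
  have hsub : Z ⊆ Z ∪ hfin.toFinset := Finset.subset_union_left
  have hnz : ∀ x ∈ Z ∪ hfin.toFinset, x ∉ Z → ∀ j, v j x ≠ 0 := by
    intro x hx hxZ j h
    apply hxZ
    apply hZ x _ ⟨j, h⟩
    rcases Finset.mem_union.1 hx with h' | h'
    · exact hZs x h'
    · exact (hfin.mem_toFinset.1 h').1
  have h2 : ∑ x ∈ Z, |(oo (v i) x : ℝ) - oo (v j) x| * wgt s x =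
      ∑ x ∈ Z ∪ hfin.toFinset, |(oo (v i) x : ℝ) - oo (v j) x| * wgt s x := by
    refine Finset.sum_subset hsub fun x hx hxZ => ?_
    rw [oo_zero (hv i) (hnz x hx hxZ i), oo_zero (hv j) (hnz x hx hxZ j)]
    simp
  have h3 : ∑ x ∈ Z with (∃ j, v j x = 0), wgt s x =
      ∑ x ∈ Z ∪ hfin.toFinset with (∃ j, v j x = 0), wgt s x := by
    rw [Finset.sum_filter, Finset.sum_filter]
    refine Finset.sum_subset hsub fun x hx hxZ => ?_
    rw [if_neg]
    rintro ⟨j, hj⟩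
    exact hnz x hx hxZ j hj
  rw [h2, h3]
  exact h1

variable {P : Type} [Fintype P]

/-- the size of the monomial with exponents `y` on the circle of radius `s` -/
noncomputable def Th (F : P → ℂ → ℂ) (s : ℝ) (Z : Finset ℂ) (y : P → ℝ) : ℝ :=
  Real.circleAverage (fun z => |∑ p, y p * Real.log ‖F p z‖|) 0 s +
    ∑ x ∈ Z, |∑ p, y p * (oo (F p) x : ℝ)| * wgt s x

theorem Th_int {F : P → ℂ → ℂ} (hF : ∀ p, Differentiable ℂ (F p)) (s : ℝ) (y : P → ℝ) :
    CircleIntegrable (fun z => |∑ p, y p * Real.log ‖F p z‖|) 0 s := by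
  apply ci_abs
  refine CircleIntegrable.fun_sum _ fun p _ => ?_
  exact (ci_log (mero_of_diff (hF p)) s).const_fun_smul (a := y p)

theorem Th_add {F : P → ℂ → ℂ} (hF : ∀ p, Differentiable ℂ (F p)) {s : ℝ} (hs : 1 ≤ s)
    (Z : Finset ℂ) (y y' : P → ℝ) : Th F s Z (y + y') ≤ Th F s Z y + Th F s Z y' := by
  unfold Th
  have h1 : Real.circleAverage (fun z => |∑ p, (y + y') p * Real.log ‖F p z‖|) 0 s ≤
      Real.circleAverage (fun z => |∑ p, y p * Real.log ‖F p z‖|) 0 s +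
      Real.circleAverage (fun z => |∑ p, y' p * Real.log ‖F p z‖|) 0 s := by
    rw [← Real.circleAverage_fun_add (Th_int hF s y) (Th_int hF s y')]
    apply Real.circleAverage_mono (Th_int hF s (y + y')) ((Th_int hF s y).add (Th_int hF s y'))
    intro z _
    change |∑ p, (y + y') p * Real.log ‖F p z‖| ≤ |∑ p, y p * Real.log ‖F p z‖| +
      |∑ p, y' p * Real.log ‖F p z‖|
    refine le_trans (le_of_eq ?_) (abs_add_le _ _)
    rw [← Finset.sum_add_distrib]
    congr 1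
    exact Finset.sum_congr rfl fun p _ => by rw [Pi.add_apply]; ring
  have h2 : ∑ x ∈ Z, |∑ p, (y + y') p * (oo (F p) x : ℝ)| * wgt s x ≤
      ∑ x ∈ Z, |∑ p, y p * (oo (F p) x : ℝ)| * wgt s x +
      ∑ x ∈ Z, |∑ p, y' p * (oo (F p) x : ℝ)| * wgt s x := by
    rw [← Finset.sum_add_distrib]
    refine Finset.sum_le_sum fun x _ => ?_
    rw [← add_mul]
    refine mul_le_mul_of_nonneg_right ?_ (wgt_nonneg hs x)
    refine le_trans (le_of_eq ?_) (abs_add_le _ _)
    rw [← Finset.sum_add_distrib]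
    congr 1
    exact Finset.sum_congr rfl fun p _ => by rw [Pi.add_apply]; ring
  linarith

theorem Th_smul (F : P → ℂ → ℂ) (s : ℝ) (Z : Finset ℂ) (c : ℝ) (y : P → ℝ) :
    Th F s Z (c • y) = |c| * Th F s Z y := by
  unfold Th
  have h1 : ∀ u : P → ℝ, |∑ p, (c • y) p * u p| = |c| * |∑ p, y p * u p| := by
    intro u
    rw [← abs_mul, Finset.mul_sum]
    congr 1
    exact Finset.sum_congr rfl fun p _ => by rw [Pi.smul_apply, smul_eq_mul]; ring
  simp only [h1]
  rw [mul_add, Finset.mul_sum]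
  congr 1
  · rw [← smul_eq_mul, ← Real.circleAverage_fun_smul]
    rfl
  · exact Finset.sum_congr rfl fun x _ => by ring

theorem Th_sum {F : P → ℂ → ℂ} (hF : ∀ p, Differentiable ℂ (F p)) {s : ℝ} (hs : 1 ≤ s)
    (Z : Finset ℂ) {I : Type} (T : Finset I) (c : I → ℝ) (r : I → P → ℝ) {M : ℝ}
    (hM : ∀ i ∈ T, c i ≠ 0 → Th F s Z (r i) ≤ M) :
    Th F s Z (∑ i ∈ T, c i • r i) ≤ (∑ i ∈ T, |c i|) * M := by
  classical
  induction T using Finset.induction_on with
  | empty =>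
    rw [Finset.sum_empty, Finset.sum_empty, zero_mul]
    have h1 := Th_smul F s Z 0 0
    rw [zero_smul, abs_zero, zero_mul] at h1
    exact h1.le
  | insert i T hi ih =>
    rw [Finset.sum_insert hi, Finset.sum_insert hi, add_mul]
    refine (Th_add hF hs Z _ _).trans (add_le_add ?_ (ih fun j hj => hM j
      (Finset.mem_insert_of_mem hj)))
    rw [Th_smul]
    by_cases hc : c i = 0
    · rw [hc, abs_zero, zero_mul, zero_mul]
    · exact mul_le_mul_of_nonneg_left (hM i (Finset.mem_insert_self _ _) hc) (abs_nonneg _)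

/-- a common denominator -/
theorem int_mul (φ : P → ℚ) : ∃ (D0 : ℕ) (b : P → ℤ), 0 < D0 ∧ ∀ l, (b l : ℚ) = D0 * φ l := by
  have h : ∀ l, ∃ z : ℤ, (z : ℚ) = ((∏ l, (φ l).den : ℕ) : ℚ) * φ l := by
    intro l
    obtain ⟨k, hk⟩ := Finset.dvd_prod_of_mem (fun l => (φ l).den) (Finset.mem_univ l)
    refine ⟨k * (φ l).num, ?_⟩
    rw [hk]
    push_cast
    have := Rat.mul_den_eq_num (φ l)
    linear_combination -(k : ℚ) * this
  choose b hb using h
  exact ⟨∏ l, (φ l).den, b, Finset.prod_pos fun l _ => (φ l).den_pos, hb⟩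

/-- **Alternative**: a separating weight, or an expression as a combination. -/
theorem alt {I : Type} [Finite I] (r : I → P → ℤ) (y : P → ℤ) : ∃ C : ℝ, 0 ≤ C ∧ ∀ S : Set I,
    (∃ b : P → ℤ, (∀ i ∈ S, ∑ p, b p * r i p = 0) ∧ ∑ p, b p * y p ≠ 0) ∨
    ∃ c : I → ℝ, (∀ i, i ∉ S → c i = 0) ∧ (fun p => (y p : ℝ)) =
      ∑ᶠ i, c i • (fun p => (r i p : ℝ)) ∧ ∑ᶠ i, |c i| ≤ C := by
  classical
  have := Fintype.ofFinite I
  have key : ∀ S : Set I,
      (∃ b : P → ℤ, (∀ i ∈ S, ∑ p, b p * r i p = 0) ∧ ∑ p, b p * y p ≠ 0) ∨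
      ∃ c : I → ℝ, (∀ i, i ∉ S → c i = 0) ∧ (fun p => (y p : ℝ)) =
        ∑ i, c i • (fun p => (r i p : ℝ)) := by
    intro S
    set rq : I → P → ℚ := fun i p => (r i p : ℚ) with hrq
    by_cases hy : (fun p => (y p : ℚ)) ∈ Submodule.span ℚ (rq '' S)
    · right
      obtain ⟨c, hcS, hc⟩ := (Finsupp.mem_span_image_iff_linearCombination ℚ).1 hy
      refine ⟨fun i => (c i : ℝ), fun i hi => ?_, ?_⟩
      · have h1 : c i = 0 := by
          by_contra h2
          exact hi (hcS (Finsupp.mem_support_iff.2 h2))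
        change ((c i : ℚ) : ℝ) = 0
        rw [h1, Rat.cast_zero]
      · funext p
        have h1 := congrFun hc p
        rw [Finsupp.linearCombination_apply, Finsupp.sum_fintype c (fun i a => a • rq i)
          (fun i => zero_smul ℚ _), Finset.sum_apply] at h1
        rw [Finset.sum_apply]
        have h2 : ((y p : ℚ) : ℝ) = ((∑ i, (c i • rq i) p : ℚ) : ℝ) := by rw [h1]
        rw [Rat.cast_intCast] at h2
        rw [h2, Rat.cast_sum]
        refine Finset.sum_congr rfl fun i _ => ?_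
        simp only [hrq, Pi.smul_apply, smul_eq_mul]
        push_cast
        ring
    · left
      obtain ⟨φ, hφ1, hφ2⟩ := Submodule.exists_le_ker_of_notMem hy
      obtain ⟨D0, b, hD0, hb⟩ := int_mul fun p : P => φ (Pi.single p 1)
      have hφ : ∀ v : P → ℚ, (D0 : ℚ) * φ v = ∑ p, (b p : ℚ) * v p := by
        intro v
        have h1 : v = ∑ p, v p • (Pi.single p (1 : ℚ) : P → ℚ) := by
          funext q
          rw [Finset.sum_apply, Finset.sum_eq_single q]
          · simp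
          · intro p _ hp
            simp [Pi.single_apply, hp.symm]
          · intro h
            exact absurd (Finset.mem_univ q) h
        conv_lhs => rw [h1]
        rw [map_sum, Finset.mul_sum]
        refine Finset.sum_congr rfl fun p _ => ?_
        rw [map_smul, smul_eq_mul, hb p]
        ring
      refine ⟨b, fun i hi => ?_, fun h => ?_⟩
      · have h1 := hφ (rq i)
        have h2 : φ (rq i) = 0 := hφ2 (Submodule.subset_span ⟨i, hi, rfl⟩)
        rw [h2, mul_zero] at h1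
        have h3 : ((∑ p, b p * r i p : ℤ) : ℚ) = 0 := by
          rw [h1]
          push_cast
          rfl
        exact_mod_cast h3
      · have h1 := hφ (fun p => (y p : ℚ))
        have h2 : ((∑ p, b p * y p : ℤ) : ℚ) = ∑ p, (b p : ℚ) * (y p : ℚ) := by push_cast; rfl
        rw [← h2, h, Int.cast_zero] at h1
        rcases mul_eq_zero.1 h1 with h3 | h3
        · exact hD0.ne' (by exact_mod_cast h3)
        · exact hφ1 h3
  have h2 : ∀ S : Set I, ∃ C : ℝ, 0 ≤ C ∧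
      ((∃ b : P → ℤ, (∀ i ∈ S, ∑ p, b p * r i p = 0) ∧ ∑ p, b p * y p ≠ 0) ∨
      ∃ c : I → ℝ, (∀ i, i ∉ S → c i = 0) ∧ (fun p => (y p : ℝ)) =
        ∑ i, c i • (fun p => (r i p : ℝ)) ∧ ∑ i, |c i| ≤ C) := by
    intro S
    rcases key S with h | ⟨c, hc1, hc2⟩
    · exact ⟨0, le_rfl, Or.inl h⟩
    · exact ⟨∑ i, |c i|, Finset.sum_nonneg fun i _ => abs_nonneg _, Or.inr ⟨c, hc1, hc2, le_rfl⟩⟩
  choose Cf hC0 hC using h2
  refine ⟨∑ S, Cf S, Finset.sum_nonneg fun S _ => hC0 S, fun S => ?_⟩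
  rcases hC S with h | ⟨c, hc1, hc2, hc3⟩
  · exact Or.inl h
  · right
    refine ⟨c, hc1, ?_, ?_⟩
    · rw [finsum_eq_sum_of_fintype]
      exact hc2
    · rw [finsum_eq_sum_of_fintype]
      exact hc3.trans (Finset.single_le_sum (f := Cf) (fun S _ => hC0 S) (Finset.mem_univ S))

end Pool.Agent.Q72.TR
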